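import Pool.Agent.H58.SF.Layer

/-!
# Statements of the modules
-/

namespace Pool.Agent.H58.SF

open Pool.Agent.H68.BP

/-- structures of the scope have finitely many orbits on tuples -/
def T_OR : Prop :=
  ∀ (σ : Sig) (A : Type) (𝔸 : Str σ A), InScope 𝔸 → Oligo 𝔸

/-- rigid images -/
def T_RG : Prop :=
  ∀ (σ : Sig) (A : Type) (𝔸 : Str σ A), Oligo 𝔸 → ∀ X : Finset A,
    ∃ e, IsHom 𝔸 𝔸 e ∧ RigidSet 𝔸 (e '' (X : Set A))

/-- existence of frames -/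
def T_BB : Prop :=
  ∀ (σ : Sig) (A : Type) (𝔸 : Str σ A), Countable A → Oligo 𝔸 → ∃ B : Set A, Frame 𝔸 B

/-- compactness -/
def T_CP : Prop :=
  ∀ (σ : Sig) (A : Type) (𝔸 : Str σ A), Countable A → Oligo 𝔸 →
    ∀ (J : Type) [Finite J] (F : Finset A) (δ : (J → A) → A),
      (∀ F' : Finset A, F ⊆ F' → ∃ h : (J → A) → A, PartPoly 𝔸 F' h ∧
        ∀ x, (∀ j, x j ∈ F) → h x = δ x) →
      ∃ h : (J → A) → A, IsPoly 𝔸 𝔸 h ∧ ∀ x, (∀ j, x j ∈ F) → h x = δ x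

/-- stabilisation -/
def T_ST : Prop :=
  ∀ (σ : Sig) (A : Type) (𝔸 : Str σ A), Countable A → Oligo 𝔸 →
    ∀ (J : Type) [Finite J] (F : Finset A), ∃ F' : Finset A, F ⊆ F' ∧
      ∀ h : (J → A) → A, PartPoly 𝔸 F' h →
        ∃ h' : (J → A) → A, IsPoly 𝔸 𝔸 h' ∧ ∀ x, (∀ j, x j ∈ F) → h' x = h x

/-- primitive positive definability -/
def T_PW : Prop :=
  ∀ (σ : Sig) (A : Type) (𝔸 : Str σ A) (F' : Finset A) (J V : Type) [Finite J] [Finite V]
    (p q : V → J → A), (∀ x j, p x j ∈ F') → (∀ x j, q x j ∈ F') →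
    PPDefinable 𝔸 {z : V ⊕ V → A | ∃ h : (J → A) → A, PartPoly 𝔸 F' h ∧
      (∀ x, h (p x) = z (Sum.inl x)) ∧ ∀ x, h (q x) = z (Sum.inr x)}

/-- change of the index set -/
def T_K3 : Prop :=
  ∀ (σ : Sig) (A : Type) (𝔸 : Str σ A) (V : Type) [Finite V] [Nonempty V]
    (E : (V → A) → (V → A) → Prop),
    PPDefinable 𝔸 {z : V ⊕ V → A | E (fun x => z (Sum.inl x)) (fun x => z (Sum.inr x))} →
    (∃ t : Fin 3 → V → A, ∀ a b, a ≠ b → E (t a) (t b)) →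
    (∃ c : (V → A) → Fin 3, ∀ u v, E u v → c u ≠ c v) → PPConstructsK3 𝔸

/-- the colouring -/
def T_COL : Prop :=
  ∀ (σ : Sig) (A : Type) (𝔸 : Str σ A) (B : Set A) (F : Finset A)
    (Q : (I : Type) → ((I → A) → A) → Set (Set I)),
    Frame 𝔸 B → (F : Set A) ⊆ B → Fam 𝔸 B F 1 1 Q →
    ∃ c : ((Fin 3 → F) → A) → Fin 3, ∀ h : (Arc3 → A) → A, IsPoly 𝔸 𝔸 h →
      c (fun x => h (fun a => (x a.1.1 : A))) ≠ c (fun x => h (fun a => (x a.1.2 : A)))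

/-- a natural choice of one coordinate gives a pp-construction -/
def T_F1 : Prop :=
  ∀ (σ : Sig) (A : Type) (𝔸 : Str σ A) (B : Set A) (F : Finset A)
    (Q : (I : Type) → ((I → A) → A) → Set (Set I)), Countable A → Oligo 𝔸 →
    Frame 𝔸 B → (F : Set A) ⊆ B → Fam 𝔸 B F 1 1 Q → PPConstructsK3 𝔸

/-- robust sets exist -/
def T_RA : Prop :=
  ∀ (σ : Sig) (A : Type) (𝔸 : Str σ A) (B : Set A) (F : Finset A)
    (Q : (I : Type) → ((I → A) → A) → Set (Set I)), (F : Set A) ⊆ B → Cov 𝔸 B F Q →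
    ∀ (I : Type) [Finite I] [Nonempty I] (f : (I → A) → A), Dom 𝔸 B F f →
    ∀ G₀ : Finset A, (G₀ : Set A) ⊆ B → Above F f G₀ →
      (∀ (K : Type) [Finite K] [Nonempty K] (g : (K → A) → A), Dom 𝔸 B G₀ g →
        (Q (K × I) (star g f)).Nonempty) →
      (Robust 𝔸 B F Q I f).Nonempty

/-- robust sets are covariant and belong to the family -/
def T_RB : Prop :=
  ∀ (σ : Sig) (A : Type) (𝔸 : Str σ A) (B : Set A) (F : Finset A)
    (Q : (I : Type) → ((I → A) → A) → Set (Set I)), (F : Set A) ⊆ B → Cov 𝔸 B F Q →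
    Cov 𝔸 B F (Robust 𝔸 B F Q) ∧
    ∀ (I : Type) [Finite I] (f : (I → A) → A), Dom 𝔸 B F f → Robust 𝔸 B F Q I f ⊆ Q I f

/-- Lemma G -/
def T_LG : Prop :=
  ∀ (σ : Sig) (A : Type) (𝔸 : Str σ A) (B : Set A) (F : Finset A) (N b : ℕ)
    (Q : (I : Type) → ((I → A) → A) → Set (Set I)), (F : Set A) ⊆ B → Fam 𝔸 B F N b Q →
    ∃ (G : Finset A) (Q' : (I : Type) → ((I → A) → A) → Set (Set I)),
      (G : Set A) ⊆ B ∧ Fam 𝔸 B G 1 1 Q'

/-- Lemma C -/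
def T_LC : Prop :=
  ∀ (σ : Sig) (A : Type) (𝔸 : Str σ A) (B : Set A) (F : Finset A) (k N : ℕ)
    (Q : Fin k → (I : Type) → ((I → A) → A) → Set (Set I)), (F : Set A) ⊆ B →
    (∀ c, Cov 𝔸 B F (Q c)) →
    (∀ (c : Fin k) (I : Type) [Finite I] (f : (I → A) → A), Dom 𝔸 B F f →
      ∀ X ∈ Q c I f, X.Nonempty ∧ X.ncard ≤ N) →
    (∀ (I : Type) [Finite I] [Nonempty I] (f : (I → A) → A), Dom 𝔸 B F f →
      ∃ c, (Q c I f).Nonempty ∧ ¬ HasDisj (Q c I f) (N + 1)) →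
    ∃ (G : Finset A) (Q' : (I : Type) → ((I → A) → A) → Set (Set I)),
      (G : Set A) ⊆ B ∧ Fam 𝔸 B G N N Q'

/-- THEOREM 1 -/
def T_SF : Prop :=
  ∀ (σ : Sig) (S A T : Type) (𝕊 : Str σ S) (𝔸 : Str σ A) (𝕋 : Str σ T), Finite S →
    Countable A → Oligo 𝔸 → (∃ s, IsHom 𝕊 𝔸 s) → (∃ r, IsHom 𝔸 𝕋 r) →
    SmallFamilies 𝕊 𝕋 → PPConstructsK3 𝔸

/-- bounded selections give small families -/
def T_BS : Prop :=
  ∀ (σ : Sig) (S T : Type) (𝕊 : Str σ S) (𝕋 : Str σ T),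
    BoundedSelection 𝕊 𝕋 → SmallFamilies 𝕊 𝕋

/-- application of the octahedral Tucker lemma -/
def T_TK : Prop :=
  ∀ (I : Type) [Finite I] (m N : ℕ) (φ : Set I → Fin m) (C : Finset (Fin m))
    (Z : Fin (m + 2) → Set I), (∀ j, (Z j).Nonempty) → (∀ j, (Z j).ncard ≤ N) →
    (∀ j j', j ≠ j' → Disjoint (Z j) (Z j')) → (∀ j, ∀ X, Z j ⊆ X → φ X ∉ C) →
    ∃ X Y : Set I, Disjoint X Y ∧ φ X = φ Y ∧ φ X ∉ C ∧ ((X ∪ Y)ᶜ).ncard ≤ (m + 1) * N

/-- no Olšák function: small families -/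
def T_OS : Prop :=
  ∀ (σ : Sig) (S T : Type) (𝕊 : Str σ S) (𝕋 : Str σ T), Finite S → Finite T →
    ¬ HasOlsak 𝕊 𝕋 → SmallFamilies 𝕊 𝕋

/-- complete graphs -/
def T_KK : Prop :=
  ∀ (k : ℕ) (T : Type) (R : T → T → Prop), 3 ≤ k →
    (¬ ∃ h : Fin (2 * k) → T, ∀ i j, i ≠ j → R (h i) (h j)) →
    ¬ HasOlsak (graph (fun i j : Fin k => i ≠ j)) (graph R)

/-- the cycle of length `n` -/
def cyc (n : ℕ) (i j : ZMod n) : Prop := j = i + 1 ∨ i = j + 1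

/-- additivity of the sums along walks, the main step for odd potentials: for every homomorphism
`f` from a power of an odd cycle there are integers `s i` such that the value of the closed walk
below is the sum of the `s i` over `Y` -/
def T_AD : Prop :=
  ∀ (X : Type) (E : X → X → Prop) (W : X → X → ℤ),
    (∀ x y, W y x = -W x y) →
    (∀ a b c d, E a b → E b c → E c d → E d a → W a b + W b c + W c d + W d a = 0) →
    ∀ (n : ℕ) (I : Type) (f : (I → ZMod (2 * n + 1)) → X),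
      (∀ x y : I → ZMod (2 * n + 1), (∀ i, cyc (2 * n + 1) (x i) (y i)) → E (f x) (f y)) →
      ∀ Y Y' : Set I, Disjoint Y Y' →
        (open Classical in
        let S : Set I → ℤ := fun Z => ∑ k ∈ Finset.range (2 * (2 * n + 1)),
          W (f (fun i => if i ∈ Z then (k : ZMod (2 * n + 1)) else ((k % 2 : ℕ) : ZMod (2 * n + 1))))
            (f (fun i => if i ∈ Z then ((k + 1 : ℕ) : ZMod (2 * n + 1))
              else (((k + 1) % 2 : ℕ) : ZMod (2 * n + 1))))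
        S (Y ∪ Y') = S Y + S Y')

/-- odd potentials give bounded selections for odd cycles -/
def T_OP : Prop :=
  ∀ (X : Type) (E : X → X → Prop) (n : ℕ), OddPotential E →
    BoundedSelection (graph (cyc (2 * n + 1))) (graph E)

/-- examples of odd potentials -/
def T_EX : Prop :=
  (∀ (X : Type) (E : X → X → Prop) (c : X → Fin 3), (∀ x y, E x y → c x ≠ c y) →
    OddPotential E) ∧
  (∀ (X : Type) (E : X → X → Prop) (p q : ℕ) (c : X → Fin p), Odd p → p < 4 * q →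
    (∀ x y, E x y → (q ≤ ((c y : ℤ) - (c x : ℤ)).natAbs ∧
      ((c y : ℤ) - (c x : ℤ)).natAbs ≤ p - q)) → OddPotential E) ∧
  (∀ (X : Type) (E : X → X → Prop), (∀ x, ¬ E x x) →
    (∀ a b c d, E a b → E b c → E c d → E d a → a = c ∨ b = d) → OddPotential E)

/-- bipartite graphs: the constraint satisfaction problem is in P -/
def T_P2 : Prop :=
  ∀ (D : Type) (E : D → D → Prop) (c : D → Bool), Nonempty D → (∀ x y, E x y → E y x) →
    (∀ x y, E x y → c x ≠ c y) → CSP (graph E) ∈ N68a2faeb.P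

/-- graphs without odd closed walks are bipartite -/
def T_NB : Prop :=
  ∀ (D : Type) (E : D → D → Prop), (∀ x y, E x y → E y x) → ¬ OddWalk E →
    ∃ c : D → Bool, ∀ x y, E x y → c x ≠ c y

/-- `ℙ` is a pp-power of `𝔸` of dimension `n`. -/
def PPPower {σ τ : Sig} {A : Type} (𝔸 : Str σ A) (n : ℕ) (ℙ : Str τ (Fin n → A)) : Prop :=
  ∀ l, PPDefinable 𝔸 {z : Fin (τ.ar l) × Fin n → A | ℙ l (fun k i => z (k, i))}

/-- composition of pp-constructions -/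
def T_TR : Prop :=
  ∀ (σ τ : Sig) (A : Type) (𝔸 : Str σ A) (n : ℕ) (ℙ : Str τ (Fin n → A)), 1 ≤ n →
    PPPower 𝔸 n ℙ → PPConstructsK3 ℙ → PPConstructsK3 𝔸

/-- pp-powers have finitely many orbits on tuples -/
def T_PO : Prop :=
  ∀ (σ τ : Sig) (A : Type) (𝔸 : Str σ A) (n : ℕ) (ℙ : Str τ (Fin n → A)),
    PPPower 𝔸 n ℙ → Oligo 𝔸 → Oligo ℙ

end Pool.Agent.H58.SF
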