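import Pool.Agent.H58.SF.Asm
import Pool.Agent.H51.SF.TR

/-!
# Final assembly
-/

namespace Pool.Agent.H58.SF

open Pool.Agent.H68.BP

/-- The structure with one ternary relation. -/
def ternary {A : Type} (R : A → A → A → Prop) : Str ⟨1, fun _ => 3⟩ A :=
  fun _ (x : Fin 3 → A) => R (x 0) (x 1) (x 2)

/-- the criteria -/
theorem criterion (hOS : T_OS) {σ : Sig} {S A T : Type} {𝕊 : Str σ S} {𝔸 : Str σ A}
    {𝕋 : Str σ T} (hS : Finite S) (hA : Countable A) (hol : Oligo 𝔸)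
    (hs : ∃ s, IsHom 𝕊 𝔸 s) (hr : ∃ r, IsHom 𝔸 𝕋 r)
    (h : BoundedSelection 𝕊 𝕋 ∨ SmallFamilies 𝕊 𝕋 ∨ (Finite T ∧ ¬ HasOlsak 𝕊 𝕋)) :
    PPConstructsK3 𝔸 := by
  refine all_SF σ S A T 𝕊 𝔸 𝕋 hS hA hol hs hr ?_
  rcases h with h | h | ⟨hT, h⟩
  · exact pf_BS σ S T 𝕊 𝕋 h
  · exact h
  · exact hOS σ S T 𝕊 𝕋 hS hT h

theorem criterionP (hOS : T_OS) (hPO : T_PO) {σ τ : Sig} {S A T : Type} {𝔸 : Str σ A}
    (hA : Countable A) (hol : Oligo 𝔸) {n : ℕ} (hn : 1 ≤ n) {ℙ : Str τ (Fin n → A)}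
    (hP : PPPower 𝔸 n ℙ) {𝕊 : Str τ S} {𝕋 : Str τ T} (hS : Finite S)
    (hs : ∃ s, IsHom 𝕊 ℙ s) (hr : ∃ r, IsHom ℙ 𝕋 r)
    (h : BoundedSelection 𝕊 𝕋 ∨ SmallFamilies 𝕊 𝕋 ∨ (Finite T ∧ ¬ HasOlsak 𝕊 𝕋)) :
    PPConstructsK3 𝔸 :=
  Pool.Agent.H51.SF.pf_TR σ τ A 𝔸 n ℙ hn hP
    (criterion hOS hS inferInstance (hPO σ τ A 𝔸 n ℙ hP hol) hs hr h)

/-- graphs -/
theorem graph_K3 (hOS : T_OS) {D : Type} {E : D → D → Prop} (hD : Countable D)
    (hol : Oligo (graph E)) (hs : ∀ x y, E x y → E y x) (hE : SandwichGraph E)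
    (h2 : ¬ Colorable E 2) : PPConstructsK3 (graph E) := by
  rcases hE with hE | ⟨k, hk, ⟨h, hh⟩, T, R, c, hT, hR, hc⟩
  · obtain ⟨n, s, hsn⟩ := cyc_hom hs (odd_of_not_colorable hs h2)
    exact criterion hOS (𝕊 := graph (cyc (2 * n + 1))) (𝕋 := graph E)
      (inferInstanceAs (Finite (ZMod (2 * n + 1)))) hD hol ⟨s, hsn⟩ ⟨id, fun _ _ hx => hx⟩
      (Or.inl (all_OP D E n hE))
  · refine criterion hOS (𝕊 := graph (fun i j : Fin k => i ≠ j)) (𝕋 := graph R)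
      inferInstance hD hol ⟨h, fun _ _ hx => hh _ _ hx⟩ ⟨c, fun _ _ hx => hc _ _ hx⟩ ?_
    exact Or.inr (Or.inr ⟨hT, Pool.Agent.H58.SF.pf_KK k T R hk hR⟩)

theorem not_hasClique_fin (k : ℕ) (hk : 1 ≤ k) :
    ¬ HasClique (fun i j : Fin (2 * k - 1) => i ≠ j) (2 * k) := by
  rintro ⟨h, hh⟩
  have hinj : Function.Injective h := by
    intro i j hij
    by_contra hne
    exact hh i j hne hij
  have := Fintype.card_le_of_injective h hinj
  simp only [Fintype.card_fin] at this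
  omega

theorem sandwich_of_colorable {D : Type} {E : D → D → Prop}
    (h : Colorable E 3 ∨ ∃ k, HasClique E k ∧ Colorable E (2 * k - 1)) : SandwichGraph E := by
  have h3 : Colorable E 3 → SandwichGraph E := fun ⟨c, hc⟩ =>
    Or.inl (Pool.Agent.H34.SF.pf_EX.1 D E c hc)
  rcases h with h | ⟨k, hk, c, hc⟩
  · exact h3 h
  · rcases Nat.lt_or_ge k 3 with hk3 | hk3
    · refine h3 ⟨fun x => ⟨c x, by have := (c x).2; omega⟩, fun x y hxy he => hc x y hxy ?_⟩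
      exact Fin.ext (Fin.mk.inj_iff.1 he)
    · exact Or.inr ⟨k, hk3, hk, Fin (2 * k - 1), fun i j => i ≠ j, c, inferInstance,
        not_hasClique_fin k (by omega), hc⟩

/-- hypergraphs -/
theorem hyper_K3 (hOS : T_OS) {A : Type} {R : A → A → A → Prop} (hA : Countable A)
    (hol : Oligo (ternary R)) {a b : A} (h1 : R a a b ∧ R a b a ∧ R b a a)
    (h2 : R b b a ∧ R b a b ∧ R a b b) {m : ℕ} {c : A → Fin m}
    (hc : ∀ x y z, R x y z → ¬ (c x = c y ∧ c y = c z)) : PPConstructsK3 (ternary R) := by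
  refine criterion hOS
    (𝕊 := ternary (fun x y z : Bool => ¬ (x = y ∧ y = z)))
    (𝕋 := ternary (fun x y z : Fin m => ¬ (x = y ∧ y = z))) inferInstance hA hol
    ⟨fun t => if t then a else b, ?_⟩ ⟨c, ?_⟩ (Or.inr (Or.inr ⟨inferInstance, ?_⟩))
  · intro l x hx
    change ¬ (x 0 = x 1 ∧ x 1 = x 2) at hx
    change R (if x 0 then a else b) (if x 1 then a else b) (if x 2 then a else b)
    revert hx
    rcases x 0 with _ | _ <;> rcases x 1 with _ | _ <;> rcases x 2 with _ | _ <;>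
      intro hx <;> simp_all
  · intro l x hx
    exact hc _ _ _ hx
  · rintro ⟨o, ho, he⟩
    have h3 := ho 0 (fun i : Fin 6 => ![![true, true, false, false, false, true] i,
      ![true, false, true, false, true, false] i, ![false, true, true, true, false, false] i])
      (by
        intro i
        change ¬ (_ = _ ∧ _ = _)
        revert i
        decide)
    obtain ⟨e1, e2⟩ := he true false
    exact h3 ⟨e1, e2⟩

end Pool.Agent.H58.SF
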