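import Pool.Agent.H58.SF.K3

/-!
# Primitive positive definability by finitely many atoms
-/

namespace Pool.Agent.H58.SF

open Pool.Agent.H68.BP

variable {σ : Sig} {A : Type} {𝔸 : Str σ A}

theorem ppDefinable_of_finite {I Y : Type} [Finite Y] (Φ : Set (Atom σ (I ⊕ Y)))
    (hΦ : Φ.Finite) :
    PPDefinable 𝔸 {x : I → A | ∃ y : Y → A, ∀ a ∈ Φ, a.Holds 𝔸 (Sum.elim x y)} := by
  classical
  have := Fintype.ofFinite Y
  let e : Y ≃ Fin (Fintype.card Y) := Fintype.equivFin Y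
  refine ⟨Fintype.card Y, hΦ.toFinset.toList.map (mapAtom (Sum.map id e)), fun x => ?_⟩
  have key : ∀ (y : Fin (Fintype.card Y) → A) (a : Atom σ (I ⊕ Y)),
      (mapAtom (Sum.map id e) a).Holds 𝔸 (Sum.elim x y) ↔
        a.Holds 𝔸 (Sum.elim x (fun t => y (e t))) := by
    intro y a
    rw [holds_mapAtom]
    have e1 : (fun z => Sum.elim x y (Sum.map id e z)) = Sum.elim x (fun t => y (e t)) := by
      funext z
      rcases z with z | z <;> rfl
    rw [e1]
  constructor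
  · rintro ⟨y, hy⟩
    refine ⟨fun t => y (e.symm t), fun a ha => ?_⟩
    obtain ⟨b, hb, rfl⟩ := List.mem_map.1 ha
    rw [key]
    simp only [Equiv.symm_apply_apply]
    exact hy b (by simpa using hb)
  · rintro ⟨y, hy⟩
    refine ⟨fun t => y (e t), fun a ha => ?_⟩
    rw [← key]
    exact hy _ (List.mem_map.2 ⟨a, by simpa using ha, rfl⟩)

theorem pf_PW : T_PW := by
  classical
  intro σ A 𝔸 F' J V _ _ p q hp hq
  let Y : Type := J → F'
  let p' : V → Y := fun x j => ⟨p x j, hp x j⟩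
  let q' : V → Y := fun x j => ⟨q x j, hq x j⟩
  let R : (Σ l : Fin σ.m, J → Fin (σ.ar l) → F') → Atom σ ((V ⊕ V) ⊕ Y) :=
    fun s => .rel s.1 (fun k => Sum.inr (fun j => s.2 j k))
  let Φ : Set (Atom σ ((V ⊕ V) ⊕ Y)) :=
    (R '' {s | ∀ j, 𝔸 s.1 (fun k => (s.2 j k : A))}) ∪
      (Set.range (fun x : V => Atom.eq (Sum.inr (p' x)) (Sum.inl (Sum.inl x))) ∪
        Set.range (fun x : V => Atom.eq (Sum.inr (q' x)) (Sum.inl (Sum.inr x))))
  have hΦ : Φ.Finite :=
    ((Set.toFinite _).image _).union ((Set.finite_range _).union (Set.finite_range _))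
  have h1 := ppDefinable_of_finite (𝔸 := 𝔸) Φ hΦ
  have h2 : {z : V ⊕ V → A | ∃ h : (J → A) → A, PartPoly 𝔸 F' h ∧
      (∀ x, h (p x) = z (Sum.inl x)) ∧ ∀ x, h (q x) = z (Sum.inr x)} =
      {x : V ⊕ V → A | ∃ y : Y → A, ∀ a ∈ Φ, a.Holds 𝔸 (Sum.elim x y)} := by
    ext z
    constructor
    · rintro ⟨h, hh, hpz, hqz⟩
      refine ⟨fun t => h (fun j => (t j : A)), ?_⟩
      rintro a (⟨s, hs, rfl⟩ | ⟨x, rfl⟩ | ⟨x, rfl⟩)
      · exact hh s.1 (fun j k => (s.2 j k : A)) (fun j k => (s.2 j k).2) hs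
      · exact hpz x
      · exact hqz x
    · rintro ⟨y, hy⟩
      refine ⟨fun x => if hx : ∀ j, x j ∈ F' then y (fun j => ⟨x j, hx j⟩) else
        x (not_forall.1 hx).choose, ?_, ?_, ?_⟩
      · intro l x hx hxl
        have hmem : (⟨l, fun j k => ⟨x j k, hx j k⟩⟩ :
            Σ l : Fin σ.m, J → Fin (σ.ar l) → F') ∈
            {s : Σ l : Fin σ.m, J → Fin (σ.ar l) → F' | ∀ j, 𝔸 s.1 (fun k => (s.2 j k : A))} :=
          hxl
        have h3 := hy (R ⟨l, fun j k => ⟨x j k, hx j k⟩⟩) (Or.inl ⟨_, hmem, rfl⟩)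
        have h4 : 𝔸 l (fun k => y (fun j => ⟨x j k, hx j k⟩)) := h3
        have h5 : (fun k : Fin (σ.ar l) => (if hx : ∀ j, x j k ∈ F' then
            y (fun j => ⟨x j k, hx j⟩) else x (not_forall.1 hx).choose k)) =
            fun k => y (fun j => ⟨x j k, hx j k⟩) := by
          funext k
          rw [dif_pos (fun j => hx j k)]
        exact h5 ▸ h4
      · intro x
        exact (dif_pos (hp x)).trans (hy _ (Or.inr (Or.inl ⟨x, rfl⟩)))
      · intro x
        exact (dif_pos (hq x)).trans (hy _ (Or.inr (Or.inr ⟨x, rfl⟩)))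
  rw [h2]
  exact h1

end Pool.Agent.H58.SF
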