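import Pool.Agent.H68.SF.LT

/-! The transitive collapse of an elementary submodel. -/

open Ordinal Cardinal Order Set
open scoped ZFSet

namespace SF.H58

open SF

/-- the collapsing map -/
noncomputable def col (X x : V) : V :=
  ZFSet.range fun z : (x ∩ X : V) => col X z.1
termination_by x.rank
decreasing_by exact ZFSet.rank_lt_of_mem (ZFSet.mem_inter.1 z.2).1

theorem mem_col {X x y : V} : y ∈ col X x ↔ ∃ z, z ∈ x ∧ z ∈ X ∧ col X z = y := by
  rw [col, ZFSet.mem_range]
  constructor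
  · rintro ⟨⟨z, hz⟩, rfl⟩
    exact ⟨z, (ZFSet.mem_inter.1 hz).1, (ZFSet.mem_inter.1 hz).2, rfl⟩
  · rintro ⟨z, h1, h2, rfl⟩
    exact ⟨⟨z, ZFSet.mem_inter.2 ⟨h1, h2⟩⟩, rfl⟩

/-- an elementary submodel of a transitive set is extensional -/
theorem elsub_sep {N X : V} (hX : ElSub X N) {x y z : V} (hx : x ∈ X) (hy : y ∈ X) (hz : z ∈ N)
    (h1 : z ∈ x) (h2 : z ∉ y) : ∃ w ∈ X, w ∈ x ∧ w ∉ y := by
  have h := (hX.2 (.ex (.and (.mem 0 1) (.neg (.mem 0 2)))) (cons x fun _ => y) (by
    intro i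
    cases i with
    | zero => exact hx
    | succ i => exact hy)).2 ⟨z, hz, h1, h2⟩
  obtain ⟨w, hw, h3, h4⟩ := h
  exact ⟨w, hw, h3, h4⟩

theorem col_inj {N X : V} (hN : N.IsTransitive) (hX : ElSub X N) :
    ∀ x ∈ X, ∀ y ∈ X, col X x = col X y → x = y := by
  intro x
  induction x using ZFSet.inductionOn with
  | _ x ih =>
    intro hx y hy hxy
    have key : ∀ z ∈ X, z ∈ x ↔ z ∈ y := by
      intro z hz
      constructor
      · intro h
        have h1 : col X z ∈ col X y := by
          rw [← hxy]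
          exact mem_col.2 ⟨z, h, hz, rfl⟩
        obtain ⟨w, hw, hwX, he⟩ := mem_col.1 h1
        have := ih z h hz w hwX he.symm
        rw [this]
        exact hw
      · intro h
        have h1 : col X z ∈ col X x := by
          rw [hxy]
          exact mem_col.2 ⟨z, h, hz, rfl⟩
        obtain ⟨w, hw, hwX, he⟩ := mem_col.1 h1
        have := ih w hw hwX z hz he
        rw [← this]
        exact hw
    ext z
    constructor
    · intro h
      by_contra hc
      obtain ⟨w, hw, h3, h4⟩ := elsub_sep hX hx hy (hN x (hX.1 hx) h) h hc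
      exact h4 ((key w hw).1 h3)
    · intro h
      by_contra hc
      obtain ⟨w, hw, h3, h4⟩ := elsub_sep hX hy hx (hN y (hX.1 hy) h) h hc
      exact h4 ((key w hw).2 h3)

theorem lco : T_LCO := by
  intro N X hN hne hX
  have hinj := col_inj hN hX
  set N' : V := ZFSet.range fun x : (X : V) => col X x.1 with hN'
  set f : V := ZFSet.range fun x : (X : V) => ZFSet.pair (col X x.1) x.1 with hf
  have memN' : ∀ u, u ∈ N' ↔ ∃ x ∈ X, col X x = u := by
    intro u
    rw [hN', ZFSet.mem_range]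
    constructor
    · rintro ⟨x, rfl⟩
      exact ⟨x.1, x.2, rfl⟩
    · rintro ⟨x, hx, rfl⟩
      exact ⟨⟨x, hx⟩, rfl⟩
  have memf : ∀ u y, ZFSet.pair u y ∈ f ↔ y ∈ X ∧ col X y = u := by
    intro u y
    rw [hf, ZFSet.mem_range]
    constructor
    · rintro ⟨x, hx⟩
      obtain ⟨h1, h2⟩ := ZFSet.pair_injective hx
      rw [← h2]
      exact ⟨x.2, h1⟩
    · rintro ⟨hy, rfl⟩
      exact ⟨⟨y, hy⟩, rfl⟩
  have happ : ∀ x ∈ X, app f (col X x) = x := by
    intro x hx
    unfold app
    ext z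
    rw [ZFSet.mem_sUnion]
    constructor
    · rintro ⟨y, hy, hz⟩
      rw [ZFSet.mem_sep] at hy
      obtain ⟨h1, h2⟩ := (memf _ _).1 hy.2
      rw [hinj x hx y h1 h2.symm]
      exact hz
    · intro hz
      refine ⟨x, ?_, hz⟩
      rw [ZFSet.mem_sep]
      have h1 : ZFSet.pair (col X x) x ∈ f := (memf _ _).2 ⟨hx, rfl⟩
      refine ⟨?_, h1⟩
      rw [ZFSet.mem_sUnion]
      refine ⟨{col X x, x}, ?_, by simp⟩
      rw [ZFSet.mem_sUnion]
      exact ⟨_, h1, by simp [ZFSet.pair]⟩
  have happX : ∀ u ∈ N', app f u ∈ X ∧ col X (app f u) = u := by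
    intro u hu
    obtain ⟨x, hx, rfl⟩ := (memN' u).1 hu
    rw [happ x hx]
    exact ⟨hx, rfl⟩
  have hmem : ∀ x ∈ X, ∀ y ∈ X, (col X x ∈ col X y ↔ x ∈ y) := by
    intro x hx y hy
    rw [mem_col]
    constructor
    · rintro ⟨z, hz, hzX, he⟩
      rw [← hinj z hzX x hx he]
      exact hz
    · intro h
      exact ⟨x, h, hx, rfl⟩
  have hmem' : ∀ u ∈ N', ∀ w ∈ N', (u ∈ w ↔ app f u ∈ app f w) := by
    intro u hu w hw
    obtain ⟨h1, h2⟩ := happX u hu
    obtain ⟨h3, h4⟩ := happX w hw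
    rw [← hmem _ h1 _ h3, h2, h4]
  have hsat : ∀ (φ : Fml) (v : ℕ → V), (∀ i, v i ∈ N') →
      (Sat (· ∈ N') φ v ↔ Sat (· ∈ X) φ fun i => app f (v i)) := by
    intro φ
    unfold Sat
    induction φ with
    | mem i j => intro v hv; exact hmem' _ (hv i) _ (hv j)
    | eq i j =>
      intro v hv
      show v i = v j ↔ app f (v i) = app f (v j)
      constructor
      · intro h
        rw [h]
      · intro h
        rw [← (happX _ (hv i)).2, ← (happX _ (hv j)).2, h]
    | prd i => intro v hv; exact Iff.rfl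
    | neg φ ih => intro v hv; exact not_congr (ih v hv)
    | and φ ψ ih1 ih2 => intro v hv; exact and_congr (ih1 v hv) (ih2 v hv)
    | ex φ ih =>
      intro v hv
      have e : ∀ u, (fun i => app f (cons u v i)) = cons (app f u) fun i => app f (v i) := by
        intro u
        funext i
        cases i <;> rfl
      have hc : ∀ u ∈ N', ∀ i, cons u v i ∈ N' := by
        intro u hu i
        cases i with
        | zero => exact hu
        | succ i => exact hv i
      constructor
      · rintro ⟨u, hu, h⟩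
        refine ⟨app f u, (happX u hu).1, ?_⟩
        rw [← e]
        exact (ih _ (hc u hu)).1 h
      · rintro ⟨x, hx, h⟩
        have hu : col X x ∈ N' := (memN' _).2 ⟨x, hx, rfl⟩
        refine ⟨col X x, hu, (ih _ (hc _ hu)).2 ?_⟩
        rw [e, happ x hx]
        exact h
  have hrange : ∀ y, y ∈ X ↔ ∃ u ∈ N', app f u = y := by
    intro y
    constructor
    · intro hy
      exact ⟨col X y, (memN' _).2 ⟨y, hy, rfl⟩, happ y hy⟩
    · rintro ⟨u, hu, rfl⟩
      exact (happX u hu).1
  refine ⟨N', f, ?_, ⟨?_, ?_⟩, hrange, ?_, ?_, ?_⟩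
  · intro u hu y hy
    obtain ⟨x, hx, rfl⟩ := (memN' u).1 hu
    obtain ⟨z, -, hz, rfl⟩ := mem_col.1 hy
    exact (memN' _).2 ⟨z, hz, rfl⟩
  · refine ⟨?_, ?_⟩
    · intro z hz
      rw [hf, ZFSet.mem_range] at hz
      obtain ⟨x, rfl⟩ := hz
      rw [ZFSet.pair_mem_prod]
      exact ⟨(memN' _).2 ⟨x.1, x.2, rfl⟩, hX.1 x.2⟩
    · intro u hu
      obtain ⟨x, hx, rfl⟩ := (memN' u).1 hu
      refine ⟨x, (memf _ _).2 ⟨hx, rfl⟩, ?_⟩
      intro y hy
      obtain ⟨h1, h2⟩ := (memf _ _).1 hy
      exact hinj y h1 x hx h2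
  · intro φ v hv
    rw [hsat φ v hv]
    exact hX.2 φ _ fun i => (happX _ (hv i)).1
  · refine le_antisymm ?_ ?_
    · have h1 := ZFSet.lift_card_range_le (f := fun x : (X : V) => col X x.1)
      rw [ZFSet.cardinalMk_coe_sort] at h1
      simpa using h1
    · have h1 := ZFSet.lift_card_range_le (f := fun u : (N' : V) => app f u.1)
      have e : ZFSet.range (fun u : (N' : V) => app f u.1) = X := by
        ext y
        rw [ZFSet.mem_range, hrange]
        constructor
        · rintro ⟨u, rfl⟩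
          exact ⟨u.1, u.2, rfl⟩
        · rintro ⟨u, hu, rfl⟩
          exact ⟨⟨u, hu⟩, rfl⟩
      rw [e, ZFSet.cardinalMk_coe_sort] at h1
      simpa using h1
  · intro u hu y
    constructor
    · intro hy
      obtain ⟨x, hx, rfl⟩ := (memN' u).1 hu
      obtain ⟨z, hzx, hz, rfl⟩ := mem_col.1 hy
      rw [happ z hz, happ x hx]
      exact ⟨(memN' _).2 ⟨z, hz, rfl⟩, hzx⟩
    · rintro ⟨hy, h⟩
      exact (hmem' y hy u hu).2 h
  · intro t ht htX
    have hid : ∀ u, u ∈ t → col X u = u := by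
      intro u
      induction u using ZFSet.inductionOn with
      | _ u ih =>
        intro hu
        ext y
        rw [mem_col]
        constructor
        · rintro ⟨z, hz, -, rfl⟩
          rw [ih z hz (ht u hu hz)]
          exact hz
        · intro hy
          exact ⟨y, hy, htX (ht u hu hy), ih y hy (ht u hu hy)⟩
    intro u hu
    have h1 := happ u (htX hu)
    rw [hid u hu] at h1
    exact ⟨(memN' _).2 ⟨u, htX hu, hid u hu⟩, h1⟩

end SF.H58
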