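import Pool.Agent.H58.SF.LFT

/-!
# Row DGN of the board `sfc_modules`: elements of small degree are not divisible by `G`
-/

set_option autoImplicit false

namespace Pool.Agent.H58.SF

open MvPolynomial SC
open Pool.Agent.H27.LV (ge deg poleOrder canDeg)
open Pool.Agent.H92.OD (HS cf sg uu Lat geO IsO DF DD)
open Pool.Agent.H84.SM (y1 y2 Near cr dt dp)
open Pool.Agent.H3.SF (Itg Bb BB Hm eu grd hes Sfc Crd Cnn Crf Prm nv)
open Pool.Agent.H84.SF

/-- integral elements of degree `0` are algebraic over `k` -/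
theorem alg_of_deg_zero (hHIE : T_HIE) {k F : Type} [Field k] [CharZero k] [Field F] [Algebra k F]
    {u : Fin 3 → F} {dd : Fin 3 → Derivation k F F}
    (hdu : ∀ l j, dd l (u j) = if l = j then 1 else 0) {a : F} (ha : Itg k u a)
    (ha0 : Hm k (eu u dd) 0 a) : IsAlgebraic k a := by
  classical
  obtain ⟨N, c, hc, hrel⟩ := hHIE k F u dd hdu a 0 ha (by exact_mod_cast ha0)
  have hc' : ∀ i, c i = C (coeff 0 (c i)) := by
    intro i
    have h1 := hc i
    rw [mul_zero] at h1
    rwa [← totalDegree_zero_iff_isHomogeneous, totalDegree_eq_zero_iff_eq_C] at h1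
  refine ⟨Polynomial.X ^ N + ∑ i : Fin N, Polynomial.C (coeff 0 (c i)) * Polynomial.X ^ (i : ℕ),
    ?_, ?_⟩
  · intro h0
    have h1 := congrArg (fun q => Polynomial.coeff q N) h0
    simp only [Polynomial.coeff_add, Polynomial.coeff_X_pow, if_true, Polynomial.finsetSum_coeff,
      Polynomial.coeff_C_mul, Polynomial.coeff_zero] at h1
    rw [Finset.sum_eq_zero (fun i _ => by
      rw [if_neg (by have := i.2; omega), mul_zero])] at h1
    simp at h1
  · rw [map_add, map_pow, Polynomial.aeval_X, map_sum, ← hrel]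
    congr 1
    refine Finset.sum_congr rfl fun i _ => ?_
    rw [map_mul, map_pow, Polynomial.aeval_X, Polynomial.aeval_C]
    congr 1
    conv_rhs => rw [hc' i]
    rw [algHom_C]

theorem pf_DGN (hHIE : T_HIE) : T_DGN := by
  classical
  intro k F _ _ _ _ u dd hdu hind m G hG hGm
  have hF : CharZero F := charZero_of_injective_algebraMap (algebraMap k F).injective
  have hE : ∀ i, Hm k (eu u dd) 1 (u i) := hm_u hdu
  have h1 : ∀ (w : F) (e : ℕ), w ≠ 0 → Itg k u w → Hm k (eu u dd) e w → e < m →
      ¬ Itg k u (w / G) := by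
    intro w e hw hwi hwe hem hwG
    have h2 := Pool.Agent.H62.HIL.hm_div hwe hGm hG
    have h3 : ((e : ℤ) - (m : ℤ)) < 0 := by
      have : (e : ℤ) < m := by exact_mod_cast hem
      linarith
    have h4 : w / G ∈ BB k u (eu u dd) ((e : ℤ) - (m : ℤ)) := ⟨hwG, h2⟩
    rw [Pool.Agent.H62.HIL.bb_neg hE h3, Submodule.mem_bot] at h4
    exact (div_ne_zero hw hG) h4
  refine ⟨h1, ?_⟩
  intro hm
  by_contra hcon
  push Not at hcon
  have hu0 : ∀ i, u i ≠ 0 := fun i => hind.ne_zero i
  have hui : ∀ i, Itg k u (u i) := by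
    intro i
    have h2 := itg_aeval (u := u) (X i : MvPolynomial (Fin 3) k)
    rwa [aeval_X] at h2
  by_cases hm1 : 1 < m
  · exact h1 (u 0) 1 (hu0 0) (hui 0) (by exact_mod_cast hE 0) hm1 (hcon 0)
  · have hm' : m = 1 := by omega
    subst hm'
    have halg : ∀ i, IsAlgebraic k (u i / G) := by
      intro i
      refine alg_of_deg_zero hHIE hdu (hcon i) ?_
      have h2 := Pool.Agent.H62.HIL.hm_div (hE i) hGm hG
      have h3 : (1 : ℤ) - ((1 : ℕ) : ℤ) = 0 := by norm_num
      rwa [h3] at h2
    have hr : IsAlgebraic k (u 0 / u 1) := by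
      have h2 : u 0 / u 1 = (u 0 / G) * (u 1 / G)⁻¹ := by
        have := hu0 1
        field_simp
      rw [h2]
      exact (halg 0).mul (halg 1).inv
    obtain ⟨P, hP0, hP⟩ := hr
    set n := P.natDegree with hn
    set Q : MvPolynomial (Fin 3) k := ∑ i ∈ Finset.range (n + 1),
      C (P.coeff i) * X 0 ^ i * X 1 ^ (n - i) with hQ
    have hQ0 : aeval u Q = 0 := by
      have h2 : aeval u Q = u 1 ^ n * Polynomial.aeval (u 0 / u 1) P := by
        rw [hQ, map_sum, Polynomial.aeval_eq_sum_range, Finset.mul_sum]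
        refine Finset.sum_congr rfl fun i hi => ?_
        have hi' : i ≤ n := Nat.lt_succ_iff.1 (Finset.mem_range.1 hi)
        rw [map_mul, map_mul, map_pow, map_pow, aeval_X, aeval_X, algHom_C, Algebra.smul_def,
          div_pow]
        have h3 : u 1 ^ n = u 1 ^ i * u 1 ^ (n - i) := by
          rw [← pow_add]; congr 1; omega
        rw [h3]
        have := hu0 1
        field_simp
      rw [h2, hP, mul_zero]
    have hQ1 : Q = 0 := by
      have h2 := hind
      rw [algebraicIndependent_iff] at h2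
      exact h2 Q hQ0
    apply hP0
    have h3 := congrArg (aeval (![Polynomial.X, 1, 0] : Fin 3 → Polynomial k)) hQ1
    rw [map_zero, hQ, map_sum] at h3
    rw [P.as_sum_range_C_mul_X_pow, ← h3]
    refine Finset.sum_congr rfl fun i _ => ?_
    rw [map_mul, map_mul, map_pow, map_pow, aeval_X, aeval_X, algHom_C]
    simp

end Pool.Agent.H58.SF
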