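import Pool.Agent.H58.SF.LFT

/-!
# Row EQS of the board `sfc_modules`: the equation for the curve, in the local ring
-/

set_option autoImplicit false

namespace Pool.Agent.H58.SF

open MvPolynomial SC
open Pool.Agent.H27.LV (ge deg poleOrder canDeg)
open Pool.Agent.H92.OD (HS cf sg uu Lat geO IsO DF DD)
open Pool.Agent.H84.SM (y1 y2 Near cr dt dp)
open Pool.Agent.H3.SF (Itg Bb BB Hm eu grd hes Sfc Crd Cnn Crf Prm nv)
open Pool.Agent.H84.SF

theorem pf_EQS (hHMF : T_HMF) (hCRS : T_CRS) : T_EQS := by
  classical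
  intro k F σ K _ _ _ _ _ _ X u dd J j0 hY s hs L0 hL0 hL0s m G α A b hC p A1 b1 hL φ x z
    hφx hφz hz0 hJx ε v y hy D B hB hE
  have hK : CharZero K := charZero_of_injective_algebraMap (algebraMap k K).injective
  have hla : aeval X L0 ≠ 0 := cone_ne hs hL0s
  choose U hU hUu using hY.ulin
  obtain ⟨hJA1, hJA2⟩ := JA_form (X := X) hY.Jh hC.hA hU hUu
  choose f hf1 hf2 using coeff_form hHMF hY hC
  have hLp : (L0 ^ (α + j0)).IsHomogeneous (α + j0) := by
    have := hL0.pow (α + j0)
    rwa [one_mul] at this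
  -- values of `k[X]` at the curve
  let ax : MvPolynomial σ k →ₐ[k] Bb k u := aeval (fun i => (⟨X i, hY.Xint i⟩ : Bb k u))
  have hax : ∀ g, ((ax g : Bb k u) : F) = aeval X g := by
    intro g
    have h1 : (Bb k u).val.comp ax = aeval X := by
      apply algHom_ext
      intro i
      simp [ax]
    exact congrArg (fun ψ : MvPolynomial σ k →ₐ[k] F => ψ g) h1
  have hφax : ∀ g, φ (ax g) = aeval z g := by
    intro g
    have h1 : φ.comp ax = aeval z := by
      apply algHom_ext
      intro i
      rw [AlgHom.comp_apply, aeval_X, aeval_X]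
      exact hφz i _ rfl
    exact congrArg (fun ψ : MvPolynomial σ k →ₐ[k] K => ψ g) h1
  have hUz : ∀ l, aeval z (U l) = x l := by
    intro l
    rw [← hφax]
    apply hφx l
    rw [hax, hUu]
  -- the values of `J (u)`
  have hφJ : ∀ c : Bb k u, (c : F) = aeval u J → φ c = aeval x J := by
    intro c hc
    have h1 : c = ax (aeval U J) := by
      apply Subtype.ext
      rw [hax, hc, ← AlgHom.comp_apply, comp_aeval]
      congr 2
      exact (funext hUu).symm
    rw [h1, hφax, ← AlgHom.comp_apply, comp_aeval]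
    congr 2
    exact funext hUz
  set la : K := aeval z L0 with hlad
  -- (1)
  have h1 : ∀ l, y (p l) * la = x l := by
    intro l
    rw [← hUz l]
    exact hy.val (p l) 1 (U l) L0 ⟨hU l, hL0, by rw [hUu]; exact hL.hp l⟩
  -- (2)
  have h2 : y A1 * la ^ (α + j0) = aeval x J * aeval x A := by
    have h3 := hy.val A1 (α + j0) (aeval U (J * A)) (L0 ^ (α + j0))
      ⟨hJA1, hLp, by rw [map_pow, hJA2]; exact hL.hA⟩
    rw [map_pow, ← AlgHom.comp_apply, comp_aeval, funext hUz, map_mul] at h3
    exact h3
  -- (3)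
  have h3 : ∀ a, y (b1.coeff a) * la ^ (α + j0) = aeval x J * B.coeff a := by
    intro a
    have h4 := hy.val (b1.coeff a) (α + j0) (f a) (L0 ^ (α + j0))
      ⟨hf1 a, hLp, by rw [map_pow, hf2]; exact hL.hb a⟩
    rw [map_pow] at h4
    have hc : Itg k u (aeval u J) := itg_aeval J
    have h5 : ax (f a) = (⟨aeval u J, hc⟩ : Bb k u) * ⟨b.coeff a, hC.itg a⟩ := by
      apply Subtype.ext
      rw [hax, hf2]
      rfl
    rw [h4, ← hφax, h5, map_mul, hφJ _ rfl, hB a _ rfl]
  set c : K := aeval x J / la ^ (α + j0) with hc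
  have hlp : la ^ (α + j0) ≠ 0 := pow_ne_zero _ hz0
  have hA' : y A1 = c * aeval x A := by
    rw [hc, div_mul_eq_mul_div, eq_div_iff hlp, h2]
  set b' : MvPolynomial (Fin 3) K := MvPolynomial.map (y : Os X s →+* K) b1 with hb'
  have hbB : b' = C c * B := by
    ext a
    rw [coeff_C_mul, hb', coeff_map, hc, div_mul_eq_mul_div, eq_div_iff hlp]
    exact h3 a
  -- the relation
  have hrel : ∑ i, C (y (p i)) * pderiv i b' = 0 := by
    set R : MvPolynomial (Fin 3) (Os X s) := ∑ i, C (p i) * pderiv i b1 with hR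
    have hR0 : R = 0 := by
      have hinj : Function.Injective (MvPolynomial.map (σ := Fin 3)
          ((Os X s).val : Os X s →+* F)) := map_injective _ Subtype.val_injective
      apply hinj
      rw [map_zero, hR, map_sum]
      have hb2 : MvPolynomial.map ((Os X s).val : Os X s →+* F) b1 =
          C (aeval u J / aeval X L0 ^ (α + j0)) * b := by
        ext a
        rw [coeff_C_mul, coeff_map, div_mul_eq_mul_div, eq_div_iff (pow_ne_zero _ hla)]
        exact hL.hb a
      have h4 : ∀ i, MvPolynomial.map ((Os X s).val : Os X s →+* F) (C (p i) * pderiv i b1) =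
          C (aeval u J / aeval X L0 ^ (α + j0) / aeval X L0) * (C (u i) * pderiv i b) := by
        intro i
        have h5 : ((p i : Os X s) : F) = u i / aeval X L0 := by
          rw [eq_div_iff hla]; exact hL.hp i
        have h6 : MvPolynomial.map ((Os X s).val : Os X s →+* F)
            (C (p i) : MvPolynomial (Fin 3) (Os X s)) = C (u i / aeval X L0) := by
          rw [map_C, ← h5]; rfl
        rw [map_mul, ← pderiv_map, hb2, pderiv_C_mul, h6, ← mul_assoc, ← mul_assoc, ← C_mul,
          ← C_mul]
        congr 2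
        field_simp
      rw [Finset.sum_congr rfl fun i _ => h4 i, ← Finset.mul_sum, hC.inv, mul_zero]
    have h4 := congrArg (MvPolynomial.map (y : Os X s →+* K)) hR0
    rw [map_zero, hR, map_sum] at h4
    rw [← h4]
    refine Finset.sum_congr rfl fun i _ => ?_
    rw [map_mul, ← pderiv_map, map_C, hb']
    rfl
  have hb'h : b'.IsHomogeneous 3 := by
    rw [hb']
    exact hL.hh.map _
  have h5 := hCRS k K D la (y A1) (fun i => y (p i)) b' hz0 hb'h hrel
  have h6 : (fun i => la * y (p i)) = x := by
    funext i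
    rw [mul_comm]
    exact h1 i
  have h7 : ∀ i, la * y (p i) = x i := fun i => congrFun h6 i
  simp only [h7] at h5
  have h8 : y A1 * dt x (fun i => D (x i)) (fun i => D (D (x i))) +
      eval (fun i => D (x i)) b' = 0 := by
    unfold EqC at hE
    rw [hA', hbB, map_mul, eval_C, mul_assoc, ← mul_add, hE, mul_zero]
  have h9 : la ^ 3 * (y A1 * dt (fun i => y (p i)) (fun i => D (y (p i)))
      (fun i => D (D (y (p i)))) + eval (fun i => D (y (p i))) b') = 0 := by
    rw [← h5]
    exact h8
  have h10 := (mul_eq_zero.1 h9).resolve_left (pow_ne_zero 3 hz0)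
  rw [hb', eval_map] at h10
  exact h10

end Pool.Agent.H58.SF
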