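import Pool.Agent.H84.SF.Geo2
import Pool.Agent.H62.HIL.Dim2

/-!
# Row LFT of the board `sfc_modules`: the equation in the local ring
-/

set_option autoImplicit false

namespace Pool.Agent.H58.SF

open MvPolynomial SC
open Pool.Agent.H27.LV (ge deg poleOrder canDeg)
open Pool.Agent.H92.OD (HS cf sg uu Lat geO IsO DF DD)
open Pool.Agent.H84.SM (y1 y2 Near cr dt dp)
open Pool.Agent.H3.SF (Itg Bb BB Hm eu grd hes Sfc Crd Cnn Crf Prm nv)
open Pool.Agent.H84.SF

section Common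

variable {k F : Type} [Field k] [Field F] [Algebra k F]

theorem hm_u {u : Fin 3 → F} {dd : Fin 3 → Derivation k F F}
    (hdu : ∀ l j, dd l (u j) = if l = j then 1 else 0) (i : Fin 3) : Hm k (eu u dd) 1 (u i) := by
  unfold Hm eu
  rw [Int.cast_one, one_mul]
  have h : ((∑ l, u l • dd l : Derivation k F F)) (u i) = ∑ l, u l * dd l (u i) := by
    rw [Fin.sum_univ_three, Fin.sum_univ_three]
    rfl
  rw [h]
  simp only [hdu, mul_ite, mul_one, mul_zero]
  rw [Finset.sum_ite_eq' Finset.univ i u, if_pos (Finset.mem_univ i)]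

theorem itg_aeval {u : Fin 3 → F} (f : MvPolynomial (Fin 3) k) : Itg k u (aeval u f) := by
  have h := ((aeval u : MvPolynomial (Fin 3) k →ₐ[k] F) :
    MvPolynomial (Fin 3) k →+* F).isIntegralElem_map (x := f)
  exact h

end Common

section

variable {k F σ : Type} [Field k] [Field F] [Algebra k F]

theorem cone_ne {X : σ → F} {s : σ → k} (hs : Cone X s) {L0 : MvPolynomial σ k}
    (h0 : eval s L0 ≠ 0) : aeval X L0 ≠ 0 := fun h => h0 (hs.pt L0 h)

/-- the forms of the coefficients -/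
theorem coeff_form [CharZero k] (hHMF : T_HMF) {X : σ → F} {u : Fin 3 → F} {dd : Fin 3 → Derivation k F F}
    {J : MvPolynomial (Fin 3) k} {j0 : ℕ} (hY : SYd X u dd J j0) {m : ℕ} {G : F} {α : ℕ}
    {A : MvPolynomial (Fin 3) k} {b : MvPolynomial (Fin 3) F} (hC : Cnn u dd J m G α A b)
    (a : Fin 3 →₀ ℕ) : ∃ f : MvPolynomial σ k, f.IsHomogeneous (α + j0) ∧
      aeval X f = aeval u J * b.coeff a := by
  refine hHMF k F σ X u dd J j0 hY _ (α + j0) (hY.JI _ (hC.itg a)) ?_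
  have h1 := Pool.Agent.H62.HIL.hm_aeval (κ := k) (E := eu u dd) (hm_u hY.ddu) hY.Jh
  have h2 := Pool.Agent.H62.HIL.hm_mul h1 (hC.hm a)
  have h3 : (j0 : ℤ) + (α : ℤ) = ((α + j0 : ℕ) : ℤ) := by push_cast; ring
  rwa [h3] at h2

/-- the form of `J A` -/
theorem JA_form {X : σ → F} {u : Fin 3 → F} {J A : MvPolynomial (Fin 3) k} {j0 α : ℕ}
    (hJ : J.IsHomogeneous j0) (hA : A.IsHomogeneous α) {U : Fin 3 → MvPolynomial σ k}
    (hU : ∀ l, (U l).IsHomogeneous 1) (hUu : ∀ l, aeval X (U l) = u l) :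
    (aeval U (J * A)).IsHomogeneous (α + j0) ∧
      aeval X (aeval U (J * A)) = aeval u J * aeval u A := by
  constructor
  · have h1 := (hJ.mul hA).aeval U hU
    have h2 : 1 * (j0 + α) = α + j0 := by ring
    rwa [h2] at h1
  · have h1 : aeval X (aeval U (J * A)) = aeval (fun l => aeval X (U l)) (J * A) := by
      rw [← AlgHom.comp_apply, comp_aeval]
    rw [h1]
    have h2 : (fun l => aeval X (U l)) = u := funext hUu
    rw [h2, map_mul]

end

theorem pf_LFT (hHMF : T_HMF) : T_LFT := by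
  classical
  intro k F σ _ _ _ _ X u dd J j0 hY s hs L0 hL0 hL0s m G α A b hC
  have hla : aeval X L0 ≠ 0 := cone_ne hs hL0s
  choose U hU hUu using hY.ulin
  obtain ⟨hJA1, hJA2⟩ := JA_form (X := X) hY.Jh hC.hA hU hUu
  have hLp : (L0 ^ (α + j0)).IsHomogeneous (α + j0) := by
    have := hL0.pow (α + j0)
    rwa [one_mul] at this
  have hLps : eval s (L0 ^ (α + j0)) ≠ 0 := by
    rw [map_pow]; exact pow_ne_zero _ hL0s
  choose f hf1 hf2 using coeff_form hHMF hY hC
  let elt : (Fin 3 →₀ ℕ) → Os X s := fun a =>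
    ⟨aeval X (f a) / aeval X L0 ^ (α + j0), α + j0, f a, L0 ^ (α + j0),
      ⟨hf1 a, hLp, by rw [map_pow, div_mul_cancel₀ _ (pow_ne_zero _ hla)]⟩, hLps⟩
  refine ⟨fun l => ⟨u l / aeval X L0, 1, U l, L0,
      ⟨hU l, hL0, by rw [div_mul_cancel₀ _ hla, hUu]⟩, hL0s⟩,
    ⟨aeval X (aeval U (J * A)) / aeval X L0 ^ (α + j0), α + j0, aeval U (J * A), L0 ^ (α + j0),
      ⟨hJA1, hLp, by rw [map_pow, div_mul_cancel₀ _ (pow_ne_zero _ hla)]⟩, hLps⟩,
    ∑ a ∈ b.support, monomial a (elt a), ?_, ?_, ?_, ?_⟩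
  · intro l
    show u l / aeval X L0 * aeval X L0 = u l
    rw [div_mul_cancel₀ _ hla]
  · show aeval X (aeval U (J * A)) / aeval X L0 ^ (α + j0) * aeval X L0 ^ (α + j0) = _
    rw [div_mul_cancel₀ _ (pow_ne_zero _ hla), hJA2]
  · refine IsHomogeneous.sum _ _ _ fun a ha => isHomogeneous_monomial _ ?_
    have h1 := hC.hb (mem_support_iff.1 ha)
    rw [Finsupp.degree_eq_weight_one]
    exact h1
  · intro a
    rw [coeff_sum]
    simp only [coeff_monomial]
    rw [Finset.sum_ite_eq' b.support a elt]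
    split_ifs with ha
    · show aeval X (f a) / aeval X L0 ^ (α + j0) * aeval X L0 ^ (α + j0) = _
      rw [div_mul_cancel₀ _ (pow_ne_zero _ hla), hf2]
    · rw [notMem_support_iff.1 ha]
      simp

end Pool.Agent.H58.SF
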