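import Pool.Agent.H58.SF.Fin
import Pool.Agent.H58.SF.PW

/-!
# Pseudo-Olšák polymorphisms modulo a group of automorphisms
-/

namespace Pool.Agent.H58.SF

open Pool.Agent.H68.BP Filter

/-- The group `G` has finitely many orbits on `n`-tuples for every `n`. -/
def OligoGroup {A : Type} (G : Subgroup (Equiv.Perm A)) : Prop :=
  ∀ n : ℕ, ∃ R : Finset (Fin n → A), ∀ x : Fin n → A, ∃ y ∈ R, ∃ g ∈ G, ∀ i, g (y i) = x i

/-- On every finite set the map `α` agrees with an element of `G`. -/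
def LocallyIn {A : Type} (G : Subgroup (Equiv.Perm A)) (α : A → A) : Prop :=
  ∀ X : Finset A, ∃ g ∈ G, ∀ x ∈ X, α x = g x

variable {σ : Sig} {A : Type} {𝔸 : Str σ A} {G : Subgroup (Equiv.Perm A)}

theorem inv_app {X : Type} (g : Equiv.Perm X) (x : X) : g⁻¹ (g x) = x :=
  Equiv.symm_apply_apply g x

/-! ### Limits -/

theorem oligoG_fin (hO : OligoGroup G) (K : Type) [Finite K] :
    ∃ R : Finset (K → A), ∀ x : K → A, ∃ y ∈ R, ∃ g ∈ G, ∀ i, g (y i) = x i := by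
  classical
  have := Fintype.ofFinite K
  let e := Fintype.equivFin K
  obtain ⟨R, hR⟩ := hO (Fintype.card K)
  refine ⟨R.image (fun y i => y (e i)), fun x => ?_⟩
  obtain ⟨y, hy, g, hg, hgy⟩ := hR (fun i => x (e.symm i))
  refine ⟨fun i => y (e i), Finset.mem_image_of_mem _ hy, g, hg, fun i => ?_⟩
  rw [hgy, Equiv.symm_apply_apply]

/-- `H` is on `X` almost always an image under the group -/
def AlmG (G : Subgroup (Equiv.Perm A)) {E : Type} (h : ℕ → E → A) (X : Finset E) (H : E → A) :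
    Prop :=
  ∀ᶠ m in (hyperfilter ℕ : Filter ℕ), ∃ g ∈ G, ∀ x ∈ X, H x = g (h m x)

theorem almG_exists (hO : OligoGroup G) {E : Type} (h : ℕ → E → A) (X : Finset E) :
    ∃ H : E → A, AlmG G h X H := by
  classical
  obtain ⟨R, hR⟩ := oligoG_fin hO X
  have h1 : (⋃ y ∈ (R : Set (X → A)), {m : ℕ | ∃ g ∈ G,
      ∀ x : X, y x = g (h m x)}) ∈ hyperfilter ℕ := by
    have h2 : (⋃ y ∈ (R : Set (X → A)), {m : ℕ | ∃ g ∈ G,
        ∀ x : X, y x = g (h m x)}) = Set.univ := by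
      rw [Set.eq_univ_iff_forall]
      intro m
      obtain ⟨y, hy, g, hg, hgy⟩ := hR (fun x => h m x)
      simp only [Set.mem_iUnion]
      refine ⟨y, hy, g⁻¹, inv_mem hg, fun x => ?_⟩
      rw [← hgy x, inv_app]
    rw [h2]
    exact Filter.univ_mem
  obtain ⟨y, -, hy⟩ := (Ultrafilter.finite_biUnion_mem_iff R.finite_toSet).1 h1
  refine ⟨fun x => if hx : x ∈ X then y ⟨x, hx⟩ else h 0 x, ?_⟩
  have hy' : ∀ᶠ m in (hyperfilter ℕ : Filter ℕ), ∃ g ∈ G, ∀ x : X, y x = g (h m x) := hy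
  refine hy'.mono ?_
  rintro m ⟨g, hg, hgm⟩
  refine ⟨g, hg, fun x hx => ?_⟩
  exact (dif_pos hx).trans (hgm ⟨x, hx⟩)

theorem almG_ext (hO : OligoGroup G) {E : Type} (h : ℕ → E → A) (X Y : Finset E) (hXY : X ⊆ Y)
    (H : E → A) (hH : AlmG G h X H) :
    ∃ H' : E → A, AlmG G h Y H' ∧ ∀ x ∈ X, H' x = H x := by
  obtain ⟨H₁, h1⟩ := almG_exists hO h Y
  obtain ⟨m, ⟨g, hg, hgm⟩, g₁, hg₁, hgm₁⟩ := (hH.and h1).exists
  refine ⟨fun x => g (g₁⁻¹ (H₁ x)), ?_, fun x hx => ?_⟩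
  · refine h1.mono ?_
    rintro k ⟨g₂, hg₂, hk⟩
    refine ⟨g * (g₁⁻¹ * g₂), mul_mem hg (mul_mem (inv_mem hg₁) hg₂), fun x hx => ?_⟩
    change g (g₁⁻¹ (H₁ x)) = _
    rw [hk x hx]
    rfl
  · change g (g₁⁻¹ (H₁ x)) = _
    rw [hgm₁ x (hXY hx), inv_app, hgm x hx]

theorem limG (hO : OligoGroup G) (E : Type) [Countable E] (h : ℕ → E → A) :
    ∃ H : E → A, ∀ (X : Finset E) (n : ℕ), ∃ m, n ≤ m ∧ ∃ g ∈ G, ∀ x ∈ X, H x = g (h m x) := by
  classical
  obtain ⟨ν, hν⟩ := exists_injective_nat E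
  have hX : ∀ n : ℕ, ∃ X : Finset E, ∀ a, a ∈ X ↔ ν a < n := by
    intro n
    have hfin : {a : E | ν a < n}.Finite :=
      Set.Finite.of_finite_image ((Set.finite_Iio n).subset (by
        rintro m ⟨a, ha, rfl⟩
        exact ha)) hν.injOn
    exact ⟨hfin.toFinset, fun a => by simp⟩
  choose X hX using hX
  have hmono : ∀ m n, m ≤ n → X m ⊆ X n := by
    intro m n hmn a ha
    rw [hX] at ha ⊢
    omega
  have h0 : AlmG G h (X 0) (h 0) := by
    refine Filter.Eventually.of_forall fun m => ⟨1, one_mem G, ?_⟩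
    intro x hx
    rw [hX] at hx
    omega
  have key : ∀ (m : ℕ) (H : {H : E → A // AlmG G h (X m) H}),
      ∃ H' : {H' : E → A // AlmG G h (X (m + 1)) H'}, ∀ x ∈ X m, H'.1 x = H.1 x := by
    intro m H
    obtain ⟨H', h1, h2⟩ := almG_ext hO h (X m) (X (m + 1)) (hmono m (m + 1) (by omega)) H.1 H.2
    exact ⟨⟨H', h1⟩, h2⟩
  choose nx hnx using key
  let S : (m : ℕ) → {H : E → A // AlmG G h (X m) H} := fun m =>
    Nat.rec (motive := fun m => {H : E → A // AlmG G h (X m) H}) ⟨h 0, h0⟩ nx m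
  have hS : ∀ m, ∀ x ∈ X m, (S (m + 1)).1 x = (S m).1 x := fun m x hx => hnx m (S m) x hx
  have hS' : ∀ m n, m ≤ n → ∀ x ∈ X m, (S n).1 x = (S m).1 x := by
    intro m n hmn x hx
    induction n, hmn using Nat.le_induction with
    | base => rfl
    | succ n hn ih => rw [hS n x (hmono m n hn hx), ih]
  have hH : ∀ n, ∀ x ∈ X n, (S (ν x + 1)).1 x = (S n).1 x := by
    intro n x hx
    have h1 : x ∈ X (ν x + 1) := by
      rw [hX]
      omega
    have h2 : ν x + 1 ≤ n := by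
      rw [hX] at hx
      omega
    exact (hS' _ n h2 x h1).symm
  refine ⟨fun x => (S (ν x + 1)).1 x, fun Y n => ?_⟩
  obtain ⟨r, hr⟩ : ∃ r, Y ⊆ X r := by
    refine ⟨Y.sup ν + 1, fun x hx => ?_⟩
    rw [hX]
    exact Nat.lt_succ_of_le (Finset.le_sup (f := ν) hx)
  have h1 : ∀ᶠ m in (hyperfilter ℕ : Filter ℕ), n ≤ m := by
    have h2 : (hyperfilter ℕ : Filter ℕ) ≤ Filter.cofinite := hyperfilter_le_cofinite
    rw [Nat.cofinite_eq_atTop] at h2
    exact h2 (Filter.eventually_ge_atTop n)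
  obtain ⟨m, hm1, g, hg, hgm⟩ := (h1.and (S r).2).exists
  refine ⟨m, hm1, g, hg, fun x hx => ?_⟩
  exact (hH r x (hr hx)).trans (hgm x (hr hx))

/-! ### The local statement -/

/-- the three patterns -/
def pat {X : Type} (j : Fin 3) (x y : X) : Fin 6 → X :=
  ![![x, x, y, y, y, x], ![x, y, x, y, x, y], ![y, x, x, x, y, y]] j

theorem pat_apply {X : Type} (j : Fin 3) (x y : X) (i : Fin 6) :
    pat j x y i = ![![x, x, y, y, y, x], ![x, y, x, y, x, y], ![y, x, x, x, y, y]] j i := rfl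

theorem pat_map {X Y : Type} (φ : X → Y) (j : Fin 3) (x y : X) (i : Fin 6) :
    φ (pat j x y i) = pat j (φ x) (φ y) i := by
  simp only [pat]
  fin_cases j <;> fin_cases i <;> rfl

/-- the orbit relation on tuples -/
def orbSetoid (G : Subgroup (Equiv.Perm A)) (V : Type) : Setoid (V → A) where
  r x y := ∃ g ∈ G, ∀ i, g (x i) = y i
  iseqv := {
    refl := fun x => ⟨1, one_mem G, fun i => rfl⟩
    symm := by
      rintro x y ⟨g, hg, h⟩
      refine ⟨g⁻¹, inv_mem hg, fun i => ?_⟩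
      rw [← h, inv_app]
    trans := by
      rintro x y z ⟨g, hg, h⟩ ⟨g', hg', h'⟩
      refine ⟨g' * g, mul_mem hg' hg, fun i => ?_⟩
      rw [← h', ← h]
      rfl }

theorem orb_finite (hO : OligoGroup G) (V : Type) [Finite V] :
    Finite (Quotient (orbSetoid G V)) := by
  obtain ⟨R, hR⟩ := oligoG_fin hO V
  refine Finite.of_surjective (fun y : R => Quotient.mk (orbSetoid G V) y.1) ?_
  intro q
  obtain ⟨x, rfl⟩ := Quotient.exists_rep q
  obtain ⟨y, hy, g, hg, hgy⟩ := hR x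
  exact ⟨⟨y, hy⟩, Quotient.sound ⟨g, hg, hgy⟩⟩

theorem local_olsak (hOS : T_OS) (hPO : T_PO) (hA : Countable A)
    (hG : ∀ g ∈ G, IsAut 𝔸 g) (hO : OligoGroup G) (hK : ¬ PPConstructsK3 𝔸) (F : Finset A)
    (hF : F.Nonempty) :
    ∃ f : (Fin 6 → A) → A, PartPoly 𝔸 F f ∧ ∃ g : Fin 3 → Equiv.Perm A, (∀ j, g j ∈ G) ∧
      ∀ j, ∀ x ∈ F, ∀ y ∈ F, f (pat 0 x y) = g j (f (pat j x y)) := by
  classical
  have hol : Oligo 𝔸 := by
    intro n
    obtain ⟨R, hR⟩ := hO n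
    refine ⟨R, fun x => ?_⟩
    obtain ⟨y, hy, g, hg, hgy⟩ := hR x
    exact ⟨y, hy, g, hG g hg, hgy⟩
  let N := Fin 6 → F
  obtain ⟨a₀, ha₀⟩ := hF
  let n := Fintype.card N
  let e : N ≃ Fin n := Fintype.equivFin N
  have hn : 1 ≤ n := Fintype.card_pos_iff.2 ⟨fun _ => ⟨a₀, ha₀⟩⟩
  -- the structure
  let R : Fin 3 → (Fin n → A) → (Fin n → A) → Prop := fun j w z =>
    ∃ h : (Fin 6 → A) → A, PartPoly 𝔸 F h ∧
      (∀ u : Fin n, h (fun i => (e.symm u i : A)) = w u) ∧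
      ∀ u : Fin n, h (pat j (e.symm u 0 : A) (e.symm u 2 : A)) = z u
  let ℙ : Str ⟨3, fun _ => 2⟩ (Fin n → A) := fun j (v : Fin 2 → Fin n → A) => R j (v 0) (v 1)
  have hP : PPPower 𝔸 n ℙ := by
    intro j
    have h1 := pf_PW σ A 𝔸 F (Fin 6) (Fin n) (fun u i => (e.symm u i : A))
      (fun u => pat j (e.symm u 0 : A) (e.symm u 2 : A)) (fun u i => (e.symm u i).2) (by
        intro u i
        have h2 := pat_map (fun x : F => (x : A)) j (e.symm u 0) (e.symm u 2) i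
        rw [← h2]
        exact Subtype.coe_prop _)
    have h2 := ppDefinable_comap (𝔸 := 𝔸)
      (Sum.elim (fun u => ((0 : Fin 2), u)) (fun u => ((1 : Fin 2), u)) :
        Fin n ⊕ Fin n → Fin 2 × Fin n) h1
    exact h2
  let p : Fin 6 → Fin n → A := fun i u => (e.symm u i : A)
  let 𝕊 : Str ⟨3, fun _ => 2⟩ (Fin 6) := fun j (v : Fin 2 → Fin 6) => ℙ j (fun k => p (v k))
  let T := Quotient (orbSetoid G (Fin n))
  let 𝕋 : Str ⟨3, fun _ => 2⟩ T := fun j (v : Fin 2 → T) =>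
    ∃ w : Fin 2 → Fin n → A, ℙ j w ∧ ∀ k, Quotient.mk (orbSetoid G (Fin n)) (w k) = v k
  have hT : Finite T := orb_finite hO (Fin n)
  have hs : ∃ s, IsHom 𝕊 ℙ s := ⟨p, fun j v hv => hv⟩
  have hr : ∃ r, IsHom ℙ 𝕋 r :=
    ⟨fun w => Quotient.mk (orbSetoid G (Fin n)) w, fun j v hv => ⟨v, hv, fun k => rfl⟩⟩
  have hol' : HasOlsak 𝕊 𝕋 := by
    by_contra h
    exact hK (criterionP hOS hPO hA hol hn hP (inferInstanceAs (Finite (Fin 6))) hs hr
      (Or.inr (Or.inr ⟨hT, h⟩)))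
  obtain ⟨o, ho, hid⟩ := hol'
  have hrel : ∀ j : Fin 3, ∃ w z : Fin n → A, R j w z ∧
      Quotient.mk (orbSetoid G (Fin n)) w = o (fun i => i) ∧
      Quotient.mk (orbSetoid G (Fin n)) z = o (pat j 0 2) := by
    intro j
    obtain ⟨w, hw, hwk⟩ := ho j (fun i => ![i, pat j 0 2 i]) (by
      intro i
      refine ⟨fun z => z i, ?_, fun u => rfl, fun u => ?_⟩
      · intro l x hx hxl
        exact hxl i
      · have h2 := pat_map (fun k : Fin 6 => p k u) j 0 2 i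
        exact h2.symm)
    exact ⟨w 0, w 1, hw, hwk 0, hwk 1⟩
  choose w z hR hw hz using hrel
  choose h hh hhw hhz using hR
  have hz' : ∀ j, Quotient.mk (orbSetoid G (Fin n)) (z j) =
      Quotient.mk (orbSetoid G (Fin n)) (z 0) := by
    intro j
    rw [hz, hz]
    have h1 := hid 0 2
    fin_cases j
    · rfl
    · exact h1.1.symm
    · exact (h1.1.trans h1.2).symm
  have hw' : ∀ j, Quotient.mk (orbSetoid G (Fin n)) (w 0) =
      Quotient.mk (orbSetoid G (Fin n)) (w j) := by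
    intro j
    rw [hw, hw]
  have hgz : ∀ j, ∃ g ∈ G, ∀ u, g (z j u) = z 0 u := fun j => Quotient.exact (hz' j)
  have hgw : ∀ j, ∃ g ∈ G, ∀ u, g (w 0 u) = w j u := fun j => Quotient.exact (hw' j)
  choose gz hgz hgz' using hgz
  choose gw hgw hgw' using hgw
  refine ⟨h 0, hh 0, fun j => gz j * gw j, fun j => mul_mem (hgz j) (hgw j), ?_⟩
  intro j x hx y hy
  -- an index with the given entries
  let u₀ : N := fun i => if i = 0 then ⟨x, hx⟩ else ⟨y, hy⟩
  have h1 : h 0 (pat 0 x y) = z 0 (e u₀) := by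
    have h2 := hhz 0 (e u₀)
    rw [Equiv.symm_apply_apply] at h2
    exact h2
  have h2 : h j (pat j x y) = z j (e u₀) := by
    have h3 := hhz j (e u₀)
    rw [Equiv.symm_apply_apply] at h3
    exact h3
  have h3 : ∀ v : N, h j (fun i => (v i : A)) = gw j (h 0 (fun i => (v i : A))) := by
    intro v
    have h4 := hhw j (e v)
    have h5 := hhw 0 (e v)
    rw [Equiv.symm_apply_apply] at h4 h5
    rw [h4, h5, hgw']
  have h4 : pat j x y = fun i => ((pat j (⟨x, hx⟩ : F) ⟨y, hy⟩ i : F) : A) := by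
    funext i
    exact (pat_map (fun x : F => (x : A)) j ⟨x, hx⟩ ⟨y, hy⟩ i).symm
  rw [h1, ← hgz' j, ← h2]
  change _ = gz j (gw j (h 0 (pat j x y)))
  rw [h4, ← h3]

end Pool.Agent.H58.SF
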