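import Pool.Agent.H45.SF.RT

/-! The forcing axiom from the reflected situation. -/

open Ordinal Cardinal Order Set
open scoped ZFSet

namespace SF.H58

open SF

/-- the construction of the filter from the two properties of `I` -/
theorem rc_core {Z C C' : V} [IsCBA Z] [IsCBA C] [IsCBA C'] (k : Mor Z C) (hk : k ⊤ = ⊤)
    (hkm : ∀ x y, x ≤ y → k x ≤ k y) (hkc : ∀ x y, k (x ⊓ y) = k x ⊓ k y) (hk0 : k ⊥ = ⊥)
    (J : El C' → El C) (hJi : ∀ x y, J (x ⊓ y) = J x ⊓ J y) (I : Mor C' Z)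
    (hIm : ∀ x y, x ≤ y → I x ≤ I y) (m : El C')
    (K2 : ∀ x b, J x ⊓ k b = ⊥ → I x ⊓ b = ⊥) (D : Ordinal.{0} → Set (El C))
    (dns : ∀ j < o1, ∃ D' : Set (El C'), sSup D' = ⊤ ∧ ∀ d ∈ D', ∃ e ∈ D j, e = J d) :
    ∃ F : El C → El Z, (∀ c d, F (c ⊓ d) = F c ⊓ F d) ∧ F ⊥ = ⊥ ∧ F ⊤ = I m ∧
      (∀ x, F (k x) = x ⊓ I m) ∧ ∀ j < o1, ⨆ d ∈ D j, F d = I m := by
  set S : El C → Set (El Z) := fun c => {z | ∃ x b, x ≤ m ∧ J x ⊓ k b ≤ c ∧ z = I x ⊓ b} with hS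
  have hmono : ∀ c d, c ≤ d → sSup (S c) ≤ sSup (S d) := by
    intro c d h
    refine sSup_le_sSup ?_
    rintro z ⟨x, b, hx, hb, rfl⟩
    exact ⟨x, b, hx, hb.trans h, rfl⟩
  have hle : ∀ c, sSup (S c) ≤ I m := by
    intro c
    refine sSup_le ?_
    rintro z ⟨x, b, hx, hb, rfl⟩
    exact inf_le_left.trans (hIm _ _ hx)
  have hJm : ∀ x y, x ≤ y → J x ≤ J y := by
    intro x y h
    have h1 := hJi x y
    rw [inf_eq_left.2 h] at h1
    rw [h1]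
    exact inf_le_right
  refine ⟨fun c => sSup (S c), ?_, ?_, ?_, ?_, ?_⟩
  · intro c d
    refine le_antisymm (le_inf (hmono _ _ inf_le_left) (hmono _ _ inf_le_right)) ?_
    show sSup (S c) ⊓ sSup (S d) ≤ sSup (S (c ⊓ d))
    rw [sSup_inf_sSup]
    refine iSup₂_le ?_
    rintro ⟨z, w⟩ ⟨⟨x, b, hx, hb, rfl⟩, ⟨y, b1, hy, hb1, rfl⟩⟩
    refine le_sSup ⟨x ⊓ y, b ⊓ b1, inf_le_left.trans hx, ?_, ?_⟩
    · rw [hJi, hkc]
      refine le_inf (le_trans ?_ hb) (le_trans ?_ hb1)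
      · exact inf_le_inf inf_le_left inf_le_left
      · exact inf_le_inf inf_le_right inf_le_right
    · have h1 : I (x ⊓ y) = I x ⊓ I y := I.inf x y
      rw [h1]
      exact inf_inf_inf_comm _ _ _ _
  · show sSup (S ⊥) = ⊥
    refine le_antisymm (sSup_le ?_) bot_le
    rintro z ⟨x, b, hx, hb, rfl⟩
    exact (K2 x b (le_antisymm hb bot_le)).le
  · show sSup (S ⊤) = I m
    refine le_antisymm (hle _) (le_sSup ⟨m, ⊤, le_rfl, le_top, ?_⟩)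
    rw [inf_top_eq]
  · intro z
    show sSup (S (k z)) = z ⊓ I m
    refine le_antisymm (le_inf (sSup_le ?_) (hle _)) ?_
    · rintro w ⟨x, b, hx, hb, rfl⟩
      have h1 : J x ⊓ k (b ⊓ zᶜ) = ⊥ := by
        rw [hkc, ← inf_assoc]
        refine le_antisymm ?_ bot_le
        calc J x ⊓ k b ⊓ k zᶜ ≤ k z ⊓ k zᶜ := inf_le_inf hb le_rfl
          _ = k (z ⊓ zᶜ) := (hkc _ _).symm
          _ = ⊥ := by rw [inf_compl_eq_bot, hk0]
      have h2 := K2 x _ h1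
      rw [← inf_assoc] at h2
      exact disjoint_compl_right_iff.1 (disjoint_iff.2 h2)
    · refine le_sSup ⟨m, z, le_rfl, inf_le_right, inf_comm _ _⟩
  · intro j hj
    show ⨆ d ∈ D j, sSup (S d) = I m
    refine le_antisymm (iSup₂_le fun d _ => hle d) ?_
    obtain ⟨D', hD', hd⟩ := dns j hj
    have e1 : m = sSup ((fun d => d ⊓ m) '' D') := by
      rw [sSup_image, ← sSup_inf_eq, hD', top_inf_eq]
    have e2 : I m = sSup (I '' ((fun d => d ⊓ m) '' D')) := by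
      conv_lhs => rw [e1]
      exact I.sup _
    rw [e2]
    refine sSup_le ?_
    rintro _ ⟨_, ⟨d, hdD, rfl⟩, rfl⟩
    obtain ⟨e, heD, rfl⟩ := hd d hdD
    refine le_trans ?_ (le_iSup₂ (f := fun d (_ : d ∈ D j) => sSup (S d)) (J d) heD)
    refine le_sSup ⟨d ⊓ m, ⊤, inf_le_right, ?_, ?_⟩
    · exact inf_le_left.trans (hJm _ _ inf_le_left)
    · exact (inf_top_eq _).symm

theorem rc (hRB : T_RB) (hUC : T_UC) (hUV : T_UV) (hMB : T_MB) (hMP : T_MP) : T_RC := by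
  intro κ κ' Z C i k D Z' C' i' k' J hI hCU hkt hR u hu hup
  obtain ⟨u1, -, u3, -, u5, -, -, -, -⟩ := hUC κ Z i hI hCU
  obtain ⟨-, -, -, -, v5, v6, v7, -, -⟩ := hUC κ' Z' i' hR.inac hR.cu
  obtain ⟨-, -, -, -, -, -, -, -, -, w10, -, -⟩ := hUV κ hI
  have hsub : ∀ x ∈ V_ κ', x ∈ V_ κ := fun x hx => ZFSet.vonNeumann_subset_of_le hR.lt.le hx
  obtain ⟨km, k0, -, -, -, -, -⟩ := hMB Z.B C.B k.toMor
  obtain ⟨k'm, k'0, -, -, -, k's, -⟩ := hMB Z'.B C'.B k'.toMor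
  obtain ⟨-, -, -, p4, p5, -, -, p8⟩ := hMP Z.B C.B k.toMor
  obtain ⟨-, q2, -⟩ := hMP Z'.B C'.B k'.toMor
  -- the maps
  set JZ : El Z'.B → El Z.B := fun x => ⟨J x.val, (hR.jZ x).1⟩ with hJZ
  set JC : El C'.B → El C.B := fun x => ⟨J x.val, hR.jC x⟩ with hJC
  have hJCb : JC ⊥ = ⊥ := by
    apply El.ext
    show J (⊥ : El C'.B).val = (⊥ : El C.B).val
    rw [El.bot_val, El.bot_val, hR.bot]
  have hJCi : ∀ x y, JC (x ⊓ y) = JC x ⊓ JC y := by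
    intro x y
    apply El.ext
    show J (x ⊓ y).val = (JC x ⊓ JC y).val
    rw [El.inf_val, El.inf_val, hR.inf]
  have hjk : ∀ x, JC (k' x) = k (JZ x) := fun x => El.ext (hR.jk x (JZ x) rfl)
  have hjp : ∀ x, JZ (k'.toMor.proj x) = k.toMor.proj (JC x) := fun x =>
    El.ext (hR.jp x (JC x) rfl)
  set b0 : El Z.B := i u.v u.x with hb0
  set e0 : El Z'.B := i' u.v u.x with he0
  have huκ : u.code ∈ V_ κ := hsub _ hu
  have hb0J : b0 ≤ JZ e0 := by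
    refine (u5 (JZ e0) u huκ).1 ?_
    exact (hR.jZ e0).2 ((v5 e0 u hu).2 le_rfl)
  have hb0n : b0 ≠ ⊥ := by
    intro h
    exact u.ne (u3 u.v ((w10 u).1 huκ) u.x h)
  have hmn : k' e0 ≠ ⊥ := by
    intro h
    apply hb0n
    have h1 : k (JZ e0) = ⊥ := by rw [← hjk, h, hJCb]
    have h2 : k.toMor b0 = ⊥ := le_antisymm ((km _ _ hb0J).trans h1.le) bot_le
    have h3 := (p8 b0).1 h2
    have h4 : k.toMor ⊤ = ⊤ := hkt
    rw [h4, inf_eq_left.2 hup] at h3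
    exact h3
  obtain ⟨α, bb, g1, g2, g3, hv, hle⟩ := hRB κ κ' Z' C' i' k' hI hR.inac hR.lt hR.cu hR.rank
    hR.good hR.unit
  set v : Obj := Obj.mk C' α bb g1 g2 g3 with hvdef
  set I : Mor C'.B Z.B := (i v).toMor with hIdef
  obtain ⟨Im, I0, -, -, -, Is, -⟩ := hMB C'.B Z.B I
  have hcv : ∀ (x : El C'.B) (hx : x ≠ ⊥), (Cd.mk v x hx).code ∈ V_ κ := fun x hx =>
    (w10 ⟨v, x, hx⟩).2 hv
  have key : ∀ c : Cd, c.code ∈ V_ κ' → I (k' (i' c.v c.x)) ≤ i c.v c.x := by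
    intro c hc
    by_cases h : k' (i' c.v c.x) = ⊥
    · rw [h, I0]
      exact bot_le
    · exact u1 ⟨v, k' (i' c.v c.x), h⟩ c (hcv _ _) (hsub _ hc) (hle c hc h)
  -- K1
  have K1 : ∀ e : El Z'.B, I (k' e) ≤ JZ e := by
    intro e
    have h1 : e ≤ ⨆ c : {c : Cd // c.code ∈ V_ κ' ∧ i' c.v c.x ≤ e}, i' c.1.v c.1.x := by
      refine v7 _ _ fun c hc hce => ?_
      exact le_iSup (fun c : {c : Cd // c.code ∈ V_ κ' ∧ i' c.v c.x ≤ e} => i' c.1.v c.1.x)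
        ⟨c, hc, hce⟩
    refine (Im _ _ (k'm _ _ h1)).trans ?_
    rw [k's, Is]
    refine iSup_le ?_
    rintro ⟨c, hc, hce⟩
    refine (key c hc).trans ?_
    refine (u5 (JZ e) c (hsub _ hc)).1 ?_
    exact (hR.jZ e).2 ((v5 e c hc).2 hce)
  -- K2
  have K2 : ∀ (x : El C'.B) (b : El Z.B), JC x ⊓ k.toMor b = ⊥ → I x ⊓ b = ⊥ := by
    intro x b h
    have ht : JC x ≤ k.toMor ⊤ := by
      have h4 : k.toMor ⊤ = ⊤ := hkt
      rw [h4]
      exact le_top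
    have h1 := p5 (JC x) b ht
    rw [h, (p4 ⊥ bot_le).2 rfl] at h1
    have h2 : x ≤ k'.toMor (k'.toMor.proj x) := by
      refine q2 x ?_
      have h5 : k'.toMor ⊤ = ⊤ := hR.unit
      rw [h5]
      exact le_top
    have h3 : I x ≤ k.toMor.proj (JC x) := by
      rw [← hjp]
      exact (Im _ _ h2).trans (K1 _)
    refine le_antisymm ?_ bot_le
    rw [h1]
    exact inf_le_inf h3 le_rfl
  have hb2 : I (k' e0) ≤ b0 := key u hu
  have hb2n : I (k' e0) ≠ ⊥ := fun h => hmn (u3 v hv _ h)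
  obtain ⟨F, f1, f2, f3, f4, f5⟩ := rc_core k.toMor hkt km (fun x y => k.toMor.inf x y) k0 JC
    hJCi I Im (k' e0) K2 D (by
      intro j hj
      obtain ⟨D', h1, h2⟩ := hR.dns j hj
      refine ⟨D', h1, fun d hd => ?_⟩
      obtain ⟨e, he, hed⟩ := h2 d hd
      exact ⟨e, he, El.ext hed⟩)
  exact ⟨I (k' e0), hb2, hb2n, F, f1, f2, f3, f4, f5⟩

end SF.H58
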