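import Pool.Agent.H45.SF.RT

/-! The forcing axiom holds for the category forcing. -/

open Ordinal Cardinal Order Set
open scoped ZFSet

namespace SF.H58

open SF

theorem rd (hRC : T_RC) (hDN : T_DN) (hUC : T_UC) (hMB : T_MB) (hG1 : T_G1) : T_RD := by
  intro κ Z i hI hR hCU C k hk D hD b hb hb0
  obtain ⟨E, r, i0, -, hr, hi0, hir, hri, hgr, -⟩ := hDN C (k ⊤)
  have hrk : r (k ⊤) = ⊤ := by
    have h1 : i0 (r (k ⊤)) = i0 ⊤ := by
      rw [hir, hi0, inf_idem]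
    rw [← hri (r (k ⊤)), h1, hri]
  set k1 : BMor Z E := k.comp r with hk1
  have hk1x : ∀ x, k1 x = r (k x) := fun x => rfl
  have hk1t : k1 ⊤ = ⊤ := hrk
  have hrm := (hMB C.B E.B r.toMor).1
  have hr0 : r ⊥ = ⊥ := (hMB C.B E.B r.toMor).2.1
  have hproj : k1.toMor.proj ⊤ = k.toMor.proj (k ⊤) := by
    unfold Mor.proj
    congr 1
    ext x
    show ⊤ ≤ r (k x) ↔ k ⊤ ≤ k x
    constructor
    · intro h
      have h1 : i0 (r (k x)) = i0 ⊤ := by rw [top_le_iff.1 h]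
      rw [hir, hi0] at h1
      exact inf_eq_right.1 h1
    · intro h
      rw [← hrk]
      exact hrm _ _ h
  obtain ⟨-, -, -, u4, -⟩ := hUC κ Z i hI hCU
  obtain ⟨u, hu, hub⟩ := u4 b hb0
  have hD1 : ∀ j < o1, sSup (r '' D j) = ⊤ := by
    intro j hj
    rw [← r.sup, hD j hj]
    exact hrk
  obtain ⟨κ', Z', C', i', k', J, hRf, hu'⟩ := hR Z i hCU E k1 (hG1 _ _ _ k r hk hgr) hk1t
    (fun j => r '' D j) hD1 u hu
  obtain ⟨b2, hb2, hb2n, F1, f1, f2, f3, f4, f5⟩ := hRC κ κ' Z E i k1 (fun j => r '' D j) Z' C' i'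
    k' J hI hCU hk1t hRf u hu' (by
      rw [hproj]
      exact hub.trans hb)
  refine ⟨b2, hb2.trans hub, hb2n, fun c => F1 (r c), ?_, ?_, ?_, ?_, ?_, ?_⟩
  · intro c d
    have h1 : r (c ⊓ d) = r c ⊓ r d := r.inf c d
    show F1 (r (c ⊓ d)) = _
    rw [h1, f1]
  · show F1 (r ⊥) = ⊥
    rw [hr0, f2]
  · show F1 (r (k ⊤)) = b2
    rw [hrk, f3]
  · intro c
    show F1 (r c) ≤ b2
    rw [← f3, ← inf_top_eq (r c), f1]
    exact inf_le_right
  · intro x
    exact f4 x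
  · intro j hj
    have := f5 j hj
    rw [iSup_image] at this
    exact this

end SF.H58
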