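import Pool.Agent.H45.SF.RT

/-! The part of the theorem which is proved in the universe. -/

open Ordinal Cardinal Order Set
open scoped ZFSet

namespace SF.H58

open SF

theorem bmor_ext {A C : BA} {h k : BMor A C} (H : ∀ x, h x = k x) : h = k := by
  obtain ⟨⟨f, fi, fs⟩, fb⟩ := h
  obtain ⟨⟨g, gi, gs⟩, gb⟩ := k
  have : f = g := funext H
  subst this
  rfl

theorem re (hRD : T_RD) (hUB : T_UB) (hUC : T_UC) (hUO : T_UO) (hUZ : T_UZ) (hMB : T_MB) :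
    T_RE := by
  rintro ⟨κ, hI, hR⟩
  obtain ⟨Z, i, hCU⟩ := hUB κ hI
  obtain ⟨hne, v0, hA, hα, -⟩ := hUO
  obtain ⟨-, -, u3, -, -, -, -, -, u9⟩ := hUC κ Z i hI hCU
  obtain ⟨hc0, htop⟩ := u9 v0 hA hα
  have hg := hUZ κ Z i hI hCU v0 hc0
  have hb := hCU.base
  obtain ⟨A, α, b, ho, hgd, hgen⟩ := v0
  dsimp only at hA hα
  subst hA
  have e : bas Z = i ⟨BA0, α, b, ho, hgd, hgen⟩ := by
    refine bmor_ext fun x => ?_
    by_cases hx : x = ⊥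
    · subst hx
      have e1 : (bas Z) ⊥ = ⊥ := (hMB B0 Z.B Z.g).2.1
      have e2 : (i ⟨BA0, α, b, ho, hgd, hgen⟩) ⊥ = ⊥ :=
        (hMB _ Z.B (i ⟨BA0, α, b, ho, hgd, hgen⟩).toMor).2.1
      exact e1.trans e2.symm
    · exact hb ⟨⟨BA0, α, b, ho, hgd, hgen⟩, x, hx⟩ rfl hα x rfl
  refine ⟨Z, ?_, hRD κ Z i hI hR hCU, ?_⟩
  · rw [e]
    exact hg
  · intro hZ
    have h1 : (⊤ : El Z.B) = ⊥ := by
      apply El.ext
      rw [El.bot_val]
      have h2 : (⊤ : El Z.B).val ∈ ({∅} : V) := hZ ▸ (⊤ : El Z.B).mem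
      exact ZFSet.mem_singleton.1 h2
    rw [h1] at htop
    exact hne (u3 _ hc0 _ htop)

end SF.H58
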