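import Pool.Agent.H72.SF.VT

/-! # Part V, module VM: there is no totally bad frame with a base in the generic filter -/

set_option linter.unusedVariables false

open Ordinal Cardinal Order Set
open scoped ZFSet

namespace SF.H58

open SF

theorem vm_app_empty {X Y g z : V} (hg : ZFSet.IsFunc X Y g) (hz : z ∉ X) : app g z = ∅ := by
  unfold app
  ext t
  simp only [ZFSet.mem_sUnion, ZFSet.mem_sep, ZFSet.notMem_empty, iff_false]
  rintro ⟨y, ⟨-, hy⟩, -⟩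
  exact hz (ZFSet.pair_mem_prod.1 (hg.1 hy)).1

/-- a constant assignment -/
theorem vm_inj (hLED : T_LED) {N' N f : V} (h : IsElem N' N f) (h1 : ZFm (· ∈ N'))
    (h2 : ZFm (· ∈ N)) {x y : V} (hx : x ∈ N') (hy : y ∈ N') (hxy : app f x = app f y) :
    x = y := by
  have hD : Dfb ZFm (fun _ v => v 0 = v 1) := Dfb.eq (Tm.var 0) (Tm.var 1)
  have h3 := hLED ZFm _ hD N' N f h h1 h2 (fun i => if i = 0 then x else y) (by
    intro i
    split
    · exact hx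
    · exact hy)
  have h4 : (app f (if (0 : ℕ) = 0 then x else y)) = app f (if (1 : ℕ) = 0 then x else y) := by
    simpa using hxy
  have h5 := h3.2 h4
  simpa using h5

theorem vm_pair (hLED : T_LED) {N' N f : V} (h : IsElem N' N f) (h1 : ZFm (· ∈ N'))
    (h2 : ZFm (· ∈ N)) {p a b : V} (hp : p ∈ N') (hab : app f p = ZFSet.pair a b) :
    ∃ x y, x ∈ N' ∧ y ∈ N' ∧ p = ZFSet.pair x y ∧ app f x = a ∧ app f y = b := by
  have hD : Dfb ZFm (fun _ v => IsPr (v 0)) := Dfb.isPr (Tm.var 0)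
  have h3 := hLED ZFm _ hD N' N f h h1 h2 (fun _ => p) (fun _ => hp)
  obtain ⟨x, y, rfl⟩ := h3.2 ⟨a, b, hab⟩
  obtain ⟨hx, hy⟩ := h1.of_pair hp
  rw [h.app_pair h1 h2 hx hy] at hab
  obtain ⟨h4, h5⟩ := ZFSet.pair_injective hab
  exact ⟨x, y, hx, hy, rfl, h4, h5⟩

theorem vm (hVA : T_VA) (hVK : T_VK) (hVL : T_VL) (hLPR : T_LPR) (hLED : T_LED)
    (hWH : T_WH) : T_VM := by
  intro S hCC cn hcn rn hrn en hen hn hhn vcn vrn ven vhn W hW ga hga b hb hTB
  obtain ⟨N', hN', N, hN, σ, hσ, w, hw, B1, hB1, C1, hC1, h1, hh1, p1, hp1, G', hG', q, hq, hT⟩ :=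
    hTB
  have hM : ZFm (· ∈ S.M) := S.zfc.toZFm
  have F := hT.fr
  obtain ⟨hG1, hG2, hG3, -, -, -⟩ := hWH (· ∈ S.M) S.B S.G hM S.mB S.cba S.gen
  have hbB : b ∈ S.B := (hG2 b hb).1
  have hbM : b ∈ S.M := hM.trans _ S.mB _ hbB
  obtain ⟨hel, hext, hval⟩ := hVA (· ∈ S.M) S.B S.G N' N b σ hM S.mB S.cba S.gen hN' hN hσ hbM
    F.map hb
  have key : ∀ x y, app σ (ZFSet.pair x y) = b → x ∈ N' ∧ y ∈ N ∧ app (evF σ S.G) x = y := by
    intro x y hxy
    have hmem : ZFSet.pair x y ∈ ZFSet.prod N' N := by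
      by_contra hcon
      rw [vm_app_empty F.map.func hcon] at hxy
      exact F.ne hxy.symm
    obtain ⟨hx, hy⟩ := ZFSet.pair_mem_prod.1 hmem
    refine ⟨hx, hy, (hval x hx y hy).2 ?_⟩
    rw [hxy]
    exact hb
  obtain ⟨A0, τ, hA0, hτ, hNA⟩ := F.np.lev
  have hzN : ZFCm (· ∈ N) := F.np.zfc
  obtain ⟨hp1N, hpN, hp⟩ := key _ _ F.kp
  have hne : N'.Nonempty := ⟨_, hp1N⟩
  have htr : N'.IsTransitive := F.np.full.1
  obtain ⟨⟨A', τ', hA', hNA', hNA2⟩, hzN'⟩ := hLPR N' N (evF σ S.G) A0 τ hel hne htr hzN hA0 hNA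
  have k' := hzN'.toZFm
  have kN := hzN.toZFm
  -- the components of the tuple
  obtain ⟨B', q1, hB', hq1, e1, fB, g1⟩ := vm_pair hLED hel k' kN hp1N hp
  obtain ⟨mu', q2, hmu', hq2, e2, fmu, g2⟩ := vm_pair hLED hel k' kN hq1 g1
  obtain ⟨ρ', q3, hρ', hq3, e3, fρ, g3⟩ := vm_pair hLED hel k' kN hq2 g2
  obtain ⟨C', q4, hC', hq4, e4, fC, g4⟩ := vm_pair hLED hel k' kN hq3 g3
  obtain ⟨kk', q5, hkk', hq5, e5, fk, g5⟩ := vm_pair hLED hel k' kN hq4 g4
  obtain ⟨cn', q6, hcn', hq6, e6, fcn, g6⟩ := vm_pair hLED hel k' kN hq5 g5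
  obtain ⟨rn', q7, hrn', hq7, e7, frn, g7⟩ := vm_pair hLED hel k' kN hq6 g6
  obtain ⟨en', q8, hen', hq8, e8, fen, g8⟩ := vm_pair hLED hel k' kN hq7 g7
  obtain ⟨th', hn', hth', hhn', e9, fth, fhn⟩ := vm_pair hLED hel k' kN hq8 g8
  have ep : p1 = tupV B' mu' ρ' C' kk' cn' rn' en' th' hn' := by
    unfold tupV
    rw [e1, e2, e3, e4, e5, e6, e7, e8, e9]
  obtain ⟨hC1N, hCN, hfC1⟩ := key _ _ F.kC
  obtain ⟨hh1N, hkN, hfh1⟩ := key _ _ F.kh
  have eC : C1 = C' := vm_inj hLED hel k' kN hC1N hC' (by rw [hfC1, fC])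
  have eh : h1 = kk' := vm_inj hLED hel k' kN hh1N hkk' (by rw [hfh1, fk])
  subst eC
  subst eh
  let T : SmS :=
    { toBigS := S
      cn := cn, rn := rn, en := en, hn := hn, N' := N', N := N, A := app (evF σ S.G) A'
      f := evF σ S.G, G' := G', q := q
      B' := B', mu' := mu', ρ' := ρ', C' := C1, k' := h1, cn' := cn', rn' := rn', en' := en'
      θ' := th', hn' := hn', A' := A', τ := τ, τ' := τ'
      mcn := hcn, mrn := hrn, men := hen, mhn := hhn, vcn := vcn, vrn := vrn, ven := ven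
      vhn := vhn, mN' := hN', mN := hN, zN' := hzN', zN := hzN, mτ := hτ
      mA := app_mem hel.func hA', eN := hNA2, mA' := hA', eN' := hNA', fA := rfl
      full := F.np.full, ct' := F.np.ctb, el := hel, mf := hext, mG' := hG'
      gen' := F.gen
      mt := by rw [← ep]; exact hp1N
      tp := by rw [← ep]; exact hp
      com := by
        intro x y hxy hy
        have hx : x ∈ N' := (k'.of_pair_mem hh1N hxy).1
        have hz : app (evF σ S.G) x ∈ N := app_mem hel.func hx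
        have h2 := (hval x hx _ hz).1 rfl
        obtain ⟨h3, h4⟩ := F.com x y hxy hy _ hz
        have h5 := hG2 _ h2
        have h6 : app (evF σ S.G) x ∈ S.B := by
          by_contra hcon
          exact h5.2 (h4 hcon)
        exact hG3 _ h2 _ h6 h3
      mq := hT.mem }
  obtain ⟨K, hK, hdK, f0, hf0, hel0, hq0, hz0⟩ := hVK T
  have hG'N : G' ⊆ N' := fun x hx => k'.trans _ hC1N _ (F.gen.sub hx)
  have hNtr : N.IsTransitive := fun x hx y hy => kN.trans _ hx _ hy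
  obtain ⟨b1, hb1, hb1ne, hb1b, c, hc, σ', hσ', hL⟩ := hVL S.M S.B S.mu S.ρ S.C S.k N' N b σ G' q
    K f0 S.zfc S.ctb S.mB S.cba S.ne S.mmu S.mρ S.pre S.mC S.hC hCC S.mkk S.hk hN' hN hNtr hCN
    hbM hσ hG' hG'N hT.mem F.map hK (by rw [hdK]; exact hb) hf0 hel0 (by rw [hdK]; exact hq0) hz0
  exact hT.bad b1 hb1 hb1ne hb1b c hc σ' hσ' hL

end SF.H58
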