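import Pool.Agent.H58.SF.Targets

/-!
# Primitive positive definability: change of the index set
-/

namespace Pool.Agent.H58.SF

open Pool.Agent.H68.BP

variable {σ : Sig} {A : Type} {𝔸 : Str σ A}

/-- renaming of variables -/
def mapAtom {X Y : Type} (e : X → Y) : Atom σ X → Atom σ Y
  | .eq x y => .eq (e x) (e y)
  | .rel l t => .rel l (fun i => e (t i))

theorem holds_mapAtom {X Y : Type} (e : X → Y) (v : Y → A) (a : Atom σ X) :
    (mapAtom e a).Holds 𝔸 v ↔ a.Holds 𝔸 (fun x => v (e x)) := by
  cases a with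
  | eq x y => exact Iff.rfl
  | rel l t => exact Iff.rfl

/-- sets of tuples indexed by `J`, defined by a primitive positive formula with variables in `I`
renamed by `e : I → J` -/
theorem ppDefinable_comap {I J : Type} (e : I → J) {D : Set (I → A)}
    (h : PPDefinable 𝔸 D) : PPDefinable 𝔸 {z : J → A | (fun i => z (e i)) ∈ D} := by
  obtain ⟨q, φ, hφ⟩ := h
  refine ⟨q, φ.map (mapAtom (Sum.map e id)), fun x => ?_⟩
  rw [Set.mem_ofPred_eq, hφ]
  refine exists_congr fun y => ?_
  constructor
  · intro h a ha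
    obtain ⟨b, hb, rfl⟩ := List.mem_map.1 ha
    rw [holds_mapAtom]
    have h1 := h b hb
    have e1 : (fun z => Sum.elim x y (Sum.map e id z)) = Sum.elim (fun i => x (e i)) y := by
      funext z
      rcases z with z | z <;> rfl
    rw [e1]
    exact h1
  · intro h a ha
    have h1 := h _ (List.mem_map.2 ⟨a, ha, rfl⟩)
    rw [holds_mapAtom] at h1
    have e1 : (fun z => Sum.elim x y (Sum.map e id z)) = Sum.elim (fun i => x (e i)) y := by
      funext z
      rcases z with z | z <;> rfl
    rw [e1] at h1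
    exact h1

theorem pf_K3 : T_K3 := by
  classical
  rintro σ A 𝔸 V _ _ E hpp ⟨t, ht⟩ ⟨c, hc⟩
  have := Fintype.ofFinite V
  let e : Fin (Fintype.card V) ≃ V := (Fintype.equivFin V).symm
  refine ⟨Fintype.card V, fun u v => E (fun x => u (e.symm x)) (fun x => v (e.symm x)),
    Fintype.card_pos, ?_, ⟨fun a i => t a (e i), ?_⟩, ⟨fun u => c (fun x => u (e.symm x)), ?_⟩⟩
  · exact ppDefinable_comap (Sum.map e.symm e.symm) hpp
  · intro a b hab
    simp only [Equiv.apply_symm_apply]
    exact ht a b hab
  · intro u v huv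
    exact hc _ _ huv

end Pool.Agent.H58.SF
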