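import Pool.Agent.H58.SF.Targets

/-!
# Bounded selections give small families
-/

namespace Pool.Agent.H58.SF

open Pool.Agent.H68.BP

theorem IsPoly.minor {σ : Sig} {S T I J : Type} {𝕊 : Str σ S} {𝕋 : Str σ T}
    {f : (I → S) → T} (hf : IsPoly 𝕊 𝕋 f) (π : I → J) : IsPoly 𝕊 𝕋 (minor π f) :=
  fun l x hx => hf l (fun i => x (π i)) (fun i => hx _)

theorem pf_BS : T_BS := by
  classical
  rintro σ S T 𝕊 𝕋 ⟨k, N, cls, Sel, hN, hsel⟩
  refine ⟨k, N, fun c I f => {X | ∃ (J : Type) (_ : Finite J) (_ : Nonempty J)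
    (g : (J → S) → T) (π : J → I), IsPoly 𝕊 𝕋 g ∧ minor π g = f ∧ cls J g = c ∧
      X = π '' Sel J g}, ?_, ?_, ?_⟩
  · rintro c I _ f hf X ⟨J, hJ1, hJ2, g, π, hg, rfl, rfl, rfl⟩
    have h1 := hsel J J id g hg rfl
    refine ⟨?_, (Set.ncard_image_le (Set.toFinite _)).trans (hN J g hg)⟩
    obtain ⟨j, -, hj⟩ := h1
    exact ⟨π j, j, hj, rfl⟩
  · rintro c I J _ _ ρ f hf X ⟨K, hK1, hK2, g, π, hg, rfl, hc, rfl⟩
    exact ⟨K, hK1, hK2, g, fun i => ρ (π i), hg, rfl, hc, by rw [Set.image_image]⟩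
  · intro I _ _ f hf
    refine ⟨cls I f, ⟨_, I, inferInstance, inferInstance, f, id, hf, rfl, rfl, rfl⟩, ?_⟩
    rintro ⟨X, hX, hdis⟩
    -- every member meets the selection of `f`
    have hmeet : ∀ j, ∃ i, i ∈ X j ∧ i ∈ Sel I f := by
      intro j
      obtain ⟨J, hJ1, hJ2, g, π, hg, hgf, hc, hXj⟩ := hX j
      have h1 := hsel J I π g hg (by rw [hgf, hc])
      rw [hgf] at h1
      obtain ⟨i, hi1, hi2⟩ := h1
      exact ⟨i, by rw [hXj]; exact hi1, hi2⟩
    choose i hi1 hi2 using hmeet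
    have hinj : Function.Injective i := by
      intro j j' hjj
      by_contra hne
      have h1 := hdis j j' hne
      rw [Set.disjoint_left] at h1
      exact h1 (hi1 j) (by rw [hjj]; exact hi1 j')
    have h1 : (Set.range i).ncard = N + 1 := by
      rw [← Set.image_univ, Set.ncard_image_of_injective _ hinj, Set.ncard_univ,
        Nat.card_eq_fintype_card, Fintype.card_fin]
    have h2 : (Set.range i).ncard ≤ (Sel I f).ncard := by
      refine Set.ncard_le_ncard ?_ (Set.toFinite _)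
      rintro _ ⟨j, rfl⟩
      exact hi2 j
    have h3 := hN I f hf
    omega

end Pool.Agent.H58.SF
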