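import Pool.Agent.H58.SF.COL

/-!
# A natural choice of one coordinate gives a pp-construction
-/

namespace Pool.Agent.H58.SF

open Pool.Agent.H68.BP

theorem Fam.level_nonempty {σ : Sig} {A : Type} {𝔸 : Str σ A} {B : Set A} {F : Finset A}
    {Q : (I : Type) → ((I → A) → A) → Set (Set I)} (hQ : Fam 𝔸 B F 1 1 Q) : F.Nonempty := by
  by_contra hF
  rw [Finset.not_nonempty_iff_eq_empty] at hF
  subst hF
  have hf : Dom 𝔸 B ∅ (fun x : Fin 2 → A => x 0) :=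
    ⟨isPoly_proj 0, fun c hc => absurd hc (Finset.notMem_empty c),
      fun x hx => absurd (hx 0) (Finset.notMem_empty _)⟩
  obtain ⟨i, hi⟩ := hQ.single hf
  have h1 := hQ.cov _ _ (fun j : Fin 2 => 1 - j) _ _ hf hf
    (fun x hx => absurd (hx 0) (Finset.notMem_empty _)) _ hi
  rw [Set.image_singleton] at h1
  have h2 := hQ.unique hf hi h1
  have key : ∀ i : Fin 2, i ≠ 1 - i := by decide
  exact key i h2

theorem pf_F1 (hST : T_ST) (hPW : T_PW) (hK3 : T_K3) (hCOL : T_COL) : T_F1 := by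
  classical
  intro σ A 𝔸 B F Q hA hol hB hF hQ
  obtain ⟨a₀, ha₀⟩ := hQ.level_nonempty
  obtain ⟨F', hFF, hst⟩ := hST σ A 𝔸 hA hol Arc3 F
  obtain ⟨c, hc⟩ := hCOL σ A 𝔸 B F Q hB hF hQ
  have : Nonempty (Fin 3 → F) := ⟨fun _ => ⟨a₀, ha₀⟩⟩
  refine hK3 σ A 𝔸 (Fin 3 → F) (fun u v => ∃ h : (Arc3 → A) → A, PartPoly 𝔸 F' h ∧
    (∀ x : Fin 3 → F, h (fun a => (x a.1.1 : A)) = u x) ∧
    ∀ x : Fin 3 → F, h (fun a => (x a.1.2 : A)) = v x) ?_ ?_ ?_
  · exact hPW σ A 𝔸 F' Arc3 (Fin 3 → F) (fun x a => (x a.1.1 : A)) (fun x a => (x a.1.2 : A))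
      (fun x a => hFF (x _).2) (fun x a => hFF (x _).2)
  · refine ⟨fun a x => (x a : A), fun a b hab => ?_⟩
    exact ⟨fun y => y ⟨(a, b), hab⟩, fun l x _ hx => hx _, fun x => rfl, fun x => rfl⟩
  · refine ⟨c, ?_⟩
    rintro u v ⟨h, hh, hu, hv⟩
    obtain ⟨h', hh', he⟩ := hst h hh
    have e1 : u = fun x : Fin 3 → F => h' (fun a => (x a.1.1 : A)) := by
      funext x
      rw [he _ (fun j => (x _).2), hu x]
    have e2 : v = fun x : Fin 3 → F => h' (fun a => (x a.1.2 : A)) := by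
      funext x
      rw [he _ (fun j => (x _).2), hv x]
    rw [e1, e2]
    exact hc h' hh'

end Pool.Agent.H58.SF
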