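import Pool.Agent.H58.SF.Targets

/-!
# Robust sets exist
-/

namespace Pool.Agent.H58.SF

open Pool.Agent.H68.BP

theorem pf_RA : T_RA := by
  classical
  intro σ A 𝔸 B F Q hF hQ I _ _ f hf G₀ hG₀ hab hne
  by_contra hcon
  rw [Set.not_nonempty_iff_eq_empty] at hcon
  have hcon' : ∀ Y, Y ∉ Robust 𝔸 B F Q I f := by
    intro Y hY
    rw [hcon] at hY
    exact hY
  -- killing finitely many sets
  have key : ∀ 𝒴 : Finset (Set I), ∃ (K : Type) (_ : Finite K) (_ : Nonempty K)
      (g : (K → A) → A), Dom 𝔸 B G₀ g ∧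
        ∀ Z ∈ Q (K × I) (star g f), Prod.snd '' Z ∉ 𝒴 := by
    intro 𝒴
    induction 𝒴 using Finset.induction_on with
    | empty =>
      exact ⟨Unit, inferInstance, inferInstance, _, dom_unit hG₀,
        fun Z _ => Finset.notMem_empty _⟩
    | insert Y 𝒴 _ ih =>
      obtain ⟨K, hK1, hK2, g, hg, hkill⟩ := ih
      obtain ⟨G, hG, hgG, hGG⟩ := exists_above hG₀ hG₀ hg
      have habG : Above F f G := hab.mono hGG
      have hY := hcon' Y
      simp only [Robust, Set.mem_ofPred_eq, not_exists, not_and, not_forall] at hY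
      obtain ⟨L, hL1, hL2, g₁, hg₁, hkill₁⟩ := hY G hG habG
      refine ⟨L × K, inferInstance, inferInstance, star g₁ g, hg.star hg₁ hgG, ?_⟩
      intro Z hZ hmem
      have hd : Dom 𝔸 B F (star (star g₁ g) f) := hf.star (hg.star hg₁ hgG) hab
      rw [Finset.mem_insert] at hmem
      rcases hmem with hmem | hmem
      · have h1 := hQ _ _ _ _ _ hd (hf.star hg₁ habG)
          (mnr_star_middle hg hab : Mnr F (star (star g₁ g) f) _ _) Z hZ
        refine hkill₁ _ h1 ?_
        rw [← hmem, Set.image_image]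
      · have h1 := hQ _ _ _ _ _ hd (hf.star hg hab)
          (mnr_star_outer hg₁ hab hgG : Mnr F (star (star g₁ g) f) _ _) Z hZ
        refine hkill _ h1 ?_
        rw [Set.image_image]
        exact hmem
  have := Fintype.ofFinite (Set I)
  obtain ⟨K, hK1, hK2, g, hg, hkill⟩ := key Finset.univ
  obtain ⟨Z, hZ⟩ := hne K g hg
  exact hkill Z hZ (Finset.mem_univ _)

end Pool.Agent.H58.SF
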