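import Pool.Agent.H58.SF.Targets

/-!
# Robust sets are covariant and belong to the family
-/

namespace Pool.Agent.H58.SF

open Pool.Agent.H68.BP

theorem pf_RB : T_RB := by
  intro σ A 𝔸 B F Q hF hQ
  constructor
  · intro I J _ _ π f f' hf hf' hm Y hY
    obtain ⟨G, hG, hab, h⟩ := hY
    refine ⟨G, hG, hab.mnr hm, fun K _ _ g hg => ?_⟩
    obtain ⟨Z, hZ, rfl⟩ := h K g hg
    refine ⟨Prod.map id π '' Z, hQ _ _ _ _ _ (hf.star hg hab) (hf'.star hg (hab.mnr hm))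
      (mnr_star_right hm) Z hZ, ?_⟩
    rw [Set.image_image, Set.image_image]
    rfl
  · intro I _ f hf Y hY
    obtain ⟨G, hG, hab, h⟩ := hY
    obtain ⟨Z, hZ, rfl⟩ := h Unit _ (dom_unit hG)
    have hu : Dom 𝔸 B G (fun x : Unit → A => x ()) := dom_unit hG
    exact hQ _ _ _ _ _ (hf.star hu hab) hf (mnr_star_snd hu hab) Z hZ

end Pool.Agent.H58.SF
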