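import Pool.Agent.H58.SF.Targets

/-!
# Theorem 1: small families give a pp-construction
-/

namespace Pool.Agent.H58.SF

open Pool.Agent.H68.BP

theorem IsPoly.sandwich {σ : Sig} {S A T I : Type} {𝕊 : Str σ S} {𝔸 : Str σ A} {𝕋 : Str σ T}
    {s : S → A} {r : A → T} (hs : IsHom 𝕊 𝔸 s) (hr : IsHom 𝔸 𝕋 r) {f : (I → A) → A}
    (hf : IsPoly 𝔸 𝔸 f) : IsPoly 𝕊 𝕋 (fun x : I → S => r (f (fun i => s (x i)))) := by
  intro l x hx
  exact hr l _ (hf l (fun i k => s (x i k)) (fun i => hs l _ (hx i)))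

theorem IsHom.comp {σ : Sig} {S A T : Type} {𝕊 : Str σ S} {𝔸 : Str σ A} {𝕋 : Str σ T}
    {s : S → A} {r : A → T} (hr : IsHom 𝔸 𝕋 r) (hs : IsHom 𝕊 𝔸 s) :
    IsHom 𝕊 𝕋 (fun x => r (s x)) := fun l x hx => hr l _ (hs l x hx)

theorem pf_SF (hBB : T_BB) (hLG : T_LG) (hLC : T_LC) (hF1 : T_F1) : T_SF := by
  classical
  intro σ S A T 𝕊 𝔸 𝕋 hS hA hol hs₀ hr₀ hsf
  obtain ⟨s₀, hs₀⟩ := hs₀
  obtain ⟨r, hr⟩ := hr₀
  obtain ⟨B, hB⟩ := hBB σ A 𝔸 hA hol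
  have := Fintype.ofFinite S
  obtain ⟨e, he, -, heB⟩ := hB.absorb ∅ (Finset.univ.image s₀) (by simp)
  obtain ⟨s, hs, hsB⟩ : ∃ s : S → A, IsHom 𝕊 𝔸 s ∧ ∀ a, s a ∈ B :=
    ⟨fun a => e (s₀ a), IsHom.comp he hs₀,
      fun a => heB _ (Finset.mem_image.2 ⟨a, Finset.mem_univ _, rfl⟩)⟩
  set F : Finset A := Finset.univ.image s with hFdef
  have hsF : ∀ a, s a ∈ F := fun a => Finset.mem_image.2 ⟨a, Finset.mem_univ _, rfl⟩
  have hF : (F : Set A) ⊆ B := by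
    intro a ha
    obtain ⟨b, -, rfl⟩ := Finset.mem_image.1 ha
    exact hsB b
  obtain ⟨k, N, Q, h1, h2, h3⟩ := hsf
  obtain ⟨G, Q', hG, hfam⟩ := hLC σ A 𝔸 B F k N
    (fun c I f => Q c I (fun x : I → S => r (f (fun i => s (x i))))) hF
    (by
      intro c I J _ _ π f g hf hg hm X hX
      have e1 : (fun x : J → S => r (g (fun j => s (x j)))) =
          minor π (fun x : I → S => r (f (fun i => s (x i)))) := by
        funext x
        unfold minor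
        rw [hm _ (fun j => hsF _)]
      change π '' X ∈ Q c J (fun x : J → S => r (g (fun j => s (x j))))
      rw [e1]
      exact h2 c I J π _ (IsPoly.sandwich hs hr hf.poly) X hX)
    (by
      intro c I _ f hf X hX
      exact h1 c I _ (IsPoly.sandwich hs hr hf.poly) X hX)
    (by
      intro I _ _ f hf
      exact h3 I _ (IsPoly.sandwich hs hr hf.poly))
  obtain ⟨G', Q'', hG', hfam'⟩ := hLG σ A 𝔸 B G N N Q' hG hfam
  exact hF1 σ A 𝔸 B G' Q'' hA hol hB hG' hfam'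

end Pool.Agent.H58.SF
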