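import Pool.Agent.H58.SF.LC
import Pool.Agent.H58.SF.RA
import Pool.Agent.H58.SF.RB
import Pool.Agent.H58.SF.SF
import Pool.Agent.H58.SF.F1
import Pool.Agent.H58.SF.BS
import Pool.Agent.H58.SF.PW
import Pool.Agent.H18.SF.BB
import Pool.Agent.H18.SF.CP
import Pool.Agent.H18.SF.OP
import Pool.Agent.H18.SF.OR
import Pool.Agent.H18.SF.RG
import Pool.Agent.H53.SF.LG
import Pool.Agent.H53.SF.NB
import Pool.Agent.H34.SF.EX
import Pool.Agent.H86.SF.KK

/-!
# Assembly
-/

namespace Pool.Agent.H58.SF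

open Pool.Agent.H68.BP

theorem all_SF : T_SF :=
  pf_SF (Pool.Agent.H18.SF.pf_BB Pool.Agent.H18.SF.pf_RG)
    (Pool.Agent.H53.SF.pf_LG pf_RA pf_RB) (pf_LC pf_RA pf_RB)
    (pf_F1 (Pool.Agent.H18.SF.pf_ST Pool.Agent.H18.SF.pf_CP) pf_PW pf_K3 pf_COL)

theorem all_OP : T_OP := Pool.Agent.H18.SF.pf_OP Pool.Agent.H18.SF.pf_AD

/-- `E` is `m`-colourable. -/
def Colorable {D : Type} (E : D → D → Prop) (m : ℕ) : Prop :=
  ∃ c : D → Fin m, ∀ x y, E x y → c x ≠ c y

/-- `E` contains the complete graph with `k` vertices. -/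
def HasClique {D : Type} (E : D → D → Prop) (k : ℕ) : Prop :=
  ∃ h : Fin k → D, ∀ i j, i ≠ j → E (h i) (h j)

/-- The graphs considered: those with an odd potential, and those which contain a complete graph
with `k ≥ 3` vertices and have a homomorphism to a finite graph without complete graph with `2 k`
vertices. -/
def SandwichGraph {D : Type} (E : D → D → Prop) : Prop :=
  OddPotential E ∨ ∃ k : ℕ, 3 ≤ k ∧ HasClique E k ∧
    ∃ (T : Type) (R : T → T → Prop) (c : D → T), Finite T ∧ ¬ HasClique R (2 * k) ∧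
      ∀ x y, E x y → R (c x) (c y)

theorem colorable_two_of {D : Type} {E : D → D → Prop} {c : D → Bool}
    (hc : ∀ x y, E x y → c x ≠ c y) : Colorable E 2 := by
  refine ⟨fun x => if c x then 0 else 1, fun x y hxy => ?_⟩
  have h1 := hc x y hxy
  cases hx : c x <;> cases hy : c y <;> simp_all

theorem odd_of_not_colorable {D : Type} {E : D → D → Prop} (hs : ∀ x y, E x y → E y x)
    (h : ¬ Colorable E 2) : OddWalk E := by
  by_contra hcon
  obtain ⟨c, hc⟩ := Pool.Agent.H53.SF.pf_NB D E hs hcon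
  exact h (colorable_two_of hc)

/-- a homomorphism from an odd cycle -/
theorem cyc_hom {D : Type} {E : D → D → Prop} (hs : ∀ x y, E x y → E y x) (h : OddWalk E) :
    ∃ (n : ℕ) (s : ZMod (2 * n + 1) → D), IsHom (graph (cyc (2 * n + 1))) (graph E) s := by
  obtain ⟨n, w, hw, hper⟩ := h
  have hper' : ∀ a b : ℕ, w (a + b * (2 * n + 1)) = w a := by
    intro a b
    induction b with
    | zero => simp
    | succ b ih => rw [Nat.succ_mul, ← add_assoc, hper, ih]
  have hmod : ∀ a : ℕ, w (a % (2 * n + 1)) = w a := by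
    intro a
    have h1 := hper' (a % (2 * n + 1)) (a / (2 * n + 1))
    rw [Nat.mod_add_div'] at h1
    exact h1.symm
  have hcast : ∀ a b : ℕ, (a : ZMod (2 * n + 1)) = (b : ZMod (2 * n + 1)) → w a = w b := by
    intro a b hab
    rw [ZMod.natCast_eq_natCast_iff'] at hab
    rw [← hmod a, ← hmod b, hab]
  have hval : ∀ i j : ZMod (2 * n + 1), j = i + 1 → E (w i.val) (w j.val) := by
    intro i j hij
    have h1 : w j.val = w (i.val + 1) := by
      refine hcast _ _ ?_
      rw [Nat.cast_add, ZMod.natCast_zmod_val, ZMod.natCast_zmod_val, Nat.cast_one, hij]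
    rw [h1]
    exact hw _
  refine ⟨n, fun i => w i.val, ?_⟩
  intro l x hx
  rcases hx with hx | hx
  · exact hval _ _ hx
  · exact hs _ _ (hval _ _ hx)

end Pool.Agent.H58.SF
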