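import Pool.Agent.H58.SF.MG
import Pool.Agent.H18.SF.OR

/-!
# Pseudo-Olšák polymorphisms modulo a group of automorphisms: the global statement
-/

namespace Pool.Agent.H58.SF

open Pool.Agent.H68.BP

variable {σ : Sig} {A : Type} {𝔸 : Str σ A} {G : Subgroup (Equiv.Perm A)}

/-- `𝔸` has a polymorphism `o` of arity six with
`α (o (x, x, y, y, y, x)) = β (o (x, y, x, y, x, y)) = γ (o (y, x, x, x, y, y))` for some maps `α`,
`β`, `γ` in the closure of the group `G`. -/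
def PseudoOlsakMod (𝔸 : Str σ A) (G : Subgroup (Equiv.Perm A)) : Prop :=
  ∃ (o : (Fin 6 → A) → A) (α β γ : A → A), IsPoly 𝔸 𝔸 o ∧ LocallyIn G α ∧ LocallyIn G β ∧
    LocallyIn G γ ∧ ∀ x y : A,
      α (o ![x, x, y, y, y, x]) = β (o ![x, y, x, y, x, y]) ∧
      β (o ![x, y, x, y, x, y]) = γ (o ![y, x, x, x, y, y])

theorem exists_exhaustion (A : Type) [Countable A] [Nonempty A] :
    ∃ F : ℕ → Finset A, (∀ n, (F n).Nonempty) ∧ ∀ X : Finset A, ∃ n, ∀ m, n ≤ m → X ⊆ F m := by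
  classical
  obtain ⟨e, he⟩ := exists_surjective_nat A
  refine ⟨fun n => (Finset.range (n + 1)).image e, fun n => ⟨e 0, ?_⟩, fun X => ?_⟩
  · exact Finset.mem_image_of_mem _ (by simp)
  · choose r hr using he
    refine ⟨X.sup r, fun m hm x hx => ?_⟩
    rw [Finset.mem_image]
    refine ⟨r x, ?_, hr x⟩
    rw [Finset.mem_range]
    have h1 := Finset.le_sup (f := r) hx
    omega

theorem pseudo_mod (hOS : T_OS) (hPO : T_PO) (hA : Countable A)
    (hG : ∀ g ∈ G, IsAut 𝔸 g) (hO : OligoGroup G) (hK : ¬ PPConstructsK3 𝔸) :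
    PseudoOlsakMod 𝔸 G := by
  classical
  rcases isEmpty_or_nonempty A with hE | hN
  · refine ⟨fun x => x 0, id, id, id, ?_, ?_, ?_, ?_, fun x => hE.elim x⟩
    · intro l x hx
      exact hx 0
    all_goals
      intro X
      exact ⟨1, one_mem G, fun x _ => rfl⟩
  obtain ⟨F, hF1, hF2⟩ := exists_exhaustion A
  have h1 := fun m => local_olsak hOS hPO hA hG hO hK (F m) (hF1 m)
  choose f hf g hg hfg using h1
  -- the polymorphism
  obtain ⟨o, ho⟩ := limG hO (Fin 6 → A) f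
  have hpoly : IsPoly 𝔸 𝔸 o := by
    intro l x hx
    let X : Finset (Fin 6 → A) := Finset.univ.image (fun k i => x i k)
    let Y : Finset A := Finset.univ.image (fun q : Fin 6 × Fin (σ.ar l) => x q.1 q.2)
    obtain ⟨n, hn⟩ := hF2 Y
    obtain ⟨m, hm, γ, hγ, hom⟩ := ho X n
    have h2 : 𝔸 l (fun k => f m (fun i => x i k)) := hf m l x (fun i k =>
      hn m hm (Finset.mem_image_of_mem (fun q : Fin 6 × Fin (σ.ar l) => x q.1 q.2)
        (Finset.mem_univ (i, k)))) hx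
    have h3 := (hG γ hγ l _).1 h2
    have e : (fun k => γ (f m (fun i => x i k))) = fun k => o (fun i => x i k) := by
      funext k
      exact (hom _ (Finset.mem_image_of_mem (fun k i => x i k) (Finset.mem_univ k))).symm
    rw [e] at h3
    exact h3
  have hloc : ∀ Y : Finset A, ∃ k : Fin 3 → Equiv.Perm A, (∀ j, k j ∈ G) ∧
      ∀ j, ∀ x ∈ Y, ∀ y ∈ Y, o (pat 0 x y) = k j (o (pat j x y)) := by
    intro Y
    let X : Finset (Fin 6 → A) :=
      (Finset.univ ×ˢ (Y ×ˢ Y)).image (fun q : Fin 3 × A × A => pat q.1 q.2.1 q.2.2)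
    obtain ⟨n, hn⟩ := hF2 Y
    obtain ⟨m, hm, γ, hγ, hom⟩ := ho X n
    have hX : ∀ j, ∀ x ∈ Y, ∀ y ∈ Y, pat j x y ∈ X := by
      intro j x hx y hy
      refine Finset.mem_image.2 ⟨(j, x, y), ?_, rfl⟩
      simp [hx, hy]
    refine ⟨fun j => γ * (g m j * γ⁻¹), fun j => mul_mem hγ (mul_mem (hg m j) (inv_mem hγ)), ?_⟩
    intro j x hx y hy
    rw [hom _ (hX 0 x hx y hy), hom _ (hX j x hx y hy),
      hfg m j x (hn m hm hx) y (hn m hm hy)]
    change _ = γ (g m j (γ⁻¹ (γ (f m (pat j x y)))))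
    rw [inv_app]
  -- the unary maps
  have hloc' := fun m => hloc (F m)
  choose k hk hko using hloc'
  obtain ⟨H, hH⟩ := limG hO (Fin 3 × A) (fun m q => k m q.1 q.2)
  have key : ∀ j, LocallyIn G (fun a => H (j, a)) := by
    intro j X
    obtain ⟨m, -, γ, hγ, h2⟩ := hH (X.image (fun a => (j, a))) 0
    refine ⟨γ * k m j, mul_mem hγ (hk m j), fun x hx => ?_⟩
    exact h2 (j, x) (Finset.mem_image_of_mem _ hx)
  have hid : ∀ x y j, H (0, o (pat 0 x y)) = H (j, o (pat j x y)) := by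
    intro x y j
    obtain ⟨n, hn⟩ := hF2 {x, y}
    obtain ⟨m, hm, γ, hγ, h2⟩ := hH {(0, o (pat 0 x y)), (j, o (pat j x y))} n
    have h3 := h2 (0, o (pat 0 x y)) (by simp)
    have h4 := h2 (j, o (pat j x y)) (by simp)
    have hx : x ∈ F m := hn m hm (by simp)
    have hy : y ∈ F m := hn m hm (by simp)
    have h5 := hko m j x hx y hy
    have h6 := hko m 0 x hx y hy
    rw [h3, h4]
    change γ (k m 0 (o (pat 0 x y))) = γ (k m j (o (pat j x y)))
    rw [← h5, ← h6]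
  refine ⟨o, fun a => H (0, a), fun a => H (1, a), fun a => H (2, a), hpoly, key 0, key 1, key 2,
    fun x y => ⟨hid x y 1, ?_⟩⟩
  exact (hid x y 1).symm.trans (hid x y 2)

/-- automorphism groups as subgroups -/
def autGroup {τ : Sig} (𝔹 : Str τ A) : Subgroup (Equiv.Perm A) where
  carrier := {g | IsAut 𝔹 g}
  mul_mem' := by
    intro g h hg hh l x
    exact (hh l x).trans (hg l _)
  one_mem' := fun l x => Iff.rfl
  inv_mem' := by
    intro g hg l x
    have h1 := hg l (fun i => g⁻¹ (x i))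
    have e : (fun i => g (g⁻¹ (x i))) = x := funext fun i => Equiv.apply_symm_apply g (x i)
    rw [e] at h1
    exact h1.symm

theorem emb_of_locallyIn {τ : Sig} {𝔹 : Str τ A} {α : A → A}
    (h : LocallyIn (autGroup 𝔹) α) : IsEmb 𝔹 𝔹 α := by
  classical
  refine ⟨?_, ?_⟩
  · intro x y hxy
    obtain ⟨g, -, hg⟩ := h {x, y}
    rw [hg x (by simp), hg y (by simp)] at hxy
    exact g.injective hxy
  · intro l x
    obtain ⟨g, hg, hgx⟩ := h (Finset.univ.image x)
    have e : (fun i => α (x i)) = fun i => g (x i) :=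
      funext fun i => hgx _ (Finset.mem_image_of_mem x (Finset.mem_univ i))
    rw [e]
    exact hg l x

theorem oligo_autGroup {τ : Sig} {𝔹 : Str τ A} (hB : Homogeneous 𝔹) :
    OligoGroup (autGroup 𝔹) := by
  classical
  intro n
  have hfin : (Set.range (Pool.Agent.H18.SF.ty 𝔹 (n := n))).Finite := Set.toFinite _
  have hch : ∀ p : (Fin n → Fin n → Prop) × ((l : Fin τ.m) → (Fin (τ.ar l) → Fin n) → Prop),
      ∃ y : Option (Fin n → A), ∀ x : Fin n → A, Pool.Agent.H18.SF.ty 𝔹 x = p →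
        ∃ z, y = some z ∧ Pool.Agent.H18.SF.ty 𝔹 z = p := by
    intro p
    by_cases h : ∃ x : Fin n → A, Pool.Agent.H18.SF.ty 𝔹 x = p
    · obtain ⟨x, hx⟩ := h
      exact ⟨some x, fun _ _ => ⟨x, rfl, hx⟩⟩
    · exact ⟨none, fun x hx => absurd ⟨x, hx⟩ h⟩
  choose y hy using hch
  refine ⟨(hfin.toFinset.image y).eraseNone, fun x => ?_⟩
  obtain ⟨z, hz, hz'⟩ := hy (Pool.Agent.H18.SF.ty 𝔹 x) x rfl
  refine ⟨z, ?_, ?_⟩
  · rw [Finset.mem_eraseNone, Finset.mem_image]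
    refine ⟨Pool.Agent.H18.SF.ty 𝔹 x, ?_, hz⟩
    rw [Set.Finite.mem_toFinset]
    exact ⟨x, rfl⟩
  · obtain ⟨g, hg, hg'⟩ := Pool.Agent.H18.SF.exists_aut_of_ty hB x z hz'.symm
    exact ⟨g, hg, hg'⟩

end Pool.Agent.H58.SF
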