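import Pool.Agent.H58.SF.Targets

/-!
# The colouring
-/

namespace Pool.Agent.H58.SF

open Pool.Agent.H68.BP

variable {σ : Sig} {A : Type} {𝔸 : Str σ A} {B : Set A} {F : Finset A}
  {Q : (I : Type) → ((I → A) → A) → Set (Set I)}

theorem Fam.single (hQ : Fam 𝔸 B F 1 1 Q) {I : Type} [Finite I] [Nonempty I]
    {f : (I → A) → A} (hf : Dom 𝔸 B F f) : ∃ i : I, {i} ∈ Q I f := by
  obtain ⟨X, hX⟩ := hQ.ne I f hf
  obtain ⟨h1, h2⟩ := hQ.sz I f hf X hX
  have h3 : X.ncard = 1 := le_antisymm h2 ((Set.ncard_pos (Set.toFinite _)).2 h1)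
  obtain ⟨i, rfl⟩ := Set.ncard_eq_one.1 h3
  exact ⟨i, hX⟩

theorem Fam.unique (hQ : Fam 𝔸 B F 1 1 Q) {I : Type} [Finite I]
    {f : (I → A) → A} (hf : Dom 𝔸 B F f) {i j : I} (hi : {i} ∈ Q I f) (hj : {j} ∈ Q I f) :
    i = j := by
  by_contra hij
  refine hQ.dj I f hf ⟨fun t => if t = 0 then {i} else {j}, ?_, ?_⟩
  · intro t
    by_cases ht : t = 0
    · simpa [ht] using hi
    · simpa [ht] using hj
  · intro t t' htt
    have key : ∀ t : Fin 2, t = 0 ∨ t = 1 := by decide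
    rcases key t with rfl | rfl <;> rcases key t' with rfl | rfl
    · exact absurd rfl htt
    · simp [Set.disjoint_singleton, hij]
    · simp [Set.disjoint_singleton, Ne.symm hij]
    · exact absurd rfl htt

theorem Dom.minor {I J : Type} {f : (I → A) → A} (hf : Dom 𝔸 B F f) (π : I → J) :
    Dom 𝔸 B F (minor π f) :=
  ⟨fun l x hx => hf.poly l (fun i => x (π i)) (fun i => hx _), fun c hc => hf.idem c hc,
    fun x hx => hf.mem _ (fun i => hx _)⟩

theorem pf_COL : T_COL := by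
  classical
  intro σ A 𝔸 B F Q hB hF hQ
  -- left inverses on `F`
  let P : (F → A) → Prop := fun z => ∃ g', IsHom 𝔸 𝔸 g' ∧ ∀ c : F, g' (z c) = c
  let G : (F → A) → A → A := fun z => if h : P z then h.choose else id
  have hG : ∀ z, P z → IsHom 𝔸 𝔸 (G z) ∧ ∀ c : F, G z (z c) = c := by
    intro z hz
    have e : G z = hz.choose := dif_pos hz
    rw [e]
    exact hz.choose_spec
  let dg : ((Fin 3 → F) → A) → F → A := fun u c => u (fun _ => c)
  let us : ((Arc3 → A) → A) → (Fin 3 → F) → A := fun h x => h (fun a => (x a.1.1 : A))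
  let ut : ((Arc3 → A) → A) → (Fin 3 → F) → A := fun h x => h (fun a => (x a.1.2 : A))
  have hP : ∀ h : (Arc3 → A) → A, IsPoly 𝔸 𝔸 h → P (dg (us h)) := by
    intro h hh
    obtain ⟨g', hg', hc⟩ := hB.rigid F hF (fun a => h (fun _ => a))
      (fun l x hx => hh l (fun _ => x) (fun _ => hx))
    exact ⟨g', hg', fun c => hc c c.2⟩
  -- finitely many edges
  have hfin : ∀ 𝓗 : Finset {h : (Arc3 → A) → A // IsPoly 𝔸 𝔸 h},
      ∃ c : ((Fin 3 → F) → A) → Fin 3, ∀ h ∈ 𝓗, c (us h.1) ≠ c (ut h.1) := by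
    intro 𝓗
    obtain ⟨e, he, heF, heB⟩ := hB.absorb F (𝓗.biUnion fun h =>
      Finset.univ.image fun y : Arc3 → F => G (dg (us h.1)) (h.1 (fun a => (y a : A)))) hF
    let ok : ((Fin 3 → F) → A) → Fin 3 → Prop := fun u i =>
      ∃ f : (Fin 3 → A) → A, Dom 𝔸 B F f ∧
        (∀ x : Fin 3 → F, f (fun a => (x a : A)) = e (G (dg u) (u x))) ∧ {i} ∈ Q (Fin 3) f
    have hok : ∀ u i j, ok u i → ok u j → i = j := by
      rintro u i j ⟨f, hf, hfx, hi⟩ ⟨f', hf', hfx', hj⟩
      have h1 : Q (Fin 3) f = Q (Fin 3) f' := hQ.cov.congr hf hf' (by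
        intro x hx
        have h2 := hfx (fun a => ⟨x a, hx a⟩)
        have h3 := hfx' (fun a => ⟨x a, hx a⟩)
        exact h3.trans h2.symm)
      rw [← h1] at hj
      exact hQ.unique hf hi hj
    refine ⟨fun u => if h : ∃ i, ok u i then h.choose else 0, fun h hh => ?_⟩
    have hc : ∀ u i, ok u i → (if h : ∃ i, ok u i then h.choose else 0) = i := by
      intro u i hi
      have h1 : ∃ i, ok u i := ⟨i, hi⟩
      rw [dif_pos h1]
      exact hok u _ _ h1.choose_spec hi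
    obtain ⟨hz1, hz2⟩ := hG _ (hP h.1 h.2)
    have hd : Dom 𝔸 B F (fun x : Arc3 → A => e (G (dg (us h.1)) (h.1 x))) := by
      refine ⟨?_, ?_, ?_⟩
      · intro l x hx
        exact he l _ (hz1 l _ (h.2 l x hx))
      · intro c hcF
        have h1 := hz2 ⟨c, hcF⟩
        change G (dg (us h.1)) (h.1 (fun _ => c)) = c at h1
        change e (G (dg (us h.1)) (h.1 (fun _ => c))) = c
        rw [h1]
        exact heF c hcF
      · intro x hx
        refine heB _ (Finset.mem_biUnion.2 ⟨h, hh, Finset.mem_image.2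
          ⟨fun a => ⟨x a, hx a⟩, Finset.mem_univ _, rfl⟩⟩)
    have : Nonempty Arc3 := ⟨⟨(0, 1), by decide⟩⟩
    obtain ⟨a, ha⟩ := hQ.single hd
    have h1 : ok (us h.1) a.1.1 := by
      refine ⟨minor (fun b : Arc3 => b.1.1) _, hd.minor _, fun x => rfl, ?_⟩
      have h2 := hQ.cov _ _ _ _ _ hd (hd.minor (fun b : Arc3 => b.1.1)) (mnr_minor _ _) _ ha
      rwa [Set.image_singleton] at h2
    have h2 : ok (ut h.1) a.1.2 := by
      refine ⟨minor (fun b : Arc3 => b.1.2) _, hd.minor _, fun x => rfl, ?_⟩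
      have h2 := hQ.cov _ _ _ _ _ hd (hd.minor (fun b : Arc3 => b.1.2)) (mnr_minor _ _) _ ha
      rwa [Set.image_singleton] at h2
    have e1 := hc (us h.1) a.1.1 h1
    have e2 := hc (ut h.1) a.1.2 h2
    intro heq
    exact a.2 (e1.symm.trans (heq.trans e2))
  -- compactness
  have hcomp := (isCompact_univ (X := ((Fin 3 → F) → A) → Fin 3)).inter_iInter_nonempty
    (fun h : {h : (Arc3 → A) → A // IsPoly 𝔸 𝔸 h} => {c | c (us h.1) ≠ c (ut h.1)})
    (by
      intro h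
      have h1 : Continuous (fun c : ((Fin 3 → F) → A) → Fin 3 => (c (us h.1), c (ut h.1))) :=
        (continuous_apply _).prodMk (continuous_apply _)
      exact (isClosed_discrete {p : Fin 3 × Fin 3 | p.1 ≠ p.2}).preimage h1)
    (by
      intro 𝓗
      obtain ⟨c, hc⟩ := hfin 𝓗
      refine ⟨c, Set.mem_univ _, ?_⟩
      simp only [Set.mem_iInter]
      exact fun h hh => hc h hh)
  obtain ⟨c, -, hc⟩ := hcomp
  refine ⟨c, fun h hh => ?_⟩
  rw [Set.mem_iInter] at hc
  exact hc ⟨h, hh⟩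

end Pool.Agent.H58.SF
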