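import Pool.Agent.H68.BG.Conj

/-!
# Small families of sets and pp-constructions of the complete graph with three vertices
-/

namespace Pool.Agent.H58.SF

open Pool.Agent.H68.BP

variable {σ τ : Sig} {A S T : Type}

/-- `f` is a homomorphism from the power of `𝕊` with exponent `I` to `𝕋`. -/
def IsPoly (𝕊 : Str σ S) (𝕋 : Str σ T) {I : Type} (f : (I → S) → T) : Prop :=
  ∀ (l : Fin σ.m) (x : I → Fin (σ.ar l) → S), (∀ i, 𝕊 l (x i)) →
    𝕋 l (fun k => f (fun i => x i k))

/-- The minor of `f` given by `π`. -/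
def minor {I J : Type} (π : I → J) (f : (I → S) → T) : (J → S) → T :=
  fun x => f (fun i => x (π i))

/-- For every `n` there are finitely many `n`-tuples such that every `n`-tuple is the image of one
of them under an automorphism. -/
def Oligo (𝔸 : Str σ A) : Prop :=
  ∀ n : ℕ, ∃ R : Finset (Fin n → A), ∀ x : Fin n → A, ∃ y ∈ R, ∃ g : A ≃ A,
    IsAut 𝔸 g ∧ ∀ i, g (y i) = x i

/-- The family `𝓠` contains `b` pairwise disjoint sets. -/
def HasDisj {I : Type} (𝓠 : Set (Set I)) (b : ℕ) : Prop :=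
  ∃ X : Fin b → Set I, (∀ j, X j ∈ 𝓠) ∧ ∀ j j', j ≠ j' → Disjoint (X j) (X j')

/-- Finitely many covariant families of small sets; for every `f` one of them is nonempty
and does not contain many pairwise disjoint sets. -/
def SmallFamilies (𝕊 : Str σ S) (𝕋 : Str σ T) : Prop :=
  ∃ (k N : ℕ) (Q : Fin k → (I : Type) → ((I → S) → T) → Set (Set I)),
    (∀ (c : Fin k) (I : Type) [Finite I] (f : (I → S) → T), IsPoly 𝕊 𝕋 f →
      ∀ X ∈ Q c I f, X.Nonempty ∧ X.ncard ≤ N) ∧
    (∀ (c : Fin k) (I J : Type) [Finite I] [Finite J] (π : I → J) (f : (I → S) → T),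
      IsPoly 𝕊 𝕋 f → ∀ X ∈ Q c I f, π '' X ∈ Q c J (minor π f)) ∧
    ∀ (I : Type) [Finite I] [Nonempty I] (f : (I → S) → T), IsPoly 𝕊 𝕋 f →
      ∃ c, (Q c I f).Nonempty ∧ ¬ HasDisj (Q c I f) (N + 1)

/-- The selection criterion (Brandts, Wrochna, Živný): the homomorphisms from powers of `𝕊` to
`𝕋` fall into finitely many classes, and to each of them at most `N` coordinates are assigned
such that for each minor in the same class the image of the set of selected coordinates meets the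
set of selected coordinates. -/
def BoundedSelection (𝕊 : Str σ S) (𝕋 : Str σ T) : Prop :=
  ∃ (k N : ℕ) (cls : (I : Type) → ((I → S) → T) → Fin k)
    (Sel : (I : Type) → ((I → S) → T) → Set I),
    (∀ (I : Type) [Finite I] [Nonempty I] (f : (I → S) → T), IsPoly 𝕊 𝕋 f →
      (Sel I f).ncard ≤ N) ∧
    ∀ (I J : Type) [Finite I] [Nonempty I] [Finite J] (π : I → J) (f : (I → S) → T),
      IsPoly 𝕊 𝕋 f → cls I f = cls J (minor π f) →
      (π '' Sel I f ∩ Sel J (minor π f)).Nonempty

/-- There is a homomorphism `o` from the sixth power of `𝕊` to `𝕋` with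
`o (x, x, y, y, y, x) = o (x, y, x, y, x, y) = o (y, x, x, x, y, y)` (an Olšák function). -/
def HasOlsak (𝕊 : Str σ S) (𝕋 : Str σ T) : Prop :=
  ∃ o : (Fin 6 → S) → T, IsPoly 𝕊 𝕋 o ∧ ∀ x y : S,
    o ![x, x, y, y, y, x] = o ![x, y, x, y, x, y] ∧
    o ![x, y, x, y, x, y] = o ![y, x, x, x, y, y]

/-- The relation `E` has a closed walk of odd length. -/
def OddWalk {X : Type} (E : X → X → Prop) : Prop :=
  ∃ (n : ℕ) (w : ℕ → X), (∀ i, E (w i) (w (i + 1))) ∧ ∀ i, w (i + (2 * n + 1)) = w i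

/-- Odd potential: a bounded antisymmetric integer function, odd on edges, with sum zero over each
closed walk of length four. -/
def OddPotential {X : Type} (E : X → X → Prop) : Prop :=
  ∃ (W : X → X → ℤ) (M : ℕ), (∀ x y, W y x = -W x y) ∧ (∀ x y, |W x y| ≤ M) ∧
    (∀ x y, E x y → Odd (W x y)) ∧
    ∀ a b c d, E a b → E b c → E c d → E d a → W a b + W b c + W c d + W d a = 0

/-! ### Levels -/

/-- Every endomorphism can be undone on `F` by an endomorphism. -/
def RigidSet (𝔸 : Str σ A) (F : Set A) : Prop :=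
  ∀ g, IsHom 𝔸 𝔸 g → ∃ g', IsHom 𝔸 𝔸 g' ∧ ∀ c ∈ F, g' (g c) = c

/-- All finite subsets of `B` are rigid, and `B` absorbs all finite sets. -/
structure Frame (𝔸 : Str σ A) (B : Set A) : Prop where
  rigid : ∀ F : Finset A, (F : Set A) ⊆ B → RigidSet 𝔸 (F : Set A)
  absorb : ∀ F X : Finset A, (F : Set A) ⊆ B →
    ∃ e, IsHom 𝔸 𝔸 e ∧ (∀ c ∈ F, e c = c) ∧ ∀ c ∈ X, e c ∈ B

/-- The functions of the level `F`. -/
structure Dom (𝔸 : Str σ A) (B : Set A) (F : Finset A) {I : Type} (f : (I → A) → A) :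
    Prop where
  poly : IsPoly 𝔸 𝔸 f
  idem : ∀ c ∈ F, f (fun _ => c) = c
  mem : ∀ x : I → A, (∀ i, x i ∈ F) → f x ∈ B

/-- `g` is on `F` the minor of `f` given by `π`. -/
def Mnr (F : Finset A) {I J : Type} (f : (I → A) → A) (π : I → J) (g : (J → A) → A) : Prop :=
  ∀ x : J → A, (∀ j, x j ∈ F) → g x = f (fun i => x (π i))

/-- A covariant assignment of families of sets of coordinates at the level `F`. -/
def Cov (𝔸 : Str σ A) (B : Set A) (F : Finset A)
    (Q : (I : Type) → ((I → A) → A) → Set (Set I)) : Prop :=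
  ∀ (I J : Type) [Finite I] [Finite J] (π : I → J) (f : (I → A) → A) (g : (J → A) → A),
    Dom 𝔸 B F f → Dom 𝔸 B F g → Mnr F f π g → ∀ X ∈ Q I f, π '' X ∈ Q J g

/-- A family at the level `F`: covariant, nonempty, its members are nonempty and have at most `N`
elements, and no `b + 1` of them are pairwise disjoint. -/
structure Fam (𝔸 : Str σ A) (B : Set A) (F : Finset A) (N b : ℕ)
    (Q : (I : Type) → ((I → A) → A) → Set (Set I)) : Prop where
  cov : Cov 𝔸 B F Q
  ne : ∀ (I : Type) [Finite I] [Nonempty I] (f : (I → A) → A), Dom 𝔸 B F f → (Q I f).Nonempty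
  sz : ∀ (I : Type) [Finite I] (f : (I → A) → A), Dom 𝔸 B F f →
    ∀ X ∈ Q I f, X.Nonempty ∧ X.ncard ≤ N
  dj : ∀ (I : Type) [Finite I] (f : (I → A) → A), Dom 𝔸 B F f → ¬ HasDisj (Q I f) (b + 1)

/-- The composition `(g * f) x = g (k ↦ f (x (k, ·)))`. -/
def star {K I : Type} (g : (K → A) → A) (f : (I → A) → A) : (K × I → A) → A :=
  fun x => g (fun k => f (fun i => x (k, i)))

/-- `G` contains `F` and all values of `f` on `F`. -/
def Above (F : Finset A) {I : Type} (f : (I → A) → A) (G : Finset A) : Prop :=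
  F ⊆ G ∧ ∀ x : I → A, (∀ i, x i ∈ F) → f x ∈ G

/-- The set `Y` of coordinates of `f` is robust: at some level above `f` every `g` has a member of
the family of `g * f` over `Y`. -/
def Robust (𝔸 : Str σ A) (B : Set A) (F : Finset A)
    (Q : (I : Type) → ((I → A) → A) → Set (Set I)) (I : Type) (f : (I → A) → A) :
    Set (Set I) :=
  {Y | ∃ G : Finset A, (G : Set A) ⊆ B ∧ Above F f G ∧
    ∀ (K : Type) [Finite K] [Nonempty K] (g : (K → A) → A), Dom 𝔸 B G g →
      ∃ Z ∈ Q (K × I) (star g f), Prod.snd '' Z = Y}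

/-- `h` preserves the relations as far as only elements of `F` are used. -/
def PartPoly (𝔸 : Str σ A) (F : Finset A) {J : Type} (h : (J → A) → A) : Prop :=
  ∀ (l : Fin σ.m) (x : J → Fin (σ.ar l) → A), (∀ j k, x j k ∈ F) → (∀ j, 𝔸 l (x j)) →
    𝔸 l (fun k => h (fun j => x j k))

/-- The arcs of the complete graph with three vertices. -/
abbrev Arc3 : Type := {p : Fin 3 × Fin 3 // p.1 ≠ p.2}

end Pool.Agent.H58.SF
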