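import Pool.Agent.H53.FC.Class
import Pool.Agent.H50.TP.Graph
import Pool.Agent.H1.SF.P2

/-!
# A class of graphs for which the conjecture is proved
-/

namespace Pool.Agent.H58.SF

open Pool.Agent.H68.BP

/-- `(D; E)` has a homomorphism to a finite undirected graph without loops in which no two different
vertices have three different common neighbours (no `K₂,₃`). -/
def SparseGraph {D : Type} (E : D → D → Prop) : Prop :=
  ∃ (T : Type) (R : T → T → Prop) (r : D → T), Finite T ∧ (∀ u v, R u v → R v u) ∧
    (∀ u, ¬ R u u) ∧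
    (∀ a a' a'' b b', b ≠ b' → R a b → R a b' → R a' b → R a' b' → R a'' b → R a'' b' →
      a = a' ∨ a' = a'' ∨ a = a'') ∧
    ∀ x y, E x y → R (r x) (r y)

theorem SparseGraph.twoPotGraph {D : Type} {E : D → D → Prop} (h : SparseGraph E) :
    Pool.Agent.H50.TP.TwoPotGraph E := by
  obtain ⟨T, R, r, hT, hs, hl, h, hr⟩ := h
  exact Pool.Agent.H50.TP.twoPotGraph_no_K23 hT hs hl h r hr

end Pool.Agent.H58.SF
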