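import Pool.Agent.H58.SF.Targets2
import Pool.Agent.H18.SF.CP

/-!
# Limits of functions up to automorphisms
-/

namespace Pool.Agent.H58.SF

open Pool.Agent.H68.BP Filter

variable {σ : Sig} {A : Type} {𝔸 : Str σ A}

theorem isAut_trans' {g h : A ≃ A} (hg : IsAut 𝔸 g) (hh : IsAut 𝔸 h) : IsAut 𝔸 (g.trans h) :=
  fun l x => (hg l x).trans (hh l _)

theorem isAut_symm' {g : A ≃ A} (hg : IsAut 𝔸 g) : IsAut 𝔸 g.symm := by
  intro l x
  have h1 := hg l (fun i => g.symm (x i))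
  simp only [Equiv.apply_symm_apply] at h1
  exact h1.symm

/-- `H` is on `X` almost always an automorphic image -/
def Alm (𝔸 : Str σ A) {E : Type} (h : ℕ → E → A) (X : Finset E) (H : E → A) : Prop :=
  ∀ᶠ m in (hyperfilter ℕ : Filter ℕ), ∃ g : A ≃ A, IsAut 𝔸 g ∧ ∀ x ∈ X, H x = g (h m x)

theorem alm_exists (hO : Oligo 𝔸) {E : Type} (h : ℕ → E → A) (X : Finset E) :
    ∃ H : E → A, Alm 𝔸 h X H := by
  classical
  obtain ⟨R, hR⟩ := Pool.Agent.H18.SF.oligo_fin hO X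
  have h1 : (⋃ y ∈ (R : Set (X → A)), {m : ℕ | ∃ g : A ≃ A, IsAut 𝔸 g ∧
      ∀ x : X, y x = g (h m x)}) ∈ hyperfilter ℕ := by
    have h2 : (⋃ y ∈ (R : Set (X → A)), {m : ℕ | ∃ g : A ≃ A, IsAut 𝔸 g ∧
        ∀ x : X, y x = g (h m x)}) = Set.univ := by
      rw [Set.eq_univ_iff_forall]
      intro m
      obtain ⟨y, hy, g, hg, hgy⟩ := hR (fun x => h m x)
      simp only [Set.mem_iUnion]
      refine ⟨y, hy, g.symm, isAut_symm' hg, fun x => ?_⟩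
      rw [← hgy x, Equiv.symm_apply_apply]
    rw [h2]
    exact Filter.univ_mem
  obtain ⟨y, -, hy⟩ := (Ultrafilter.finite_biUnion_mem_iff R.finite_toSet).1 h1
  refine ⟨fun x => if hx : x ∈ X then y ⟨x, hx⟩ else h 0 x, ?_⟩
  have hy' : ∀ᶠ m in (hyperfilter ℕ : Filter ℕ), ∃ g : A ≃ A, IsAut 𝔸 g ∧
      ∀ x : X, y x = g (h m x) := hy
  refine hy'.mono ?_
  rintro m ⟨g, hg, hgm⟩
  refine ⟨g, hg, fun x hx => ?_⟩
  exact (dif_pos hx).trans (hgm ⟨x, hx⟩)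

theorem alm_ext (hO : Oligo 𝔸) {E : Type} (h : ℕ → E → A) (X Y : Finset E) (hXY : X ⊆ Y)
    (H : E → A) (hH : Alm 𝔸 h X H) :
    ∃ H' : E → A, Alm 𝔸 h Y H' ∧ ∀ x ∈ X, H' x = H x := by
  obtain ⟨H₁, h1⟩ := alm_exists hO h Y
  obtain ⟨m, ⟨g, hg, hgm⟩, g₁, hg₁, hgm₁⟩ := (hH.and h1).exists
  refine ⟨fun x => g (g₁.symm (H₁ x)), ?_, fun x hx => ?_⟩
  · refine h1.mono ?_
    rintro k ⟨g₂, hg₂, hk⟩
    refine ⟨(g₂.trans g₁.symm).trans g, isAut_trans' (isAut_trans' hg₂ (isAut_symm' hg₁)) hg,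
      fun x hx => ?_⟩
    change g (g₁.symm (H₁ x)) = _
    rw [hk x hx]
    rfl
  · change g (g₁.symm (H₁ x)) = H x
    rw [hgm₁ x (hXY hx), Equiv.symm_apply_apply, hgm x hx]

theorem pf_GL : T_GL := by
  classical
  intro σ A 𝔸 hO E _ h
  obtain ⟨ν, hν⟩ := exists_injective_nat E
  have hX : ∀ n : ℕ, ∃ X : Finset E, ∀ a, a ∈ X ↔ ν a < n := by
    intro n
    have hfin : {a : E | ν a < n}.Finite :=
      Set.Finite.of_finite_image ((Set.finite_Iio n).subset (by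
        rintro m ⟨a, ha, rfl⟩
        exact ha)) hν.injOn
    exact ⟨hfin.toFinset, fun a => by simp⟩
  choose X hX using hX
  have hmono : ∀ m n, m ≤ n → X m ⊆ X n := by
    intro m n hmn a ha
    rw [hX] at ha ⊢
    omega
  have h0 : Alm 𝔸 h (X 0) (h 0) := by
    refine Filter.Eventually.of_forall fun m => ⟨Equiv.refl A, fun l x => Iff.rfl, ?_⟩
    intro x hx
    rw [hX] at hx
    omega
  have key : ∀ (m : ℕ) (H : {H : E → A // Alm 𝔸 h (X m) H}),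
      ∃ H' : {H' : E → A // Alm 𝔸 h (X (m + 1)) H'}, ∀ x ∈ X m, H'.1 x = H.1 x := by
    intro m H
    obtain ⟨H', h1, h2⟩ := alm_ext hO h (X m) (X (m + 1)) (hmono m (m + 1) (by omega)) H.1 H.2
    exact ⟨⟨H', h1⟩, h2⟩
  choose nx hnx using key
  let S : (m : ℕ) → {H : E → A // Alm 𝔸 h (X m) H} := fun m =>
    Nat.rec (motive := fun m => {H : E → A // Alm 𝔸 h (X m) H}) ⟨h 0, h0⟩ nx m
  have hS : ∀ m, ∀ x ∈ X m, (S (m + 1)).1 x = (S m).1 x := fun m x hx => hnx m (S m) x hx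
  have hS' : ∀ m n, m ≤ n → ∀ x ∈ X m, (S n).1 x = (S m).1 x := by
    intro m n hmn x hx
    induction n, hmn using Nat.le_induction with
    | base => rfl
    | succ n hn ih => rw [hS n x (hmono m n hn hx), ih]
  have hH : ∀ n, ∀ x ∈ X n, (S (ν x + 1)).1 x = (S n).1 x := by
    intro n x hx
    have h1 : x ∈ X (ν x + 1) := by
      rw [hX]
      omega
    have h2 : ν x + 1 ≤ n := by
      rw [hX] at hx
      omega
    exact (hS' _ n h2 x h1).symm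
  refine ⟨fun x => (S (ν x + 1)).1 x, fun Y n => ?_⟩
  obtain ⟨r, hr⟩ : ∃ r, Y ⊆ X r := by
    refine ⟨Y.sup ν + 1, fun x hx => ?_⟩
    rw [hX]
    exact Nat.lt_succ_of_le (Finset.le_sup (f := ν) hx)
  have h1 : ∀ᶠ m in (hyperfilter ℕ : Filter ℕ), n ≤ m := by
    have h2 : (hyperfilter ℕ : Filter ℕ) ≤ Filter.cofinite := hyperfilter_le_cofinite
    rw [Nat.cofinite_eq_atTop] at h2
    exact h2 (Filter.eventually_ge_atTop n)
  obtain ⟨m, ⟨g, hg, hgm⟩, hnm⟩ := ((S r).2.and h1).exists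
  refine ⟨m, hnm, g, hg, fun x hx => ?_⟩
  change (S (ν x + 1)).1 x = _
  rw [hH r x (hr hx)]
  exact hgm x (hr hx)

end Pool.Agent.H58.SF
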