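import Pool.Agent.H58.SF.Targets2

/-!
# Natural colourings of the sets of coordinates give families
-/

namespace Pool.Agent.H58.SF

open Pool.Agent.H68.BP

theorem HasDisj.mono {I : Type} {𝓠 : Set (Set I)} {b b' : ℕ} (h : HasDisj 𝓠 b) (hb : b' ≤ b) :
    HasDisj 𝓠 b' := by
  obtain ⟨X, hX, hdis⟩ := h
  refine ⟨fun j => X (Fin.castLE hb j), fun j => hX _, fun j j' hj => hdis _ _ ?_⟩
  intro he
  exact hj (Fin.castLE_injective hb he)

theorem pf_HL (hTK : T_TK) (hLC : T_LC) : T_HL := by
  classical
  intro σ A 𝔸 B F m φ hF hnat hnae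
  let e : Finset (Fin m) ≃ Fin (Fintype.card (Finset (Fin m))) := Fintype.equivFin _
  let QC : Finset (Fin m) → (I : Type) → ((I → A) → A) → Set (Set I) := fun C I f =>
    {Z | Z.Nonempty ∧ Z.ncard ≤ (m + 3) ^ C.card ∧ ∀ X, Z ⊆ X → φ I f X ∉ C}
  have key := hLC σ A 𝔸 B F (Fintype.card (Finset (Fin m))) ((m + 3) ^ (m + 1))
    (fun c => QC (e.symm c)) hF
  suffices hsuff : ∃ (G : Finset A) (Q' : (I : Type) → ((I → A) → A) → Set (Set I)),
      (G : Set A) ⊆ B ∧ Fam 𝔸 B G ((m + 3) ^ (m + 1)) ((m + 3) ^ (m + 1)) Q' by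
    obtain ⟨G, Q', hG, hfam⟩ := hsuff
    exact ⟨G, _, Q', hG, hfam⟩
  refine key ?_ ?_ ?_
  · rintro c I J _ _ π f g hf hg hm X ⟨h1, h2, h3⟩
    refine ⟨h1.image _, (Set.ncard_image_le (Set.toFinite _)).trans h2, fun Y hY => ?_⟩
    rw [hnat I J π f g hf hg hm Y]
    exact h3 _ (Set.image_subset_iff.1 hY)
  · rintro c I _ f hf X ⟨h1, h2, h3⟩
    refine ⟨h1, h2.trans (Nat.pow_le_pow_right (by omega) ?_)⟩
    have := Finset.card_le_univ (e.symm c)
    rw [Fintype.card_fin] at this
    omega
  · intro I _ hI f hf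
    obtain ⟨i₀⟩ := hI
    have h0 : (Finset.univ.filter fun C : Finset (Fin m) => (QC C I f).Nonempty).Nonempty := by
      refine ⟨∅, Finset.mem_filter.2 ⟨Finset.mem_univ _, {i₀}, Set.singleton_nonempty _, ?_, ?_⟩⟩
      · rw [Set.ncard_singleton, Finset.card_empty, pow_zero]
      · intro X _
        exact Finset.notMem_empty _
    obtain ⟨C, hC, hmax⟩ := Finset.exists_max_image _ Finset.card h0
    have hCne := (Finset.mem_filter.1 hC).2
    refine ⟨e C, ?_, ?_⟩
    · change (QC (e.symm (e C)) I f).Nonempty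
      rw [Equiv.symm_apply_apply]
      exact hCne
    · change ¬ HasDisj (QC (e.symm (e C)) I f) _
      rw [Equiv.symm_apply_apply]
      intro hdis
      have hb : m + 2 ≤ (m + 3) ^ (m + 1) + 1 := by
        have : m + 3 ≤ (m + 3) ^ (m + 1) := Nat.le_self_pow (by omega) _
        omega
      obtain ⟨Z, hZ, hd⟩ := hdis.mono hb
      obtain ⟨X, Y, h1, h2, h3, h4⟩ := hTK I m ((m + 3) ^ C.card) (φ I f) C Z
        (fun j => (hZ j).1) (fun j => (hZ j).2.1) hd (fun j => (hZ j).2.2)
      have hmem : insert (φ I f X) C ∈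
          Finset.univ.filter fun C : Finset (Fin m) => (QC C I f).Nonempty := by
        refine Finset.mem_filter.2 ⟨Finset.mem_univ _, (X ∪ Y)ᶜ ∪ Z 0, ?_, ?_, ?_⟩
        · exact (hZ 0).1.mono Set.subset_union_right
        · rw [Finset.card_insert_of_notMem h3, pow_succ]
          have h5 := Set.ncard_union_le (X ∪ Y)ᶜ (Z 0)
          have h6 := (hZ 0).2.1
          have h7 : (m + 1) * (m + 3) ^ C.card + (m + 3) ^ C.card ≤
              (m + 3) ^ C.card * (m + 3) := by
            have : (m + 3) ^ C.card * (m + 3) =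
              (m + 1) * (m + 3) ^ C.card + 2 * (m + 3) ^ C.card := by ring
            omega
          omega
        · intro W hW hmemW
          have hWC : φ I f W ∉ C := (hZ 0).2.2 W (Set.subset_union_right.trans hW)
          rcases Finset.mem_insert.1 hmemW with h8 | h8
          · refine hnae I f hf X Y W ?_ ⟨h2, h2.symm.trans h8.symm⟩
            intro i
            by_cases hiX : i ∈ X
            · have hiY : i ∉ Y := fun h => Set.disjoint_left.1 h1 hiX h
              rintro ⟨h9, -⟩
              exact hiY (h9.1 hiX)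
            · by_cases hiY : i ∈ Y
              · rintro ⟨h9, -⟩
                exact hiX (h9.2 hiY)
              · rintro ⟨-, h9⟩
                refine hiY (h9.2 (hW (Or.inl ?_)))
                rintro (h | h)
                · exact hiX h
                · exact hiY h
          · exact hWC h8
      have h5 := hmax _ hmem
      rw [Finset.card_insert_of_notMem h3] at h5
      omega

end Pool.Agent.H58.SF
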