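import Pool.Agent.H58.SF.Targets

/-!
# Lemma C: from finitely many families to one family
-/

namespace Pool.Agent.H58.SF

open Pool.Agent.H68.BP

variable {σ : Sig} {A : Type} {𝔸 : Str σ A} {B : Set A} {F G H : Finset A} {k N : ℕ}
  {Q : Fin k → (I : Type) → ((I → A) → A) → Set (Set I)} {I J K L : Type}

/-- good colour -/
def Good (Q : Fin k → (I : Type) → ((I → A) → A) → Set (Set I)) (N : ℕ) (c : Fin k)
    (I : Type) (f : (I → A) → A) : Prop :=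
  (Q c I f).Nonempty ∧ ¬ HasDisj (Q c I f) (N + 1)

theorem Good.equiv [Finite I] [Finite J] {c : Fin k} (hQ : Cov 𝔸 B F (Q c)) (e : I ≃ J)
    {f : (I → A) → A} {g : (J → A) → A} (hf : Dom 𝔸 B F f) (hg : Dom 𝔸 B F g)
    (h1 : Mnr F f e g) (h2 : Mnr F g e.symm f) (h : Good Q N c I f) : Good Q N c J g := by
  obtain ⟨⟨X, hX⟩, hd⟩ := h
  refine ⟨⟨e '' X, hQ _ _ _ _ _ hf hg h1 X hX⟩, ?_⟩
  rintro ⟨Y, hY, hdis⟩
  refine hd ⟨fun j => e.symm '' Y j, fun j => hQ _ _ _ _ _ hg hf h2 _ (hY j), ?_⟩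
  intro j j' hj
  exact (Set.disjoint_image_iff e.symm.injective).2 (hdis j j' hj)

/-- colours which occur above `f` -/
def Occ (𝔸 : Str σ A) (B : Set A) (Q : Fin k → (I : Type) → ((I → A) → A) → Set (Set I))
    (N : ℕ) {I : Type} (f : (I → A) → A) (G : Finset A) : Set (Fin k) :=
  {c | ∃ (K : Type) (_ : Finite K) (_ : Nonempty K) (g : (K → A) → A), Dom 𝔸 B G g ∧
    Good Q N c (K × I) (star g f)}

theorem pf_LC (hRA : T_RA) (hRB : T_RB) : T_LC := by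
  classical
  intro σ A 𝔸 B F k N Q hF hcov hsz hgood
  -- the minimal choice
  have hex : ∃ n : ℕ, ∃ (I : Type) (_ : Finite I) (_ : Nonempty I) (f : (I → A) → A)
      (G : Finset A), Dom 𝔸 B F f ∧ (G : Set A) ⊆ B ∧ Above F f G ∧
        (Occ 𝔸 B Q N f G).ncard = n := by
    have hu : Dom 𝔸 B F (fun x : Unit → A => x ()) := dom_unit hF
    exact ⟨_, Unit, inferInstance, inferInstance, _, F, hu, hF,
      ⟨subset_rfl, fun x hx => hx ()⟩, rfl⟩
  obtain ⟨I₀, hI1, hI2, f₀, G₀, hf₀, hG₀, hab, hn⟩ := Nat.find_spec hex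
  have hmin : ∀ (I : Type) [Finite I] [Nonempty I] (f : (I → A) → A) (G : Finset A),
      Dom 𝔸 B F f → (G : Set A) ⊆ B → Above F f G →
        (Occ 𝔸 B Q N f₀ G₀).ncard ≤ (Occ 𝔸 B Q N f G).ncard := by
    intro I _ _ f G h1 h2 h3
    rw [hn]
    exact Nat.find_min' hex ⟨I, inferInstance, inferInstance, f, G, h1, h2, h3, rfl⟩
  -- Claim 1
  have claim : ∀ (K : Type) [Finite K] [Nonempty K] (g : (K → A) → A) (G : Finset A),
      Dom 𝔸 B G₀ g → (G : Set A) ⊆ B → Above G₀ g G →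
        Occ 𝔸 B Q N (star g f₀) G = Occ 𝔸 B Q N f₀ G₀ := by
    intro K _ _ g₁ G hg₁ hG hgG
    refine Set.eq_of_subset_of_ncard_le ?_ (hmin _ _ _ (hf₀.star hg₁ hab) hG
      (hab.trans_star hgG)) (Set.toFinite _)
    rintro c ⟨L, hL1, hL2, g, hg, hgc⟩
    have hd : Dom 𝔸 B G₀ (star g g₁) := hg₁.star hg hgG
    refine ⟨L × K, inferInstance, inferInstance, star g g₁, hd, ?_⟩
    exact Good.equiv (hcov c) (Equiv.prodAssoc L K I₀).symm
      ((hf₀.star hg₁ hab).star hg (hab.trans_star hgG)) (hf₀.star hd hab)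
      (fun _ _ => rfl) (fun _ _ => rfl) hgc
  -- a colour
  obtain ⟨c, hc⟩ : ∃ c, c ∈ Occ 𝔸 B Q N f₀ G₀ := by
    have hu : Dom 𝔸 B G₀ (fun x : Unit → A => x ()) := dom_unit hG₀
    obtain ⟨c, hc⟩ := hgood (Unit × I₀) (star (fun x : Unit → A => x ()) f₀) (hf₀.star hu hab)
    exact ⟨c, Unit, inferInstance, inferInstance, _, hu, hc⟩
  obtain ⟨hR1, hR2⟩ := hRB σ A 𝔸 B F (Q c) hF (hcov c)
  refine ⟨G₀, fun K g => {X | ∃ Y ∈ Robust 𝔸 B F (Q c) (K × I₀) (star g f₀),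
    X = Prod.fst '' Y}, hG₀, ⟨?_, ?_, ?_, ?_⟩⟩
  · rintro K L _ _ τ g g' hg hg' hm X ⟨Y, hY, rfl⟩
    refine ⟨Prod.map τ id '' Y, hR1 _ _ _ _ _ (hf₀.star hg hab) (hf₀.star hg' hab)
      (mnr_star_left hab hm) Y hY, ?_⟩
    rw [Set.image_image, Set.image_image]
    rfl
  · intro K _ _ g₁ hg₁
    obtain ⟨G, hG, hgG, hGG⟩ := exists_above hG₀ hG₀ hg₁
    have hf₁ := hf₀.star hg₁ hab
    obtain ⟨Y, hY⟩ := hRA σ A 𝔸 B F (Q c) hF (hcov c) (K × I₀) (star g₁ f₀) hf₁ G hG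
      (hab.trans_star hgG) (by
        intro L _ _ g hg
        have hd : Dom 𝔸 B G₀ (star g g₁) := hg₁.star hg hgG
        obtain ⟨G', hG', hgG', hGG'⟩ := exists_above hG₀ hG₀ hd
        have h1 := claim _ _ _ hd hG' hgG'
        rw [← h1] at hc
        obtain ⟨M, hM1, hM2, g', hg', ⟨Z, hZ⟩, -⟩ := hc
        have hd2 := hf₀.star hd hab
        have h2 := hcov c _ _ _ _ _ (hd2.star hg' (hab.trans_star hgG')) hd2
          (mnr_star_snd hg' (hab.trans_star hgG')) Z hZ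
        exact ⟨_, hcov c _ _ _ _ _ hd2 (hf₁.star hg (hab.trans_star hgG)) mnr_star_assoc _ h2⟩)
    exact ⟨_, Y, hY, rfl⟩
  · rintro K _ g₁ hg₁ X ⟨Y, hY, rfl⟩
    obtain ⟨h1, h2⟩ := hsz c _ _ (hf₀.star hg₁ hab) Y (hR2 _ _ (hf₀.star hg₁ hab) hY)
    exact ⟨h1.image _, (Set.ncard_image_le (Set.toFinite _)).trans h2⟩
  · rintro K _ g₁ hg₁ ⟨X, hX, hdis⟩
    choose Y hY hXY using hX
    choose Gw hGw habw hw using hY
    obtain ⟨G', hG', hgG', hGG'⟩ := exists_above hG₀ hG₀ hg₁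
    have hf₁ := hf₀.star hg₁ hab
    have hKne : Nonempty K := by
      have hne : (Y 0).Nonempty := (hsz c _ _ hf₁ (Y 0)
        (hR2 _ _ hf₁ ⟨Gw 0, hGw 0, habw 0, hw 0⟩)).1
      exact ⟨hne.some.1⟩
    set G : Finset A := G' ∪ Finset.univ.biUnion Gw with hGdef
    have hG : (G : Set A) ⊆ B := by
      intro a ha
      rw [hGdef, Finset.coe_union, Set.mem_union] at ha
      rcases ha with ha | ha
      · exact hG' ha
      · rw [Finset.mem_coe, Finset.mem_biUnion] at ha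
        obtain ⟨j, -, hj⟩ := ha
        exact hGw j hj
    have hsub : ∀ j, Gw j ⊆ G := fun j a ha =>
      Finset.mem_union_right _ (Finset.mem_biUnion.2 ⟨j, Finset.mem_univ _, ha⟩)
    have h1 := claim K g₁ G hg₁ hG (hgG'.mono Finset.subset_union_left)
    rw [← h1] at hc
    obtain ⟨M, hM1, hM2, g, hg, -, hnd⟩ := hc
    have h2 : ∀ j, ∃ Z ∈ Q c (M × (K × I₀)) (star g (star g₁ f₀)), Prod.snd '' Z = Y j :=
      fun j => hw j M g (hg.mono (hsub j))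
    choose Z hZ hZY using h2
    refine hnd ⟨Z, hZ, fun j j' hj => ?_⟩
    rw [Set.disjoint_left]
    intro p hp hp'
    have h3 : p.2 ∈ Y j := by rw [← hZY j]; exact ⟨p, hp, rfl⟩
    have h4 : p.2 ∈ Y j' := by rw [← hZY j']; exact ⟨p, hp', rfl⟩
    have h5 := hdis j j' hj
    rw [hXY j, hXY j', Set.disjoint_left] at h5
    exact h5 ⟨p.2, h3, rfl⟩ ⟨p.2, h4, rfl⟩

end Pool.Agent.H58.SF
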