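import Pool.Agent.H58.SF.Defs

/-!
# Compositions in layers
-/

namespace Pool.Agent.H58.SF

open Pool.Agent.H68.BP

variable {σ : Sig} {A : Type} {𝔸 : Str σ A} {B : Set A} {F G H : Finset A} {I J K L : Type}

theorem IsPoly.star {g : (K → A) → A} {f : (I → A) → A} (hg : IsPoly 𝔸 𝔸 g)
    (hf : IsPoly 𝔸 𝔸 f) : IsPoly 𝔸 𝔸 (star g f) := by
  intro l x hx
  exact hg l (fun k r => f (fun i => x (k, i) r)) (fun k => hf l (fun i => x (k, i))
    (fun i => hx (k, i)))

theorem isPoly_proj (i : I) : IsPoly 𝔸 𝔸 (fun x : I → A => x i) := fun _ _ hx => hx i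

theorem Above.sub {f : (I → A) → A} (h : Above F f G) : F ⊆ G := h.1

theorem Above.mono {f : (I → A) → A} (h : Above F f G) (hGH : G ⊆ H) : Above F f H :=
  ⟨h.1.trans hGH, fun x hx => hGH (h.2 x hx)⟩

theorem Above.mnr {f : (I → A) → A} {π : I → J} {f' : (J → A) → A} (h : Above F f G)
    (hm : Mnr F f π f') : Above F f' G := by
  refine ⟨h.1, fun x hx => ?_⟩
  rw [hm x hx]
  exact h.2 _ (fun i => hx _)

theorem Dom.mono {f : (I → A) → A} (hFG : F ⊆ G) (h : Dom 𝔸 B G f) : Dom 𝔸 B F f :=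
  ⟨h.poly, fun c hc => h.idem c (hFG hc), fun x hx => h.mem x (fun i => hFG (hx i))⟩

theorem Mnr.mono {f : (I → A) → A} {π : I → J} {g : (J → A) → A} (hFG : F ⊆ G)
    (h : Mnr G f π g) : Mnr F f π g := fun x hx => h x (fun j => hFG (hx j))

theorem Mnr.comp {f : (I → A) → A} {π : I → J} {g : (J → A) → A} {ρ : J → K}
    {h : (K → A) → A} (h1 : Mnr F f π g) (h2 : Mnr F g ρ h) :
    Mnr F f (fun i => ρ (π i)) h := by
  intro x hx
  rw [h2 x hx, h1 _ (fun j => hx _)]

theorem mnr_minor (f : (I → A) → A) (π : I → J) : Mnr F f π (minor π f) := fun _ _ => rfl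

theorem Dom.star {g : (K → A) → A} {f : (I → A) → A} (hf : Dom 𝔸 B F f) (hg : Dom 𝔸 B G g)
    (h : Above F f G) : Dom 𝔸 B F (star g f) := by
  refine ⟨hg.poly.star hf.poly, fun c hc => ?_, fun x hx => ?_⟩
  · change g (fun _ => f (fun _ => c)) = c
    rw [hf.idem c hc, hg.idem c (h.1 hc)]
  · exact hg.mem _ (fun k => h.2 _ (fun i => hx _))

theorem mnr_star_snd {g : (K → A) → A} {f : (I → A) → A} (hg : Dom 𝔸 B G g)
    (h : Above F f G) : Mnr F (star g f) Prod.snd f := by
  intro x hx
  change f x = g (fun _ => f x)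
  rw [hg.idem _ (h.2 x hx)]

theorem mnr_star_fst {g : (K → A) → A} {f : (I → A) → A} (hf : Dom 𝔸 B F f) :
    Mnr F (star g f) Prod.fst g := by
  intro x hx
  change g x = g (fun k => f (fun _ => x k))
  congr 1
  funext k
  rw [hf.idem _ (hx k)]

theorem mnr_star_left {g : (K → A) → A} {τ : K → L} {g' : (L → A) → A} {f : (I → A) → A}
    (h : Above F f G) (hm : Mnr G g τ g') :
    Mnr F (star g f) (Prod.map τ id) (star g' f) := by
  intro x hx
  exact hm (fun k => f (fun i => x (k, i))) (fun k => h.2 _ (fun i => hx _))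

theorem mnr_star_right {g : (K → A) → A} {π : I → J} {f : (I → A) → A} {f' : (J → A) → A}
    (hm : Mnr F f π f') : Mnr F (star g f) (Prod.map id π) (star g f') := by
  intro x hx
  change g (fun k => f' (fun i => x (k, i))) = g (fun k => f (fun i => x (k, π i)))
  congr 1
  funext k
  exact hm _ (fun j => hx _)

/-- composition of three layers, the outer layer collapsed -/
theorem mnr_star_outer {g' : (L → A) → A} {g : (K → A) → A} {f : (I → A) → A}
    (hg' : Dom 𝔸 B H g') (h : Above F f G) (h' : Above G g H) :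
    Mnr F (star (star g' g) f) (fun p : (L × K) × I => (p.1.2, p.2)) (star g f) := by
  intro x hx
  change g (fun k => f (fun i => x (k, i))) = g' (fun _ => g (fun k => f (fun i => x (k, i))))
  rw [hg'.idem _ (h'.2 _ (fun k => h.2 _ (fun i => hx _)))]

/-- composition of three layers, the middle layer collapsed -/
theorem mnr_star_middle {g' : (L → A) → A} {g : (K → A) → A} {f : (I → A) → A}
    (hg : Dom 𝔸 B G g) (h : Above F f G) :
    Mnr F (star (star g' g) f) (fun p : (L × K) × I => (p.1.1, p.2)) (star g' f) := by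
  intro x hx
  change g' (fun l => f (fun i => x (l, i))) = g' (fun l => g (fun _ => f (fun i => x (l, i))))
  congr 1
  funext l
  rw [hg.idem _ (h.2 _ (fun i => hx _))]

/-- associativity -/
theorem mnr_star_assoc {g' : (L → A) → A} {g : (K → A) → A} {f : (I → A) → A} :
    Mnr F (star (star g' g) f) (fun p : (L × K) × I => (p.1.1, (p.1.2, p.2)))
      (star g' (star g f)) := fun _ _ => rfl

theorem mnr_star_assoc' {g' : (L → A) → A} {g : (K → A) → A} {f : (I → A) → A} :
    Mnr F (star g' (star g f)) (fun p : L × (K × I) => ((p.1, p.2.1), p.2.2))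
      (star (star g' g) f) := fun _ _ => rfl

theorem dom_unit (hF : (F : Set A) ⊆ B) : Dom 𝔸 B F (fun x : Unit → A => x ()) :=
  ⟨isPoly_proj (), fun _ _ => rfl, fun _ hx => hF (hx ())⟩

theorem dom_proj (hF : (F : Set A) ⊆ B) (i : I) : Dom 𝔸 B F (fun x : I → A => x i) :=
  ⟨isPoly_proj i, fun _ _ => rfl, fun _ hx => hF (hx i)⟩

/-- there are levels above `f` and above a given level -/
theorem exists_above [Finite I] {f : (I → A) → A} (hF : (F : Set A) ⊆ B)
    (hH : (H : Set A) ⊆ B) (hf : Dom 𝔸 B F f) :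
    ∃ G : Finset A, (G : Set A) ⊆ B ∧ Above F f G ∧ H ⊆ G := by
  classical
  have := Fintype.ofFinite I
  refine ⟨F ∪ H ∪ Finset.univ.image (fun x : I → F => f (fun i => (x i : A))), ?_, ⟨?_, ?_⟩, ?_⟩
  · intro a ha
    simp only [Finset.coe_union, Finset.coe_image, Finset.coe_univ, Set.image_univ,
      Set.mem_union, Set.mem_range] at ha
    rcases ha with (ha | ha) | ⟨x, rfl⟩
    · exact hF ha
    · exact hH ha
    · exact hf.mem _ (fun i => (x i).2)
  · intro a ha
    simp [ha]
  · intro x hx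
    rw [Finset.mem_union]
    right
    rw [Finset.mem_image]
    exact ⟨fun i => ⟨x i, hx i⟩, Finset.mem_univ _, rfl⟩
  · intro a ha
    simp [ha]

theorem Above.trans_star {g : (K → A) → A} {f : (I → A) → A} (h : Above F f G)
    (h' : Above G g H) : Above F (star g f) H :=
  ⟨h.1.trans h'.1, fun x hx => h'.2 _ (fun k => h.2 _ (fun i => hx _))⟩

section Cov

variable {Q : (I : Type) → ((I → A) → A) → Set (Set I)}

theorem Cov.congr [Finite I] {f g : (I → A) → A} (hQ : Cov 𝔸 B F Q) (hf : Dom 𝔸 B F f)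
    (hg : Dom 𝔸 B F g) (h : ∀ x, (∀ i, x i ∈ F) → g x = f x) : Q I f = Q I g := by
  apply Set.Subset.antisymm
  · intro X hX
    have h1 := hQ I I id f g hf hg (fun x hx => h x hx) X hX
    rwa [Set.image_id] at h1
  · intro X hX
    have h1 := hQ I I id g f hg hf (fun x hx => (h x hx).symm) X hX
    rwa [Set.image_id] at h1

theorem Cov.mono (hQ : Cov 𝔸 B F Q) (hFG : F ⊆ G) : Cov 𝔸 B G Q := by
  intro I J _ _ π f g hf hg hm X hX
  -- a minor at the larger level is a minor at the smaller level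
  exact hQ I J π f g (hf.mono hFG) (hg.mono hFG) (hm.mono hFG) X hX

end Cov

end Pool.Agent.H58.SF
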