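import Pool.Agent.H58.SF.Targets2
import Pool.Agent.H18.SF.CP
import Pool.Agent.H58.SF.GL

/-!
# Pseudo-Olšák polymorphisms
-/

namespace Pool.Agent.H58.SF

open Pool.Agent.H68.BP

variable {σ : Sig} {A : Type} {𝔸 : Str σ A}

/-- the first argument tuple -/
def t1 {A : Type} (x y : A) : Fin 6 → A := ![x, x, y, y, y, x]

/-- the second argument tuple -/
def t2 {A : Type} (x y : A) : Fin 6 → A := ![x, y, x, y, x, y]

/-- the third argument tuple -/
def t3 {A : Type} (x y : A) : Fin 6 → A := ![y, x, x, x, y, y]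

theorem map_t1 {A C : Type} (e : A → C) (x y : A) : (fun i => e (t1 x y i)) = t1 (e x) (e y) := by
  funext i
  fin_cases i <;> rfl

theorem map_t2 {A C : Type} (e : A → C) (x y : A) : (fun i => e (t2 x y i)) = t2 (e x) (e y) := by
  funext i
  fin_cases i <;> rfl

theorem map_t3 {A C : Type} (e : A → C) (x y : A) : (fun i => e (t3 x y i)) = t3 (e x) (e y) := by
  funext i
  fin_cases i <;> rfl

/-- pseudo-Olšák on a set -/
def LocOlsak (𝔸 : Str σ A) (X : Set A) (o : (Fin 6 → A) → A) (a b : A ≃ A) : Prop :=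
  IsAut 𝔸 a ∧ IsAut 𝔸 b ∧ ∀ x ∈ X, ∀ y ∈ X, o (t1 x y) = a (o (t2 x y)) ∧
    o (t2 x y) = b (o (t3 x y))

open Classical in
/-- the pattern of a coordinate -/
noncomputable def patt {I : Type} (X Y W : Set I) (i : I) : Fin 6 :=
  if i ∈ X then (if i ∈ Y then 0 else if i ∈ W then 1 else 5)
  else (if i ∈ Y then (if i ∈ W then 2 else 4) else 3)

theorem patt_t1 {I A : Type} {X Y W : Set I}
    (x y : A) (i : I) [Decidable (i ∈ X)] : t1 x y (patt X Y W i) = if i ∈ X then x else y := by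
  classical
  unfold patt
  by_cases h1 : i ∈ X <;> by_cases h2 : i ∈ Y <;> by_cases h3 : i ∈ W <;>
    simp [h1, h2, h3, t1]

theorem patt_t2 {I A : Type} {X Y W : Set I}
    (x y : A) (i : I) [Decidable (i ∈ Y)] : t2 x y (patt X Y W i) = if i ∈ Y then x else y := by
  classical
  unfold patt
  by_cases h1 : i ∈ X <;> by_cases h2 : i ∈ Y <;> by_cases h3 : i ∈ W <;>
    simp [h1, h2, h3, t2]

theorem patt_t3 {I A : Type} {X Y W : Set I}
    (h : ∀ i, ¬ ((i ∈ X ↔ i ∈ Y) ∧ (i ∈ Y ↔ i ∈ W)))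
    (x y : A) (i : I) [Decidable (i ∈ W)] : t3 x y (patt X Y W i) = if i ∈ W then x else y := by
  classical
  have hi := h i
  unfold patt
  by_cases h1 : i ∈ X <;> by_cases h2 : i ∈ Y <;> by_cases h3 : i ∈ W <;>
    simp_all [t3]

/-- an index of the orbit of a tuple -/
theorem orbit_index (hO : Oligo 𝔸) (K : Type) [Finite K] :
    ∃ (m : ℕ) (ix : (K → A) → Fin m), ∀ x y, ix x = ix y →
      ∃ g : A ≃ A, IsAut 𝔸 g ∧ ∀ k, x k = g (y k) := by
  classical
  obtain ⟨R, hR⟩ := Pool.Agent.H18.SF.oligo_fin hO K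
  choose y hy g hg hgy using hR
  refine ⟨Fintype.card R, fun x => Fintype.equivFin R ⟨y x, hy x⟩, fun x x' hxx => ?_⟩
  have h1 : y x = y x' := by
    have := (Fintype.equivFin R).injective hxx
    exact Subtype.mk.inj this
  refine ⟨(g x').symm.trans (g x), isAut_trans' (isAut_symm' (hg x')) (hg x), fun k => ?_⟩
  change x k = g x ((g x').symm (x' k))
  rw [← hgy x' k, Equiv.symm_apply_apply, ← h1, hgy x k]

theorem loc_level (hHL : T_HL) (hLG : T_LG) (hF1 : T_F1) (hA : Countable A) (hO : Oligo 𝔸)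
    {B : Set A} (hB : Frame 𝔸 B) (hK : ¬ PPConstructsK3 𝔸) (F : Finset A)
    (hF : (F : Set A) ⊆ B) : ∃ o a b, IsPoly 𝔸 𝔸 o ∧ LocOlsak 𝔸 (F : Set A) o a b := by
  classical
  by_contra hcon
  obtain ⟨m, ix, hix⟩ := orbit_index hO (F × F)
  obtain ⟨G, N, Q', hG, hfam⟩ := hHL σ A 𝔸 B F m
    (fun I f X => ix (fun p => f (fun i => if i ∈ X then (p.1 : A) else (p.2 : A)))) hF
    (by
      intro I J _ _ π f g hf hg hm X
      change ix _ = ix _
      congr 1
      funext p
      rw [hm (fun j => if j ∈ X then (p.1 : A) else (p.2 : A)) (fun j => by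
        split_ifs
        · exact p.1.2
        · exact p.2.2)]
      rfl)
    (by
      intro I _ f hf X Y W hne
      rintro ⟨h1, h2⟩
      obtain ⟨a, ha, ha'⟩ := hix _ _ h1
      obtain ⟨b, hb, hb'⟩ := hix _ _ h2
      refine hcon ⟨fun s => f (fun i => s (patt X Y W i)), a, b,
        fun l x hx => hf.poly l (fun i => x (patt X Y W i)) (fun i => hx _), ha, hb, ?_⟩
      intro x hx y hy
      have e1 : (fun i => t1 x y (patt X Y W i)) = fun i => if i ∈ X then x else y := by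
        funext i
        exact patt_t1 x y i
      have e2 : (fun i => t2 x y (patt X Y W i)) = fun i => if i ∈ Y then x else y := by
        funext i
        exact patt_t2 x y i
      have e3 : (fun i => t3 x y (patt X Y W i)) = fun i => if i ∈ W then x else y := by
        funext i
        exact patt_t3 hne x y i
      constructor
      · change f _ = a (f _)
        rw [e1, e2]
        exact ha' (⟨x, hx⟩, ⟨y, hy⟩)
      · change f _ = b (f _)
        rw [e2, e3]
        exact hb' (⟨x, hx⟩, ⟨y, hy⟩))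
  obtain ⟨G', Q'', hG', hfam'⟩ := hLG σ A 𝔸 B G N N Q' hG hfam
  exact hK (hF1 σ A 𝔸 B G' Q'' hA hO hB hG' hfam')

theorem loc_finite (hHL : T_HL) (hLG : T_LG) (hF1 : T_F1) (hA : Countable A) (hO : Oligo 𝔸)
    {B : Set A} (hB : Frame 𝔸 B) (hK : ¬ PPConstructsK3 𝔸) (X : Finset A) :
    ∃ o a b, IsPoly 𝔸 𝔸 o ∧ LocOlsak 𝔸 (X : Set A) o a b := by
  classical
  obtain ⟨e, he, -, heB⟩ := hB.absorb ∅ X (by simp)
  obtain ⟨o, a, b, ho, ha, hb, h⟩ := loc_level hHL hLG hF1 hA hO hB hK (X.image e) (by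
    intro c hc
    obtain ⟨d, hd, rfl⟩ := Finset.mem_image.1 hc
    exact heB d hd)
  refine ⟨fun s => o (fun i => e (s i)), a, b, fun l x hx => ho l _ (fun i => he l _ (hx i)),
    ha, hb, fun x hx y hy => ?_⟩
  have h1 := h (e x) (Finset.mem_image_of_mem e hx) (e y) (Finset.mem_image_of_mem e hy)
  simp only [map_t1, map_t2, map_t3]
  exact h1

theorem pf_PS (hBB : T_BB) (hHL : T_HL) (hLG : T_LG) (hF1 : T_F1) (hGL : T_GL) : T_PS := by
  classical
  intro σ A 𝔸 hA hO hK
  obtain ⟨B, hB⟩ := hBB σ A 𝔸 hA hO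
  obtain ⟨ν, hν⟩ := exists_injective_nat A
  have hX : ∀ n : ℕ, ∃ X : Finset A, ∀ a, a ∈ X ↔ ν a < n := by
    intro n
    have hfin : {a : A | ν a < n}.Finite :=
      Set.Finite.of_finite_image ((Set.finite_Iio n).subset (by
        rintro m ⟨a, ha, rfl⟩
        exact ha)) hν.injOn
    exact ⟨hfin.toFinset, fun a => by simp⟩
  choose X hX using hX
  have hloc := fun n => loc_finite hHL hLG hF1 hA hO hB hK (X n)
  choose o a b ho hab using hloc
  -- the operation
  obtain ⟨O, hOlim⟩ := hGL σ A 𝔸 hO (Fin 6 → A) o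
  have hOpoly : IsPoly 𝔸 𝔸 O := by
    intro l x hx
    obtain ⟨m, -, g, hg, hgm⟩ := hOlim (Finset.univ.image fun k => (fun i => x i k)) 0
    have h1 : (fun k => O (fun i => x i k)) = fun k => g (o m (fun i => x i k)) := by
      funext k
      exact hgm _ (Finset.mem_image.2 ⟨k, Finset.mem_univ _, rfl⟩)
    rw [h1]
    exact (hg l _).1 (ho m l x hx)
  have hOloc : ∀ n, ∃ a' b' : A ≃ A, LocOlsak 𝔸 (X n : Set A) O a' b' := by
    intro n
    obtain ⟨m, hnm, g, hg, hgm⟩ := hOlim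
      (((X n ×ˢ X n).image fun p => t1 p.1 p.2) ∪ (((X n ×ˢ X n).image fun p => t2 p.1 p.2) ∪
        ((X n ×ˢ X n).image fun p => t3 p.1 p.2))) n
    obtain ⟨ha, hb, h⟩ := hab m
    refine ⟨(g.symm.trans (a m)).trans g, (g.symm.trans (b m)).trans g,
      isAut_trans' (isAut_trans' (isAut_symm' hg) ha) hg,
      isAut_trans' (isAut_trans' (isAut_symm' hg) hb) hg, fun x hx y hy => ?_⟩
    have hx' : x ∈ X m := by
      rw [hX]
      have := (hX n x).1 hx
      omega
    have hy' : y ∈ X m := by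
      rw [hX]
      have := (hX n y).1 hy
      omega
    have hxy : (x, y) ∈ X n ×ˢ X n := Finset.mem_product.2 ⟨hx, hy⟩
    obtain ⟨h1, h2⟩ := h x hx' y hy'
    have e1 := hgm (t1 x y) (Finset.mem_union_left _ (Finset.mem_image_of_mem _ hxy))
    have e2 := hgm (t2 x y) (Finset.mem_union_right _ (Finset.mem_union_left _
      (Finset.mem_image_of_mem _ hxy)))
    have e3 := hgm (t3 x y) (Finset.mem_union_right _ (Finset.mem_union_right _
      (Finset.mem_image_of_mem _ hxy)))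
    constructor
    · change O (t1 x y) = g (a m (g.symm (O (t2 x y))))
      rw [e1, e2, Equiv.symm_apply_apply, h1]
    · change O (t2 x y) = g (b m (g.symm (O (t3 x y))))
      rw [e2, e3, Equiv.symm_apply_apply, h2]
  choose a' b' hab' using hOloc
  -- the unary functions
  obtain ⟨H, hHlim⟩ := hGL σ A 𝔸 hO (A ⊕ (A ⊕ A))
    (fun n => Sum.elim id (Sum.elim (a' n) (fun c => a' n (b' n c))))
  refine ⟨O, fun c => H (Sum.inl c), fun c => H (Sum.inr (Sum.inl c)),
    fun c => H (Sum.inr (Sum.inr c)), hOpoly, ?_, ?_, ?_, ?_⟩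
  · intro l x hx
    obtain ⟨m, -, g, hg, hgm⟩ := hHlim (Finset.univ.image fun k => Sum.inl (x k)) 0
    have h1 : (fun k => H (Sum.inl (x k))) = fun k => g (x k) := by
      funext k
      exact hgm _ (Finset.mem_image.2 ⟨k, Finset.mem_univ _, rfl⟩)
    rw [h1]
    exact (hg l _).1 hx
  · intro l x hx
    obtain ⟨m, -, g, hg, hgm⟩ := hHlim (Finset.univ.image fun k => Sum.inr (Sum.inl (x k))) 0
    have h1 : (fun k => H (Sum.inr (Sum.inl (x k)))) = fun k => g (a' m (x k)) := by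
      funext k
      exact hgm _ (Finset.mem_image.2 ⟨k, Finset.mem_univ _, rfl⟩)
    rw [h1]
    exact (hg l _).1 (((hab' m).1 l _).1 hx)
  · intro l x hx
    obtain ⟨m, -, g, hg, hgm⟩ := hHlim (Finset.univ.image fun k => Sum.inr (Sum.inr (x k))) 0
    have h1 : (fun k => H (Sum.inr (Sum.inr (x k)))) = fun k => g (a' m (b' m (x k))) := by
      funext k
      exact hgm _ (Finset.mem_image.2 ⟨k, Finset.mem_univ _, rfl⟩)
    rw [h1]
    exact (hg l _).1 (((hab' m).1 l _).1 (((hab' m).2.1 l _).1 hx))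
  · intro x y
    obtain ⟨m, hm, g, hg, hgm⟩ := hHlim {Sum.inl (O (t1 x y)), Sum.inr (Sum.inl (O (t2 x y))),
      Sum.inr (Sum.inr (O (t3 x y)))} (max (ν x) (ν y) + 1)
    have hx : x ∈ X m := by
      rw [hX]
      omega
    have hy : y ∈ X m := by
      rw [hX]
      omega
    obtain ⟨h1, h2⟩ := (hab' m).2.2 x hx y hy
    have e1 := hgm (Sum.inl (O (t1 x y))) (by simp)
    have e2 := hgm (Sum.inr (Sum.inl (O (t2 x y)))) (by simp)
    have e3 := hgm (Sum.inr (Sum.inr (O (t3 x y)))) (by simp)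
    change H (Sum.inl (O (t1 x y))) = H (Sum.inr (Sum.inl (O (t2 x y)))) ∧
      H (Sum.inr (Sum.inl (O (t2 x y)))) = H (Sum.inr (Sum.inr (O (t3 x y))))
    rw [e1, e2, e3]
    change g (O (t1 x y)) = g (a' m (O (t2 x y))) ∧
      g (a' m (O (t2 x y))) = g (a' m (b' m (O (t3 x y))))
    rw [← h1, ← h2, ← h1]
    exact ⟨rfl, rfl⟩

end Pool.Agent.H58.SF
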