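import Pool.Agent.H84.SF.Loc

/-!
# Rows SOK and LC2 of the board `sfc_modules`
-/

set_option autoImplicit false

namespace Pool.Agent.H58.SF

open MvPolynomial SC
open Pool.Agent.H27.LV (ge deg poleOrder canDeg)
open Pool.Agent.H92.OD (HS cf sg uu Lat geO IsO DF DD)
open Pool.Agent.H84.SM (y1 y2 Near)
open Pool.Agent.H84.SF

theorem pf_SOK : T_SOK := by
  intro k O K _ _ _ _ _ _ X G A b x D hX hE φ hφX hφD
  unfold EqK at hE
  unfold SolO
  rw [hX, hX] at hE
  have h := congrArg φ hE
  rw [map_zero, map_add, map_mul, map_sub, map_mul, map_mul, hφD, hφD, hφX, map_sum] at h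
  simp only [map_mul, map_pow, hφD, hφX] at h
  rw [Fin.sum_univ_four] at h
  rw [Fin.sum_univ_four]
  set U : HS k := φ (x G) with hU
  have hxG : (φ.comp x) G = U := rfl
  rw [hxG]
  have hc : ∀ z, (φ.comp x) z = φ (x z) := fun z => rfl
  rw [hc, hc, hc, hc, hc]
  unfold y1 y2
  set s : HS k := sg (-1) 1 with hs
  have hu : s * uu k = 1 := by
    rw [hs]
    unfold uu
    rw [Pool.Agent.H92.OD.sg_mul_sg]
    norm_num
    exact Pool.Agent.H92.OD.sg_zero_one
  have hs2 : (sg (-2) 1 : HS k) = s ^ 2 := by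
    rw [hs, pow_two, Pool.Agent.H92.OD.sg_mul_sg]
    norm_num
  rw [hs2]
  have e0 : ((0 : Fin 4) : ℕ) = 0 := rfl
  have e1 : ((1 : Fin 4) : ℕ) = 1 := rfl
  have e2 : ((2 : Fin 4) : ℕ) = 2 := rfl
  have e3 : ((3 : Fin 4) : ℕ) = 3 := rfl
  rw [e0, e1, e2, e3] at h ⊢
  set V : HS k := DF U with hV
  set W : HS k := DF V with hW
  set u : HS k := uu k with hu'
  have h2 : s ^ 3 * (φ (x A) * (u * W - V * u) + (φ (x (b 0)) * V ^ 0 * u ^ (3 - 0) +
      φ (x (b 1)) * V ^ 1 * u ^ (3 - 1) + φ (x (b 2)) * V ^ 2 * u ^ (3 - 2) +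
      φ (x (b 3)) * V ^ 3 * u ^ (3 - 3))) = 0 := by
    rw [h, mul_zero]
  rw [← h2]
  norm_num
  linear_combination (-(φ (x A) * (W - V) * s ^ 2) - φ (x (b 0)) * (s ^ 2 * u ^ 2 + s * u + 1) -
    φ (x (b 1)) * V * s * (s * u + 1) - φ (x (b 2)) * V ^ 2 * s ^ 2) * hu

theorem pf_LC2 (hFRS : T_FRS) (hLC1 : T_LC1) : T_LC2 := by
  intro k O _ _ _ _ _ _ _ ε X G dX dG hF A b hb
  by_cases hGA : G ∣ A
  · refine ⟨1, fun _ => rfl, ?_⟩
    intro K _ _ _ _ D _ x v hv _ hxG hxA _ _
    left
    obtain ⟨A1, rfl⟩ := hGA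
    rw [map_mul] at hxA ⊢
    have hA1 : x A1 ≠ 0 := right_ne_zero_of_mul hxA
    rw [v.ord_mul _ _ hxG hA1]
    rcases hv A1 with h | h
    · exact absurd h hA1
    · linarith
  · obtain ⟨hF', hE'⟩ := hFRS k O ε X G dX dG hF
    obtain ⟨C1, hC1, H1⟩ := hLC1 k O ε X G dX dG hF A b hb hGA
    obtain ⟨C2, hC2, H2⟩ := hLC1 k O ε (X + G) G dX (dG - dX) hF' A (bsh b) (by
      show G ∣ bsh b 0
      have : bsh b 0 = b 0 := rfl
      rw [this]; exact hb) hGA
    refine ⟨max C1 C2, fun h => by rw [hC1 h, hC2 h, max_self], ?_⟩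
    intro K _ _ _ htr D hD x v hv hv1 hxG hxA hgen hE
    by_cases hc : x X ≠ 0 ∧ v.ord (x X) ≤ v.ord (x G)
    · rcases H1 K htr D hD x v hv hv1 hxG hxA hc.1 hc.2 hgen hE with h | h
      · exact Or.inl h
      · right
        refine h.trans ?_
        push_cast
        exact le_max_left _ _
    · -- second frame
      have hnz : x (X + G) ≠ 0 ∧ v.ord (x (X + G)) = v.ord (x G) := by
        rw [map_add]
        by_cases hX : x X = 0
        · rw [hX, zero_add]; exact ⟨hxG, rfl⟩
        · have hlt : v.ord (x G) < v.ord (x X) := by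
            by_contra h
            exact hc ⟨hX, not_lt.1 h⟩
          have hneg : v.ord (-(x X)) = v.ord (x X) := by
            have h1 : -(x X) = algebraMap k K (-1) * x X := by
              rw [map_neg, map_one]; ring
            have h2 : algebraMap k K (-1) ≠ 0 := by
              rw [map_neg, map_one]; exact neg_ne_zero.2 one_ne_zero
            rw [h1, v.ord_mul _ _ h2 hX, v.ord_base, zero_add]
          have hne : x X + x G ≠ 0 := by
            intro h0
            have h1 : x G = -(x X) := by linear_combination h0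
            rw [h1, hneg] at hlt
            exact absurd hlt (lt_irrefl _)
          refine ⟨hne, le_antisymm ?_ ?_⟩
          · have h1 := v.ord_add (x X + x G) (-(x X)) hne (neg_ne_zero.2 hX) (by
              have : x X + x G + -(x X) = x G := by ring
              rw [this]; exact hxG)
            have h2 : x X + x G + -(x X) = x G := by ring
            rw [h2, hneg] at h1
            rcases min_le_iff.1 h1 with h | h
            · exact h
            · exact absurd hlt (not_lt.2 h)
          · have h1 := v.ord_add (x X) (x G) hX hxG hne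
            rwa [min_eq_right hlt.le] at h1
      rcases H2 K htr D hD x v hv hv1 hxG hxA hnz.1 hnz.2.le hgen
        (hE' K A b x D hE) with h | h
      · exact Or.inl h
      · right
        refine h.trans ?_
        push_cast
        exact le_max_right _ _

end Pool.Agent.H58.SF
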