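import Pool.Agent.H58.SF.Targets

/-!
# Statements of the modules, second part
-/

namespace Pool.Agent.H58.SF

open Pool.Agent.H68.BP

/-- natural colourings of the sets of coordinates at a level without monochromatic triples -/
def T_HL : Prop :=
  ∀ (σ : Sig) (A : Type) (𝔸 : Str σ A) (B : Set A) (F : Finset A) (m : ℕ)
    (φ : (I : Type) → ((I → A) → A) → Set I → Fin m), (F : Set A) ⊆ B →
    (∀ (I J : Type) [Finite I] [Finite J] (π : I → J) (f : (I → A) → A) (g : (J → A) → A),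
      Dom 𝔸 B F f → Dom 𝔸 B F g → Mnr F f π g → ∀ X : Set J, φ J g X = φ I f (π ⁻¹' X)) →
    (∀ (I : Type) [Finite I] (f : (I → A) → A), Dom 𝔸 B F f → ∀ X Y W : Set I,
      (∀ i, ¬ ((i ∈ X ↔ i ∈ Y) ∧ (i ∈ Y ↔ i ∈ W))) →
      ¬ (φ I f X = φ I f Y ∧ φ I f Y = φ I f W)) →
    ∃ (G : Finset A) (N : ℕ) (Q' : (I : Type) → ((I → A) → A) → Set (Set I)),
      (G : Set A) ⊆ B ∧ Fam 𝔸 B G N N Q'

/-- limits -/
def T_GL : Prop :=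
  ∀ (σ : Sig) (A : Type) (𝔸 : Str σ A), Oligo 𝔸 → ∀ (E : Type) [Countable E]
    (h : ℕ → E → A), ∃ H : E → A, ∀ (X : Finset E) (n : ℕ), ∃ m, n ≤ m ∧
      ∃ g : A ≃ A, IsAut 𝔸 g ∧ ∀ x ∈ X, H x = g (h m x)

/-- pseudo-Olšák polymorphisms -/
def PseudoOlsak {σ : Sig} {A : Type} (𝔸 : Str σ A) : Prop :=
  ∃ (o : (Fin 6 → A) → A) (α β γ : A → A), IsPoly 𝔸 𝔸 o ∧ IsHom 𝔸 𝔸 α ∧ IsHom 𝔸 𝔸 β ∧
    IsHom 𝔸 𝔸 γ ∧ ∀ x y : A,
      α (o ![x, x, y, y, y, x]) = β (o ![x, y, x, y, x, y]) ∧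
      β (o ![x, y, x, y, x, y]) = γ (o ![y, x, x, x, y, y])

/-- THEOREM P -/
def T_PS : Prop :=
  ∀ (σ : Sig) (A : Type) (𝔸 : Str σ A), Countable A → Oligo 𝔸 → ¬ PPConstructsK3 𝔸 →
    PseudoOlsak 𝔸

end Pool.Agent.H58.SF
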